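import Pool.Agent.Helper81.EU.InvA

/-!
# Block EU-IB: opposite elements have an inverse with the same image

`exists_inv`: `End V` is finite, so `(N M)^a = (N M)^(a + k)` for some `a` and `k ≥ 1`, and `N M` is injective on the image of `N` (`Opp`),
so `(N M)^k N = N`. Let `R = (N M)^(k-1) N`. It is self adjoint (`(N M)^i N` is, by induction: `(N M)^(i+1) N = N M (N M)^i N` and
`= (N M)^i N M N`), `R R = 0`, `range R ≤ range N` (`R = N (M N)^(k-1)`) and `N = N M R`, so the ranks are equal. `R M R = (N M)^(k-1) (N M)^k N = R`;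
`inv_rank`.
-/

set_option autoImplicit false
set_option linter.unusedSectionVars false

open LinearMap

namespace Pool.Agent.Helper81.EU

open Pool.Agent.Helper81.UT Pool.Agent.Helper2.EV

variable {K V : Type*} [Field K] [StarRing K] [AddCommGroup V] [Module K V] [CharP K 2]
  [FiniteDimensional K V] {h : V → V → K}

private theorem pow_N32 (N M : Module.End K V) (i : ℕ) :
    (N * M) ^ i * N = N * (M * N) ^ i := by
  induction i with
  | zero => rw [pow_zero, pow_zero, one_mul, mul_one]
  | succ i ih =>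
    rw [pow_succ', mul_assoc, ih, pow_succ', ← mul_assoc, ← mul_assoc, ← mul_assoc]

private theorem sa_pow32 {N M : Module.End K V} (hN : SA h N) (hM : SA h M) (i : ℕ) :
    SA h ((N * M) ^ i * N) := by
  induction i with
  | zero => rw [pow_zero, one_mul]; exact hN
  | succ i ih =>
    intro x y
    have e1 : (N * M) ^ (i + 1) * N = N * M * ((N * M) ^ i * N) := by
      rw [pow_succ', mul_assoc]
    have e2 : (N * M) ^ (i + 1) * N = (N * M) ^ i * N * M * N := by
      rw [pow_succ]
      simp only [mul_assoc]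
    have a1 : ((N * M) ^ (i + 1) * N) x = N (M (((N * M) ^ i * N) x)) := by
      rw [e1]; rfl
    have a2 : ((N * M) ^ (i + 1) * N) y = ((N * M) ^ i * N) (M (N y)) := by
      rw [e2]; rfl
    rw [a1, a2, hN, hM, ih]

private theorem inj32 {N M : Module.End K V} (ho : Opp N M) {x : V} (hx : x ∈ range N)
    (h0 : (N * M) x = 0) : x = 0 := by
  have h1 : M x = 0 := Submodule.disjoint_def.1 ho.1 (M x) ⟨x, rfl⟩ h0
  exact Submodule.disjoint_def.1 ho.2 x hx h1

private theorem inj_pow32 {N M : Module.End K V} (ho : Opp N M) (a : ℕ) {x : V}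
    (hx : x ∈ range N) (h0 : ((N * M) ^ a) x = 0) : x = 0 := by
  induction a with
  | zero => simpa using h0
  | succ a ih =>
    apply ih
    rw [pow_succ'] at h0
    apply inj32 ho _ h0
    obtain ⟨y, rfl⟩ := hx
    have h1 : ((N * M) ^ a) (N y) = (N * (M * N) ^ a) y := by rw [← pow_N32]; rfl
    rw [h1]
    exact ⟨((M * N) ^ a) y, rfl⟩

theorem exists_inv [Finite K] (hh : Herm h) {j : ℕ} {N M : Module.End K V} (hN : N ∈ El h j)
    (hM : M ∈ El h j) (ho : Opp N M) : ∃ R ∈ El h j, range R = range N ∧ Inv R M := by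
  have hV : Finite V := Module.finite_of_finite K
  have hE : Finite (Module.End K V) :=
    Finite.of_injective (fun f : Module.End K V => (f : V → V)) DFunLike.coe_injective
  obtain ⟨a, k, hk, hak⟩ : ∃ a k : ℕ, 1 ≤ k ∧ (N * M) ^ (a + k) = (N * M) ^ a := by
    obtain ⟨x, y, hxy, he⟩ := Finite.exists_ne_map_eq_of_infinite (fun i : ℕ => (N * M) ^ i)
    rcases lt_or_gt_of_ne hxy with hlt | hlt
    · refine ⟨x, y - x, by omega, ?_⟩
      rw [show x + (y - x) = y by omega]
      exact he.symm
    · refine ⟨y, x - y, by omega, ?_⟩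
      rw [show y + (x - y) = x by omega]
      exact he
  have hkN : (N * M) ^ k * N = N := by
    ext x
    have h1 : ((N * M) ^ k * N) x - N x ∈ range N := by
      rw [pow_N32]
      exact Submodule.sub_mem _ ⟨((M * N) ^ k) x, rfl⟩ ⟨x, rfl⟩
    have h2 : ((N * M) ^ a) (((N * M) ^ k * N) x - N x) = 0 := by
      rw [map_sub]
      have h3 : ((N * M) ^ a) (((N * M) ^ k * N) x) = ((N * M) ^ (a + k)) (N x) := by
        rw [pow_add]; rfl
      rw [h3, hak, sub_self]
    exact sub_eq_zero.1 (inj_pow32 ho a h1 h2)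
  obtain ⟨i, rfl⟩ : ∃ i : ℕ, k = i + 1 := ⟨k - 1, by omega⟩
  have hNN : N * N = 0 := el_sq hN
  obtain ⟨R, hR⟩ : ∃ R : Module.End K V, R = (N * M) ^ i * N := ⟨_, rfl⟩
  have hRM : R * M * R = R := by
    have e1 : R * M * R = (N * M) ^ i * ((N * M) ^ (i + 1) * N) := by
      rw [hR, pow_succ']
      simp only [mul_assoc]
    rw [e1, hkN, hR]
  have hRMN : R * (M * N) = N := by
    have e1 : R * (M * N) = (N * M) ^ (i + 1) * N := by
      rw [hR, pow_succ]
      simp only [mul_assoc]
    rw [e1, hkN]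
  have hrange : range R = range N := by
    apply le_antisymm
    · rintro _ ⟨x, rfl⟩
      rw [hR, pow_N32]
      exact ⟨((M * N) ^ i) x, rfl⟩
    · rintro _ ⟨x, rfl⟩
      refine ⟨(M * N) x, ?_⟩
      exact LinearMap.congr_fun hRMN x
  have hRR : R * R = 0 := by
    have e1 : R * R = (N * M) ^ i * (N * N) * (M * N) ^ i := by
      conv_lhs => rw [hR]
      rw [mul_assoc, pow_N32 N M i]
      simp only [mul_assoc]
    rw [e1, hNN, mul_zero, zero_mul]
  have hRSq : R ∈ Sq K V j := ⟨hRR, by rw [hrange]; exact hN.1.2⟩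
  have hRSA : SA h R := by rw [hR]; exact sa_pow32 hN.2 hM.2 i
  exact ⟨R, ⟨hRSq, hRSA⟩, hrange, inv_rank hRSq hM.1 hRM⟩

end Pool.Agent.Helper81.EU
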