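import Pool.Agent.Helper81.EU.Defs

/-!
# Block EU-OT: order three

Everything in `End V`, characteristic two (`aa : A + A = 0`).
`three'`: by `three` (project EV) the left side says `(1 + z) (N + M + N M) = 0` with `z = N M + M N`, and
`z N = N z = N M N`, `z M = M z = M N M`. Multiply by `N` on the left: `(1 + z) N M = 0`, that is `N M = N M N M`; then
`(1 + z) (N + M) = 0`, that is `N + M + N M N + M N M = 0`. Conversely add both.
`o3_of_inv`: `N M N = N`, `M N M = M`.
-/

set_option autoImplicit false
set_option linter.unusedSectionVars false

open LinearMap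

namespace Pool.Agent.Helper81.EU

open Pool.Agent.Helper81.UT Pool.Agent.Helper2.EV

variable {K V : Type*} [Field K] [StarRing K] [AddCommGroup V] [Module K V] [CharP K 2]

theorem three' {N M : Module.End K V} (hN : N * N = 0) (hM : M * M = 0) :
    ((1 + N) * (1 + M)) ^ 3 = 1 ↔ O3 N M := by
  have e1 : (1 + (N * M + M * N)) * (N + M + N * M) = (N * M * N + N) + (M * N * M + M) +
      (N * M * (N * M) + N * M) := by
    have e2 : (1 + (N * M + M * N)) * (N + M + N * M) = N + M + N * M + N * M * N + N * (M * M) +
      N * (M * N * M) + M * (N * N) + M * N * M + M * (N * N) * M := by noncomm_ring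
    rw [e2, hN, hM, mul_zero, mul_zero, zero_mul, add_zero, add_zero, add_zero]
    noncomm_ring
  rw [three hN hM, e1]
  constructor
  · intro h
    have h1 : N * M * (N * M) + N * M = 0 := by
      have h2 := congrArg (fun x => N * x) h
      simp only [mul_zero] at h2
      have h3 : N * (N * M * N + N + (M * N * M + M) + (N * M * (N * M) + N * M)) =
          N * N * M * N + N * N + (N * M * (N * M) + N * M) + (N * N * M * (N * M) + N * N * M) := by
        noncomm_ring
      rw [h3, hN] at h2
      simpa using h2
    rw [h1, add_zero] at h
    have key : ∀ A B : Module.End K V, A + B = 0 → A = B := by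
      intro A B hAB
      calc A = A + (B + B) := by rw [aa, add_zero]
        _ = (A + B) + B := by rw [add_assoc]
        _ = B := by rw [hAB, zero_add]
    exact ⟨key _ _ h1, key _ _ h⟩
  · rintro ⟨h1, h2⟩
    rw [h1, h2, aa, aa, add_zero]

theorem o3_of_inv {N M : Module.End K V} (hI : Inv N M) : O3 N M := by
  constructor
  · rw [← mul_assoc, hI.1]
  · rw [hI.1, hI.2, aa, aa]

end Pool.Agent.Helper81.EU
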