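import Pool.Agent.Helper81.EU.Defs

/-!
# Block EU-WZ: isotropic vectors orthogonal to the images of `N` and `M`

Let `W = ker N ∩ ker M`. Suppose `y ≠ 0`; choose `z₀` with `h z₀ y = 1` (`nondeg`, scale). `z = z₀ - N (M z₀) - M (N z₀)` is in `W`
(`N M N = N`, `M N M = M`) and `h z y = 1` (`h (N (M z₀)) y = h (M z₀) (N y) = 0`, ...), so `h y z = 1`. Choose `c` with
`trc c = h z z` (`trc_surj`). `x = z + c • y` is in `W`, `h x x = h z z + c + star c = 0`, but `h x y = 1`.
-/

set_option autoImplicit false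
set_option linter.unusedSectionVars false

open LinearMap

namespace Pool.Agent.Helper81.EU

open Pool.Agent.Helper81.UT Pool.Agent.Helper2.EV

variable {K V : Type*} [Field K] [StarRing K] [AddCommGroup V] [Module K V] [CharP K 2] [Finite K]
  {h : V → V → K}

theorem w_zero (hh : Herm h) (hstar : ∃ x : K, star x ≠ x) {j : ℕ} {N M : Module.End K V}
    (hN : N ∈ El h j) (hM : M ∈ El h j) (hI : Inv N M) {y : V} (h1 : N y = 0) (h2 : M y = 0)
    (h3 : h y y = 0) (H : ∀ x, N x = 0 → M x = 0 → h x x = 0 → h x y = 0) : y = 0 := by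
  by_contra hy
  -- a vector with product one
  obtain ⟨z1, hz1⟩ : ∃ z, h z y ≠ 0 := by
    by_contra hcon
    push Not at hcon
    exact hy (hh.nondeg y fun z => hh.eq_zero_comm.1 (hcon z))
  obtain ⟨z0, hz0⟩ : ∃ z, h z y = 1 := ⟨(h z1 y)⁻¹ • z1, by rw [hh.smul, inv_mul_cancel₀ hz1]⟩
  have e1 : ∀ x, N (M (N x)) = N x := fun x => LinearMap.congr_fun hI.1 x
  have e2 : ∀ x, M (N (M x)) = M x := fun x => LinearMap.congr_fun hI.2 x
  obtain ⟨z, hz⟩ : ∃ z, z = z0 + N (M z0) + M (N z0) := ⟨_, rfl⟩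
  have hNz : N z = 0 := by
    rw [hz, map_add, map_add, el_sq' hN, e1, add_zero]
    exact aav K _
  have hMz : M z = 0 := by
    rw [hz, map_add, map_add, el_sq' hM, e2, add_zero]
    exact aav K _
  have hzy : h z y = 1 := by
    rw [hz, hh.add, hh.add, hz0, el_adj hN (M z0) y, h1, el_adj hM (N z0) y, h2, hh.zero_right, hh.zero_right,
      add_zero, add_zero]
  have hyz : h y z = 1 := by
    rw [← hh.symm, hzy, star_one]
  obtain ⟨c, hc⟩ := trc_surj hstar (hh.self z)
  have hNx : N (z + c • y) = 0 := by rw [map_add, map_smul, hNz, h1, smul_zero, add_zero]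
  have hMx : M (z + c • y) = 0 := by rw [map_add, map_smul, hMz, h2, smul_zero, add_zero]
  have hxx : h (z + c • y) (z + c • y) = 0 := by
    rw [hh.add, hh.add_right, hh.add_right, hh.smul, hh.smul, hh.smul_right, hh.smul_right, hzy, hyz, h3, ← hc, trc]
    have h4 : (2 : K) = 0 := CharP.cast_eq_zero K 2
    linear_combination (c + star c) * h4
  have h5 := H _ hNx hMx hxx
  rw [hh.add, hh.smul, hzy, h3, mul_zero, add_zero] at h5
  exact one_ne_zero h5

end Pool.Agent.Helper81.EU
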