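import Pool.Agent.Helper81.EU.Rng
import Pool.Agent.Helper81.EU.Wz

/-!
# Project EU: elements opposite to `N`, the configuration

`M` is opposite to `N`, `M'` is its image, `R` has the image of `N` and is inverse to `M` and `M'`, `M₀` has the
image of `M` and is inverse to `N`. `Cfg.com`, `Cfg.nil`: all `P` inverse to `N` are fixed.
-/

set_option autoImplicit false
set_option linter.unusedSectionVars false

open LinearMap

namespace Pool.Agent.Helper81.EU

open Pool.Agent.Helper81.UT Pool.Agent.Helper2.EV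

variable {K V : Type*} [Field K] [StarRing K] [AddCommGroup V] [Module K V] {h : V → V → K}

/-- The configuration. -/
structure Cfg (h : V → V → K) (j : ℕ) (N R M M' M₀ : Module.End K V) : Prop where
  hN : N ∈ El h j
  hR : R ∈ El h j
  hM : M ∈ El h j
  hM' : M' ∈ El h j
  hM₀ : M₀ ∈ El h j
  hRN : range R = range N
  hMM : range M₀ = range M
  iRM : Inv R M
  iRM' : Inv R M'
  iNM : Inv N M₀
  com : ∀ P ∈ El h j, Inv N P → M * P = P * M → M' * P = P * M'
  nil : ∀ P ∈ El h j, Inv N P → IsNilpotent (M * P) → IsNilpotent (M' * P)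

variable {j : ℕ} {N R M M' M₀ : Module.End K V}

theorem Cfg.kRN (hh : Herm h) (c : Cfg h j N R M M' M₀) : ker R = ker N :=
  ker_eq_of_range hh c.hR c.hN c.hRN

theorem Cfg.kMM (hh : Herm h) (c : Cfg h j N R M M' M₀) : ker M₀ = ker M :=
  ker_eq_of_range hh c.hM₀ c.hM c.hMM

theorem Cfg.MM₀ (c : Cfg h j N R M M' M₀) : M * M₀ = 0 ∧ M₀ * M = 0 :=
  mul_of_range c.hM.1 c.hM₀.1 c.hMM

/-- `M'` and `M₀` commute. -/
theorem Cfg.comm (c : Cfg h j N R M M' M₀) : M' * M₀ = M₀ * M' :=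
  c.com M₀ c.hM₀ c.iNM (by rw [c.MM₀.1, c.MM₀.2])

/-- `R M` is the identity on the image of `N`. -/
theorem Cfg.RM (c : Cfg h j N R M M' M₀) {v : V} (hv : v ∈ range N) : R (M v) = v := by
  rw [← c.hRN] at hv
  obtain ⟨w, rfl⟩ := hv
  exact LinearMap.congr_fun c.iRM.1 w

theorem Cfg.RM' (c : Cfg h j N R M M' M₀) {v : V} (hv : v ∈ range N) : R (M' v) = v := by
  rw [← c.hRN] at hv
  obtain ⟨w, rfl⟩ := hv
  exact LinearMap.congr_fun c.iRM'.1 w

/-- `N M₀` is the identity on the image of `N`. -/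
theorem Cfg.NM₀ (c : Cfg h j N R M M' M₀) {v : V} (hv : v ∈ range N) : N (M₀ v) = v := by
  obtain ⟨w, rfl⟩ := hv
  exact LinearMap.congr_fun c.iNM.1 w

/-- `M R` is the identity on the image of `M`. -/
theorem Cfg.MR (c : Cfg h j N R M M' M₀) {w : V} (hw : w ∈ range M) : M (R w) = w := by
  obtain ⟨z, rfl⟩ := hw
  exact LinearMap.congr_fun c.iRM.2 z

/-- Two forms on the image of `N`. -/
theorem Cfg.form (hh : Herm h) (c : Cfg h j N R M M' M₀) {v w : V} (hv : v ∈ range N)
    (hw : w ∈ range N) : h (M' v) w = h (M v) w := by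
  rw [← c.hRN] at hw
  obtain ⟨z, rfl⟩ := hw
  rw [← el_adj c.hR, ← el_adj c.hR, c.RM' hv, c.RM hv]

end Pool.Agent.Helper81.EU
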