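import Pool.Agent.Helper81.EU.Geo
import Pool.Agent.Helper81.UT.Quo

/-!
# Block EU-TR: transitivity on frames

`chain`: (i) if `h u y ≠ 0` (`u`, `y` isotropic) there is an isotropic `x = a • u + b • y` with `nm (h x u) = nm (h x y) = 1`: as in
`connected` of project UT (block UT-GB): `h x x = trc (a * star b * h u y)`, `h x u = b * h y u`, `h x y = a * h u y`; take
`b` with `nm b = (nm (h u y))⁻¹` and `a = (b * ...)`: `a = star b⁻¹ * (h u y)⁻¹ * s` with `s` fixed by `star`, `nm`-condition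
`nm a = (nm (h u y))⁻¹`: `s * s = nm b`, that is `s` the square root of `nm b` (`exists_sqrt`). (ii) if `h u v = 0` there is an isotropic `y`
orthogonal to `A` with `h y u ≠ 0`, `h y v ≠ 0`: `exists_perp_not` for `b = u` and `b = v`, `two_hyp` (`Z` = the vectors orthogonal to `A`). If
`h u v ≠ 0`, take `y = v` first: `u, x, v` from (i) and then `x' ` from (i) for `x`, `v`: the chain `u, x, x', ...`; or use the
`y` from (ii) also in this case (it is correct in all cases: (ii) does not use `h u v = 0`). Then `x` from (i) for `u`, `y` and `z` from (i) for `y`, `v`.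
`move`: `a = tv x`, `b = tv x'` with `nm (h x x') = 1`: `tv x (tv x' x) = c • x'` with `nm c = 1` (`x + h x x' • x'`, then
`+ h (x + h x x' • x') x • x = nm (h x x') • x`), so the product of the transvections along the chain maps `u` to `Eqv` of `v`; they fix all
vectors orthogonal to the chain, so all of `A`.
`trans_frames`: induction on `k ≤ j`: there is a `g` in `Gr h` with `Eqv K (u' i) (g (u i))` for `i < k`. Step: `w = g (u k)` and `u' k` are
isotropic, orthogonal to all `u' i`, `i < k` (`isom` of UT, `h (g (u k)) (g (u i)) = 0`), so to their span `A`, and not in `A`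
(`linearIndependent`). `move` gives `g'` in `Gr h` fixing `A` with `Eqv K (u' k) (g' w)`; take `g' * g`.
-/

set_option autoImplicit false
set_option linter.unusedSectionVars false

open LinearMap

namespace Pool.Agent.Helper81.EU

open Pool.Agent.Helper81.UT Pool.Agent.Helper2.EV

variable {K V : Type*} [Field K] [StarRing K] [AddCommGroup V] [Module K V] [CharP K 2] [Finite K]
  [FiniteDimensional K V] {h : V → V → K}

omit [FiniteDimensional K V] in
private theorem mid77 (hh : Herm h) {u v : V} (hu : Iso h u) (hv : Iso h v) (huv : h u v ≠ 0) :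
    ∃ a b : K, Iso h (a • u + b • v) ∧ nm (h u (a • u + b • v)) = 1 ∧
      nm (h (a • u + b • v) v) = 1 := by
  obtain ⟨d, hd⟩ : ∃ d, d = h u v := ⟨_, rfl⟩
  have hvu : h v u = star d := by rw [← hh.symm, hd]
  rw [← hd] at huv
  have hsd : star d ≠ 0 := fun h0 => huv (star_eq_zero.1 h0)
  have hnd : nm d ≠ 0 := fun h0 => huv (nm_eq_zero.1 h0)
  obtain ⟨t, ht, htt⟩ := exists_sqrt (s := (nm d)⁻¹) (by rw [star_inv₀, star_nm])
  have hstar_a : star (star d / d * t) = d / star d * t := by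
    rw [star_mul, star_div₀, star_star, ht, mul_comm]
  have hxu : h ((star d / d * t) • u + d⁻¹ • v) u = d⁻¹ * star d := by
    rw [hh.add, hh.smul, hh.smul, hu.2, hvu]
    ring
  have hxv : h ((star d / d * t) • u + d⁻¹ • v) v = star d / d * t * d := by
    rw [hh.add, hh.smul, hh.smul, hv.2, ← hd]
    ring
  have hn1 : nm (d⁻¹ * star d) = 1 := by
    rw [nm_mul, nm_inv, nm_star, inv_mul_cancel₀ hnd]
  refine ⟨star d / d * t, d⁻¹, ⟨?_, ?_⟩, ?_, ?_⟩
  · intro h0
    rw [h0, hh.zero_left] at hxu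
    rw [← hxu, nm_zero] at hn1
    exact zero_ne_one hn1
  · rw [hh.add_right, hh.smul_right, hh.smul_right, hxu, hxv, hstar_a, star_inv₀]
    have h1 : d / star d * t * (d⁻¹ * star d) + (star d)⁻¹ * (star d / d * t * d) = t + t := by
      field_simp
    rw [h1]
    exact CharTwo.add_self_eq_zero _
  · rw [hh.nm_comm, hxu, hn1]
  · rw [hxv]
    have h1 : star d / d * t * d = star d * t := by
      field_simp
    have h2 : nm t = t * t := by rw [nm, ht]
    rw [h1, nm_mul, nm_star, h2, htt, mul_inv_cancel₀ hnd]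

theorem chain (hh : Herm h) (hstar : ∃ x : K, star x ≠ x) {A : Submodule K V} {u v : V}
    (hu : Iso h u) (hv : Iso h v) (huA : ∀ a ∈ A, h u a = 0) (hvA : ∀ a ∈ A, h v a = 0)
    (hu' : u ∉ A) (hv' : v ∉ A) :
    ∃ x y z, Iso h x ∧ Iso h y ∧ Iso h z ∧ (∀ a ∈ A, h x a = 0) ∧ (∀ a ∈ A, h y a = 0) ∧
      (∀ a ∈ A, h z a = 0) ∧ nm (h u x) = 1 ∧ nm (h x y) = 1 ∧ nm (h y z) = 1 ∧
      nm (h z v) = 1 := by
  obtain ⟨y₀, a1, a2, a3⟩ := exists_perp_not hh hstar huA hu.2 hu'
  obtain ⟨y₁, b1, b2, b3⟩ := exists_perp_not hh hstar hvA hv.2 hv'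
  have hlin : ∀ {p q : V} (c d : K), (∀ a ∈ A, h p a = 0) → (∀ a ∈ A, h q a = 0) →
      ∀ a ∈ A, h (c • p + d • q) a = 0 := by
    intro p q c d hp hq a ha
    rw [hh.add, hh.smul, hh.smul, hp a ha, hq a ha, mul_zero, mul_zero, add_zero]
  obtain ⟨Z, hZ⟩ : ∃ Z : Submodule K V, ∀ z, z ∈ Z ↔ ∀ a ∈ A, h z a = 0 := by
    refine ⟨{
      carrier := {z | ∀ a ∈ A, h z a = 0}
      add_mem' := ?_
      zero_mem' := ?_
      smul_mem' := ?_ }, fun z => Iff.rfl⟩
    · intro p q hp hq a ha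
      rw [hh.add, hp a ha, hq a ha, add_zero]
    · intro a _
      exact hh.zero_left a
    · intro c p hp a ha
      rw [hh.smul, hp a ha, mul_zero]
  obtain ⟨y, hyZ, hyy, hyu, hyv⟩ := two_hyp hh (Z := Z) (b₀ := u) (b₁ := v) ((hZ _).2 a1) a2
    ((hZ _).2 b1) b2 (by rw [a3]; exact one_ne_zero) (by rw [b3]; exact one_ne_zero)
  have hyI : Iso h y := ⟨fun h0 => hyu (by rw [h0, hh.zero_left]), hyy⟩
  have hyA := (hZ _).1 hyZ
  obtain ⟨a, b, hx, h1, h2⟩ := mid77 hh hu hyI (fun h0 => hyu (hh.eq_zero_comm.1 h0))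
  obtain ⟨c, d, hz, h3, h4⟩ := mid77 hh hyI hv hyv
  exact ⟨_, y, _, hx, hyI, hz, hlin a b huA hyA, hyA, hlin c d hyA hvA, h1, h2, h3, h4⟩

private theorem step77 (hh : Herm h) {A : Submodule K V} {x y : V}
    (hx : Iso h x) (hy : Iso h y) (hxA : ∀ a ∈ A, h x a = 0) (hyA : ∀ a ∈ A, h y a = 0)
    (hxy : nm (h x y) = 1) : ∃ g ∈ Gr h, (∀ a ∈ A, g a = a) ∧ Eqv K y (g x) := by
  refine ⟨tv hh hx * tv hh hy, Subgroup.mul_mem _ (Subgroup.subset_closure (tv_mem_Tvs hh hx))
    (Subgroup.subset_closure (tv_mem_Tvs hh hy)), ?_, ?_⟩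
  · intro a ha
    have e1 : act h y a = a := by
      rw [act, hh.eq_zero_comm.1 (hyA a ha), zero_smul, add_zero]
    have e2 : act h x a = a := by
      rw [act, hh.eq_zero_comm.1 (hxA a ha), zero_smul, add_zero]
    rw [LinearEquiv.mul_apply, tv_apply, tv_apply, e1, e2]
  · refine ⟨h x y, hxy, ?_⟩
    rw [LinearEquiv.mul_apply, tv_apply, tv_apply, act, act, hh.add, hh.smul, hx.2, zero_add]
    have e1 : h x y * h y x = 1 := by
      rw [← hxy, nm, hh.symm]
    rw [e1, one_smul, add_assoc, add_comm (h x y • y) x, ← add_assoc, aav K, zero_add]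

omit [Finite K] [FiniteDimensional K V] [CharP K 2] in
private theorem comp77 {A : Submodule K V} {x y z : V}
    (h1 : ∃ g ∈ Gr h, (∀ a ∈ A, g a = a) ∧ Eqv K y (g x))
    (h2 : ∃ g ∈ Gr h, (∀ a ∈ A, g a = a) ∧ Eqv K z (g y)) :
    ∃ g ∈ Gr h, (∀ a ∈ A, g a = a) ∧ Eqv K z (g x) := by
  obtain ⟨g1, m1, f1, m, hm, e1⟩ := h1
  obtain ⟨g2, m2, f2, n, hn, e2⟩ := h2
  refine ⟨g2 * g1, Subgroup.mul_mem _ m2 m1, ?_, m * n, ?_, ?_⟩
  · intro a ha
    rw [LinearEquiv.mul_apply, f1 a ha, f2 a ha]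
  · rw [nm_mul, hm, hn, mul_one]
  · rw [LinearEquiv.mul_apply, e1, map_smul, e2, smul_smul]

theorem move (hh : Herm h) (hstar : ∃ x : K, star x ≠ x) {A : Submodule K V} {u v : V}
    (hu : Iso h u) (hv : Iso h v) (huA : ∀ a ∈ A, h u a = 0) (hvA : ∀ a ∈ A, h v a = 0)
    (hu' : u ∉ A) (hv' : v ∉ A) : ∃ g ∈ Gr h, (∀ a ∈ A, g a = a) ∧ Eqv K v (g u) := by
  obtain ⟨x, y, z, hx, hy, hz, hxA, hyA, hzA, h1, h2, h3, h4⟩ :=
    chain hh hstar hu hv huA hvA hu' hv'
  exact comp77 (comp77 (comp77 (step77 hh hu hx huA hxA h1) (step77 hh hx hy hxA hyA h2))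
    (step77 hh hy hz hyA hzA h3)) (step77 hh hz hv hzA hvA h4)

private theorem frames77 (hh : Herm h) (hstar : ∃ x : K, star x ≠ x) {j : ℕ} {u u' : Fin j → V}
    (hu : LinearIndependent K u) (hu' : LinearIndependent K u') (ht : ∀ i k, h (u i) (u k) = 0)
    (ht' : ∀ i k, h (u' i) (u' k) = 0) (k : ℕ) :
    k ≤ j → ∃ g ∈ Gr h, ∀ i : Fin j, (i : ℕ) < k → Eqv K (u' i) (g (u i)) := by
  induction k with
  | zero => exact fun _ => ⟨1, Subgroup.one_mem _, fun i hi => absurd hi (Nat.not_lt_zero _)⟩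
  | succ k ih =>
    intro hk
    obtain ⟨g, hg, hgi⟩ := ih (by omega)
    obtain ⟨κ, hκ⟩ : ∃ κ : Fin j, (κ : ℕ) = k := ⟨⟨k, by omega⟩, rfl⟩
    have hκs : κ ∉ {i : Fin j | (i : ℕ) < k} := fun hc => by
      have : (κ : ℕ) < k := hc
      omega
    obtain ⟨A, hA⟩ : ∃ A : Submodule K V, A = Submodule.span K (u' '' {i : Fin j | (i : ℕ) < k}) :=
      ⟨_, rfl⟩
    have hw : Iso h (g (u κ)) := by
      refine ⟨fun h0 => hu.ne_zero κ ?_, by rw [isom hh hg, ht]⟩
      exact (LinearEquiv.map_eq_zero_iff g).1 h0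
    have hv : Iso h (u' κ) := ⟨hu'.ne_zero κ, ht' κ κ⟩
    have hspan : ∀ p : V, (∀ i : Fin j, (i : ℕ) < k → h p (u' i) = 0) → ∀ a ∈ A, h p a = 0 := by
      intro p hp a ha
      rw [hA] at ha
      induction ha using Submodule.span_induction with
      | mem x hx =>
        obtain ⟨i, hi, rfl⟩ := hx
        exact hp i hi
      | zero => exact hh.zero_right p
      | add x y _ _ hx hy => rw [hh.add_right, hx, hy, add_zero]
      | smul c x _ hx => rw [hh.smul_right, hx, mul_zero]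
    have hwA : ∀ a ∈ A, h (g (u κ)) a = 0 := hspan _ fun i hi => by
      rw [← hh.zero_congr (Eqv.refl (g (u κ))) (hgi i hi), isom hh hg, ht]
    have hvA : ∀ a ∈ A, h (u' κ) a = 0 := hspan _ fun i _ => ht' κ i
    have hw' : g (u κ) ∉ A := by
      intro hc
      have h1 : A ≤ (Submodule.span K (u '' {i : Fin j | (i : ℕ) < k})).map
          (g : V →ₗ[K] V) := by
        rw [hA, Submodule.span_le]
        rintro _ ⟨i, hi, rfl⟩
        obtain ⟨m, hm, e⟩ := (hgi i hi).symm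
        exact ⟨m • u i, Submodule.smul_mem _ m (Submodule.subset_span ⟨i, hi, rfl⟩), by
          rw [e]; exact map_smul g m (u i)⟩
      obtain ⟨s, hs, hs2⟩ := h1 hc
      have h2 : s = u κ := g.injective hs2
      rw [h2] at hs
      exact hu.notMem_span_image hκs hs
    have hv' : u' κ ∉ A := by
      rw [hA]
      exact hu'.notMem_span_image hκs
    obtain ⟨g', hg', hfix, hmv⟩ := move hh hstar hw hv hwA hvA hw' hv'
    refine ⟨g' * g, Subgroup.mul_mem _ hg' hg, ?_⟩
    intro i hi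
    rw [LinearEquiv.mul_apply]
    by_cases hik : (i : ℕ) < k
    · obtain ⟨m, hm, e⟩ := hgi i hik
      refine ⟨m, hm, ?_⟩
      rw [e, map_smul, hfix (u' i) (by rw [hA]; exact Submodule.subset_span ⟨i, hik, rfl⟩)]
    · have h1 : i = κ := Fin.ext (by omega)
      rw [h1]
      exact hmv

theorem trans_frames (hh : Herm h) (hstar : ∃ x : K, star x ≠ x) {j : ℕ} {u u' : Fin j → V}
    (hu : LinearIndependent K u) (hu' : LinearIndependent K u') (ht : ∀ i k, h (u i) (u k) = 0)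
    (ht' : ∀ i k, h (u' i) (u' k) = 0) : ∃ g ∈ Gr h, ∀ i, Eqv K (u' i) (g (u i)) := by
  obtain ⟨g, hg, hgi⟩ := frames77 hh hstar hu hu' ht ht' j le_rfl
  exact ⟨g, hg, fun i => hgi i i.2⟩

end Pool.Agent.Helper81.EU
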