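import Pool.Agent.Helper81.EU.Ext
import Pool.Agent.Helper81.EU.Inv

/-!
# Block EU-OP: elements opposite to two given ones

`exists_opp`: `extend_ti` with `A = ⊥`, `exists_el`, `nd_range` and `opp_of_disj` (`Opp.symm`).
`exists_opp_not`: let `U₀ = range N`, `U₁ = range X`, `U₂ = range X'`.
`claim`: there is an isotropic `v` orthogonal to `U₂` and not orthogonal to `U₁` (`U₁ ≠ U₂`, both totally isotropic of
dimension `j`): if some `u` in `U₁` is not orthogonal to `U₂`, `h u b ≠ 0` with `b` in `U₂`, take `v = b`. Otherwise some `u` in `U₁` is not in `U₂`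
(dimensions), it is orthogonal to `U₂`, `exists_perp_not` gives `v`. So `h v b₁ ≠ 0` for some `b₁` in `U₁`. In the same way there are an
isotropic `v₀` orthogonal to `U₂` and `b₀` in `U₀` with `h v₀ b₀ ≠ 0`. `two_hyp` for `Z` the space of the vectors orthogonal to `U₂` gives an
isotropic `v` orthogonal to `U₂` and not orthogonal to `U₀`, `U₁`. `extend_ti` for `A = K v` (`j ≥ 1` because `U₁ ≠ U₂`; `Nd h (K v) U₀`)
gives `A'`, `exists_el` gives `P` with image `A'`; `Opp N P`, `Opp X P` as before; `v ≠ 0` is in `range P ∩ ker X'` (`ker_of`), so `¬ Opp X' P`.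
-/

set_option autoImplicit false
set_option linter.unusedSectionVars false

open LinearMap

namespace Pool.Agent.Helper81.EU

open Pool.Agent.Helper81.UT Pool.Agent.Helper2.EV

variable {K V : Type*} [Field K] [StarRing K] [AddCommGroup V] [Module K V] [CharP K 2] [Finite K]
  [FiniteDimensional K V] {h : V → V → K}

private theorem opp_of_nd53 (hh : Herm h) {j : ℕ} {N P : Module.End K V} (hN : N ∈ El h j)
    (hP : P ∈ El h j) (hn : Nd h (range P) (range N)) : Opp N P :=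
  (opp_of_disj hh hP hN ((nd_range hh hN).1 hn)).symm

theorem exists_opp (hh : Herm h) (hstar : ∃ x : K, star x ≠ x) {j : ℕ} {N X : Module.End K V}
    (hN : N ∈ El h j) (hX : X ∈ El h j) : ∃ P ∈ El h j, Opp N P ∧ Opp X P := by
  have hT : TI h (⊥ : Submodule K V) := by
    intro x hx y _
    rw [(Submodule.mem_bot K).1 hx, hh.zero_left]
  have hNd : ∀ U : Submodule K V, Nd h ⊥ U := fun U a ha _ => (Submodule.mem_bot K).1 ha
  obtain ⟨A', -, hT', hd', hn0, hn1⟩ := extend_ti hh hstar (ti_range hh hN) (ti_range hh hX)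
    hN.1.2 hX.1.2 hT (by rw [finrank_bot]; exact Nat.zero_le j) (hNd _) (hNd _)
  obtain ⟨P, hP, hr⟩ := exists_el hh hT' hd'
  subst hr
  exact ⟨P, hP, opp_of_nd53 hh hN hP hn0, opp_of_nd53 hh hX hP hn1⟩

private theorem claim53 (hh : Herm h) (hstar : ∃ x : K, star x ≠ x) {U₁ U₂ : Submodule K V}
    (h1 : TI h U₁) (h2 : TI h U₂) (hd : Module.finrank K U₁ = Module.finrank K U₂)
    (hne : U₂ ≠ U₁) :
    ∃ v, (∀ u ∈ U₂, h v u = 0) ∧ h v v = 0 ∧ ∃ b ∈ U₁, h v b ≠ 0 := by
  by_cases hc : ∃ u ∈ U₁, ∃ b ∈ U₂, h u b ≠ 0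
  · obtain ⟨u, hu, b, hb, hub⟩ := hc
    exact ⟨b, h2 b hb, h2 b hb b hb, u, hu, fun h0 => hub (hh.eq_zero_comm.1 h0)⟩
  · push Not at hc
    obtain ⟨u, hu, hu2⟩ : ∃ u ∈ U₁, u ∉ U₂ := by
      by_contra hcon
      push Not at hcon
      exact hne (Submodule.eq_of_le_of_finrank_eq hcon hd).symm
    obtain ⟨y, hy, hyy, hyu⟩ := exists_perp_not hh hstar (hc u hu) (h1 u hu u hu) hu2
    exact ⟨y, hy, hyy, u, hu, by rw [hyu]; exact one_ne_zero⟩

private theorem nd_span53 (hh : Herm h) {U : Submodule K V} {y b : V} (hb : b ∈ U)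
    (hyb : h y b ≠ 0) : Nd h (K ∙ y) U := by
  intro x hx hxU
  obtain ⟨c, rfl⟩ := Submodule.mem_span_singleton.1 hx
  have h1 := hxU b hb
  rw [hh.smul] at h1
  rw [(mul_eq_zero.1 h1).resolve_right hyb, zero_smul]

theorem exists_opp_not (hh : Herm h) (hstar : ∃ x : K, star x ≠ x) {j : ℕ}
    {N X X' : Module.End K V} (hN : N ∈ El h j) (hX : X ∈ El h j) (hX' : X' ∈ El h j)
    (h1 : range X' ≠ range N) (h2 : range X' ≠ range X) :
    ∃ P ∈ El h j, Opp N P ∧ Opp X P ∧ ¬ Opp X' P := by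
  obtain ⟨v₀, hv0, hv0', b₀, hb0, hvb0⟩ := claim53 hh hstar (ti_range hh hN) (ti_range hh hX')
    (by rw [hN.1.2, hX'.1.2]) h1
  obtain ⟨v₁, hv1, hv1', b₁, hb1, hvb1⟩ := claim53 hh hstar (ti_range hh hX) (ti_range hh hX')
    (by rw [hX.1.2, hX'.1.2]) h2
  let Z : Submodule K V :=
    { carrier := {z | ∀ a ∈ range X', h z a = 0}
      add_mem' := by
        intro x y hx hy a ha
        rw [hh.add, hx a ha, hy a ha, add_zero]
      zero_mem' := fun a _ => hh.zero_left a
      smul_mem' := by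
        intro c x hx a ha
        rw [hh.smul, hx a ha, mul_zero] }
  obtain ⟨y, hyZ, hyy, hy0, hy1⟩ := two_hyp hh (Z := Z) hv0 hv0' hv1 hv1' hvb0 hvb1
  have hyX : ∀ a ∈ range X', h y a = 0 := hyZ
  have hyne : y ≠ 0 := by
    rintro rfl
    exact hy0 (hh.zero_left b₀)
  have hT : TI h (K ∙ y) := by
    intro x hx x' hx'
    obtain ⟨c, rfl⟩ := Submodule.mem_span_singleton.1 hx
    obtain ⟨c', rfl⟩ := Submodule.mem_span_singleton.1 hx'
    rw [hh.smul, hh.smul_right, hyy, mul_zero, mul_zero]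
  have hd : Module.finrank K (K ∙ y) ≤ j := by
    rw [finrank_span_singleton hyne]
    rcases Nat.eq_zero_or_pos j with h0 | h0
    · exfalso
      apply h1
      have e1 := hN.1.2
      have e2 := hX'.1.2
      rw [h0] at e1 e2
      rw [Submodule.finrank_eq_zero.1 e1, Submodule.finrank_eq_zero.1 e2]
    · exact h0
  obtain ⟨A', hle, hT', hd', hn0, hn1⟩ := extend_ti hh hstar (ti_range hh hN) (ti_range hh hX)
    hN.1.2 hX.1.2 hT hd (nd_span53 hh hb0 hy0) (nd_span53 hh hb1 hy1)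
  obtain ⟨P, hP, hr⟩ := exists_el hh hT' hd'
  subst hr
  refine ⟨P, hP, opp_of_nd53 hh hN hP hn0, opp_of_nd53 hh hX hP hn1, ?_⟩
  intro ho
  apply hyne
  exact Submodule.disjoint_def.1 ho.1 y (hle (Submodule.mem_span_singleton_self y))
    (LinearMap.mem_ker.2 (ker_of hh hX' fun z => hyX _ ⟨z, rfl⟩))

end Pool.Agent.Helper81.EU
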