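import Pool.Agent.Helper81.EU.Spn

/-!
# Block EU-HR: the hermitian space `range N`

Let `Inv N M`. On the space `range N` of dimension `j` the form `(v, w) ↦ h (M v) w` is hermitian and nondegenerate: if
`h (M v) w = 0` for all `w = N z` then `h (N M v) z = 0` for all `z`, and `N M v = v`. Apply `span_iso` and `eigen` (for `eigen`: by
`span_range` for `S = {v | T v ∈ range N}` the map `T` restricts to `range N`).
`line_range`: if `p ≠ 0` then every isotropic `v` in `range N` is in the span of `p`, so `range N` is (`span_range`), but its dimension is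
`j ≥ 2`.
-/

set_option autoImplicit false
set_option linter.unusedSectionVars false

open LinearMap

namespace Pool.Agent.Helper81.EU

open Pool.Agent.Helper81.UT Pool.Agent.Helper2.EV

variable {K V : Type*} [Field K] [StarRing K] [AddCommGroup V] [Module K V] [CharP K 2] [Finite K]
  [FiniteDimensional K V] {h : V → V → K}

/-- The hermitian form on the range. -/
theorem rng_herm (hh : Herm h) {j : ℕ} {N M : Module.End K V} (hN : N ∈ El h j)
    (hM : M ∈ El h j) (hI : Inv N M) :
    Herm (fun v w : range N => h (M (v : V)) (w : V)) where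
  add x y z := by
    show h (M ((x : V) + (y : V))) (z : V) = h (M (x : V)) (z : V) + h (M (y : V)) (z : V)
    rw [map_add, hh.add]
  smul c x y := by
    show h (M (c • (x : V))) (y : V) = c * h (M (x : V)) (y : V)
    rw [map_smul, hh.smul]
  symm x y := by
    show star (h (M (x : V)) (y : V)) = h (M (y : V)) (x : V)
    rw [hh.symm, el_adj hM]
  nondeg x hx := by
    have h1 : N (M (x : V)) = 0 := by
      apply hh.nondeg
      intro z
      rw [el_adj hN]
      exact hx ⟨N z, ⟨z, rfl⟩⟩
    obtain ⟨z, hz⟩ := x.2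
    have h2 : N (M (N z)) = N z := LinearMap.congr_fun hI.1 z
    apply Subtype.ext
    show (x : V) = 0
    rw [← hz, ← h2, hz, h1]

theorem span_range (hh : Herm h) (hstar : ∃ x : K, star x ≠ x) {j : ℕ} (hj : 2 ≤ j)
    {N M : Module.End K V} (hN : N ∈ El h j) (hM : M ∈ El h j) (hI : Inv N M)
    (S : Submodule K V) (H : ∀ v ∈ range N, h (M v) v = 0 → v ∈ S) : range N ≤ S := by
  intro v hv
  have h1 := span_iso (rng_herm hh hN hM hI) hstar (by rw [hN.1.2]; exact hj)
    (S.comap (range N).subtype) (fun w hw => H w w.2 hw) ⟨v, hv⟩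
  exact h1

theorem eigen_range (hh : Herm h) (hstar : ∃ x : K, star x ≠ x) {j : ℕ} (hj : 2 ≤ j)
    {N M : Module.End K V} (hN : N ∈ El h j) (hM : M ∈ El h j) (hI : Inv N M)
    (T : Module.End K V) (H : ∀ v ∈ range N, h (M v) v = 0 → ∃ c : K, T v = c • v) :
    ∃ c : K, ∀ v ∈ range N, T v = c • v := by
  have h1 : range N ≤ (range N).comap T := by
    apply span_range hh hstar hj hN hM hI
    intro v hv hv'
    obtain ⟨c, hc⟩ := H v hv hv'
    show T v ∈ range N
    rw [hc]
    exact (range N).smul_mem c hv
  obtain ⟨c, hc⟩ := eigen (rng_herm hh hN hM hI) hstar (by rw [hN.1.2]; exact hj)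
    (T.restrict (p := range N) (q := range N) (fun v hv => h1 hv)) (by
      intro v hv
      obtain ⟨c, hc⟩ := H v v.2 hv
      exact ⟨c, Subtype.ext hc⟩)
  exact ⟨c, fun v hv => congrArg Subtype.val (hc ⟨v, hv⟩)⟩

theorem line_range (hh : Herm h) (hstar : ∃ x : K, star x ≠ x) {j : ℕ} (hj : 2 ≤ j)
    {N M : Module.End K V} (hN : N ∈ El h j) (hM : M ∈ El h j) (hI : Inv N M) (p : V)
    (H : ∀ v ∈ range N, h (M v) v = 0 → v ≠ 0 → ∃ c : K, p = c • v) : p = 0 := by
  by_contra hp
  have h1 : range N ≤ Submodule.span K {p} := by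
    apply span_range hh hstar hj hN hM hI
    intro v hv hv'
    by_cases hv0 : v = 0
    · rw [hv0]
      exact Submodule.zero_mem _
    · obtain ⟨c, hc⟩ := H v hv hv' hv0
      have hc0 : c ≠ 0 := by
        rintro rfl
        rw [zero_smul] at hc
        exact hp hc
      rw [Submodule.mem_span_singleton]
      exact ⟨c⁻¹, by rw [hc, smul_smul, inv_mul_cancel₀ hc0, one_smul]⟩
  have h2 := Submodule.finrank_mono h1
  have h3 : Module.finrank K (range N) = j := hN.1.2
  have h4 : Module.finrank K (Submodule.span K {p}) = 1 := finrank_span_singleton hp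
  omega

end Pool.Agent.Helper81.EU
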