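import Pool.Agent.Helper81.EU.Frame
import Pool.Agent.Helper81.EU.Chain
import Pool.Agent.Helper81.EU.Rng
import Pool.Agent.Helper81.EU.Opp

/-!
# Block EU-CJ: conjugacy and generation

`conj_gr`: frames `u` of `N`, `u'` of `M` (`frame`; totally isotropic by `el_perp`), `g` from `trans_frames`, `g (u i) = mᵢ • u' i`, `nm mᵢ = 1`:
`g (N x) = ∑ h x (u i) • g (u i) = ∑ h (g x) (g (u i)) • g (u i) = ∑ h (g x) (u' i) • u' i = M (g x)` (`isom`).
`gen`: it is enough that every transvection `t` of an isotropic `u ≠ 0` is in the closure (`Subgroup.closure_le`). There is an `M` in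
`El h j` with `Inv N M`: `exists_opp` (for `N`, `N`) gives `P` with `Opp N P`; `exists_inv` for `P`, `N` (`Opp P N`) gives `M` with
`Inv M N`. There is a `v ≠ 0` in `range N` with `h (M v) v = 0` (`span_range` with `S = ⊥`, `j ≥ 2`), `w = M v`, `N w = v`.
`trans_frames` for `j = 1` gives `g` in `Gr h` with `g v = m • u`, `nm m = 1`. `N₁ = g N g⁻¹` is in `El h j`, `w₁ = m⁻¹ • g w`: `N₁ w₁ = u`,
`h w₁ u = 0` (a multiple of `h w v = h (M v) v`). `N₂ = N₁ + rk hh u u` is in `El h j`: self adjoint, `N₂ N₂ = 0`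
(`N₁ u = 0`, `h (N₁ z) u = 0`), `N₂ = N₁ (1 + rk hh u w₁)` and `(1 + rk hh u w₁)² = 1` (`h w₁ u = 0`), so the rank is `j`.
`(1 + N₁) (1 + N₂) = 1 + rk hh u u` (`N₁ N₂ = 0`).
-/

set_option autoImplicit false
set_option linter.unusedSectionVars false

open LinearMap

namespace Pool.Agent.Helper81.EU

open Pool.Agent.Helper81.UT Pool.Agent.Helper2.EV

variable {K V : Type*} [Field K] [StarRing K] [AddCommGroup V] [Module K V] [CharP K 2] [Finite K]
  [FiniteDimensional K V] {h : V → V → K}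

/-- The conjugate of an element. -/
private theorem conj_el67 (hh : Herm h) {j : ℕ} {N : Module.End K V} (hN : N ∈ El h j)
    {g : V ≃ₗ[K] V} (hg : g ∈ Gr h) :
    ∃ N₁ ∈ El h j, ∀ x, N₁ (g x) = g (N x) := by
  have hgi : ∀ x y, h (g x) (g y) = h x y := isom hh hg
  have hgs : ∀ x y, h (g.symm x) y = h x (g y) := by
    intro x y
    rw [← hgi, LinearEquiv.apply_symm_apply]
  have hgs' : ∀ x y, h (g x) y = h x (g.symm y) := by
    intro x y
    rw [← hgi x, LinearEquiv.apply_symm_apply]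
  refine ⟨(g : V →ₗ[K] V) * N * (g.symm : V →ₗ[K] V), ⟨⟨?_, ?_⟩, ?_⟩, ?_⟩
  · ext x
    show g (N (g.symm (g (N (g.symm x))))) = 0
    rw [LinearEquiv.symm_apply_apply, el_sq' hN, map_zero]
  · have h1 : range ((g : V →ₗ[K] V) * N * (g.symm : V →ₗ[K] V)) = (range N).map (g : V →ₗ[K] V) := by
      ext y
      constructor
      · rintro ⟨x, rfl⟩
        exact ⟨N (g.symm x), ⟨g.symm x, rfl⟩, rfl⟩
      · rintro ⟨_, ⟨x, rfl⟩, rfl⟩
        refine ⟨g x, ?_⟩
        show g (N (g.symm (g x))) = g (N x)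
        rw [LinearEquiv.symm_apply_apply]
    rw [h1, LinearEquiv.finrank_map_eq]
    exact hN.1.2
  · intro x y
    show h (g (N (g.symm x))) y = h x (g (N (g.symm y)))
    rw [hgs', el_adj hN, hgs]
  · intro x
    show g (N (g.symm (g x))) = g (N x)
    rw [LinearEquiv.symm_apply_apply]

theorem conj_gr (hh : Herm h) (hstar : ∃ x : K, star x ≠ x) {j : ℕ} {N M : Module.End K V}
    (hN : N ∈ El h j) (hM : M ∈ El h j) : ∃ g ∈ Gr h, ∀ x, g (N x) = M (g x) := by
  obtain ⟨u, hu, hur, hNu⟩ := frame hh hstar hN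
  obtain ⟨u', hu', hur', hMu'⟩ := frame hh hstar hM
  have ht : ∀ i k, h (u i) (u k) = 0 := by
    intro i k
    obtain ⟨a, ha⟩ := hur i
    obtain ⟨b, hb⟩ := hur k
    rw [← ha, ← hb]
    exact el_perp hh hN a b
  have ht' : ∀ i k, h (u' i) (u' k) = 0 := by
    intro i k
    obtain ⟨a, ha⟩ := hur' i
    obtain ⟨b, hb⟩ := hur' k
    rw [← ha, ← hb]
    exact el_perp hh hM a b
  obtain ⟨g, hg, hgu⟩ := trans_frames hh hstar hu hu' ht ht'
  refine ⟨g, hg, fun x => ?_⟩
  rw [hNu x, hMu' (g x), map_sum]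
  refine Finset.sum_congr rfl fun i _ => ?_
  obtain ⟨m, hm, hgm⟩ := hgu i
  rw [map_smul, ← isom hh hg x (u i), hgm, hh.smul_right, smul_smul]
  congr 1
  rw [nm] at hm
  linear_combination (h (g x) (u' i)) * hm

theorem gen (hh : Herm h) (hstar : ∃ x : K, star x ≠ x) {j : ℕ} (hj : 2 ≤ j)
    {N : Module.End K V} (hN : N ∈ El h j) :
    Gr h ≤ Subgroup.closure {g : V ≃ₗ[K] V | ∃ N₁ ∈ El h j, ∀ x, g x = x + N₁ x} := by
  unfold Gr
  rw [Subgroup.closure_le]
  rintro t ⟨u, hu0, hu, htu⟩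
  -- an element inverse to `N`
  obtain ⟨P, hP, hNP, -⟩ := exists_opp hh hstar hN hN
  obtain ⟨M, hM, -, hI'⟩ := exists_inv hh hP hN hNP.symm
  have hI : Inv N M := hI'.symm
  obtain ⟨v, hvr, hv, hv0⟩ : ∃ v ∈ range N, h (M v) v = 0 ∧ v ≠ 0 := by
    by_contra hcon
    push Not at hcon
    have h1 := span_range hh hstar hj hN hM hI ⊥ (fun v hv hv2 => by
      rw [Submodule.mem_bot]
      exact hcon v hv hv2)
    have h2 : Module.finrank K (range N) = 0 := by
      rw [le_bot_iff.1 h1, finrank_bot]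
    rw [hN.1.2] at h2
    omega
  have hNMv : N (M v) = v := by
    obtain ⟨z, rfl⟩ := hvr
    exact LinearMap.congr_fun hI.1 z
  have hvv : h v v = 0 := by
    obtain ⟨z, rfl⟩ := hvr
    exact el_perp hh hN z z
  -- move `v` to `u`
  obtain ⟨g, hg, hgv⟩ := trans_frames hh hstar (j := 1) (u := fun _ => v) (u' := fun _ => u)
    (linearIndependent_unique_iff.2 hv0) (linearIndependent_unique_iff.2 hu0)
    (fun _ _ => hvv) (fun _ _ => hu)
  obtain ⟨m, hm, hgm⟩ := hgv 0
  have hm0 : m ≠ 0 := by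
    rintro rfl
    rw [nm_zero] at hm
    exact zero_ne_one hm
  obtain ⟨N₁, hN₁, hN₁g⟩ := conj_el67 hh hN hg
  obtain ⟨w, hw⟩ : ∃ w, w = m⁻¹ • g (M v) := ⟨_, rfl⟩
  have hgv' : g v = m • u := hgm
  have hNw : N₁ w = u := by
    rw [hw, map_smul, hN₁g, hNMv, hgv', smul_smul, inv_mul_cancel₀ hm0, one_smul]
  have hwu : h w u = 0 := by
    have h1 : u = m⁻¹ • g v := by rw [hgv', smul_smul, inv_mul_cancel₀ hm0, one_smul]
    rw [hw, h1, hh.smul, hh.smul_right, isom hh hg, hv, mul_zero, mul_zero]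
  have hNu : N₁ u = 0 := by rw [← hNw, el_sq' hN₁]
  have hN₁u : ∀ z, h (N₁ z) u = 0 := fun z => by rw [el_adj hN₁, hNu, hh.zero_right]
  -- the second element
  have hE : (1 + rk hh u w) * (1 + rk hh u w) = 1 := by
    apply one_add_sq
    ext z
    show h (h z u • w) u • w = 0
    rw [hh.smul, hwu, mul_zero, zero_smul]
  have hN₂e : N₁ + rk hh u u = N₁ * (1 + rk hh u w) := by
    ext z
    show N₁ z + h z u • u = N₁ (z + h z u • w)
    rw [map_add, map_smul, hNw]
  have hN₂ : N₁ + rk hh u u ∈ El h j := by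
    refine ⟨⟨?_, ?_⟩, hN₁.2.add hh (rk_sa hh u)⟩
    · ext z
      show N₁ (N₁ z + h z u • u) + h (N₁ z + h z u • u) u • u = 0
      rw [map_add, map_smul, el_sq' hN₁, hNu, hh.add, hN₁u, hh.smul, hu]
      simp
    · have hr : range (N₁ + rk hh u u) = range N₁ := by
        apply le_antisymm
        · rw [hN₂e]
          rintro _ ⟨z, rfl⟩
          exact ⟨(1 + rk hh u w) z, rfl⟩
        · rintro _ ⟨z, rfl⟩
          refine ⟨(1 + rk hh u w) z, ?_⟩
          rw [hN₂e]
          show N₁ ((1 + rk hh u w) ((1 + rk hh u w) z)) = N₁ z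
          rw [show (1 + rk hh u w) ((1 + rk hh u w) z) = z from LinearMap.congr_fun hE z]
      rw [hr]
      exact hN₁.1.2
  have ht : t = ie (el_sq hN₁) * ie (el_sq hN₂) := by
    ext x
    show t x = ie (el_sq hN₁) (ie (el_sq hN₂) x)
    rw [htu, ie_apply, ie_apply]
    show x + h x u • u = x + (N₁ x + h x u • u) + N₁ (x + (N₁ x + h x u • u))
    rw [map_add, map_add, map_smul, el_sq' hN₁, hNu, smul_zero, add_zero, add_zero]
    have h1 : x + (N₁ x + h x u • u) + N₁ x = (x + h x u • u) + (N₁ x + N₁ x) := by abel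
    rw [h1, aav K, add_zero]
  rw [ht]
  exact mul_mem (Subgroup.subset_closure ⟨N₁, hN₁, fun x => ie_apply _ x⟩)
    (Subgroup.subset_closure ⟨_, hN₂, fun x => ie_apply _ x⟩)

end Pool.Agent.Helper81.EU
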