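import Pool.Agent.Helper81.EU.Cfg

/-!
# Block EU-WP: elements opposite to `N`, the part outside the two images

Let `v ≠ 0` be in `range N`, `X = rk hh v x + rk hh x v`, `E = 1 + X` (`h v v = h x x = h v x = 0`, `N x = 0`), `E z = z + h z v • x + h z x • v`.
`P = E M₀ E` is in `El h j` (`conj_mem`, `rk_two_sq`, `rk_two_sa`) and `Inv N P` (`N X = 0 = X N`, `E E = 1`). `M₀ x = 0` (`Cfg.kMM`).
`M P = 0`: `M E (M₀ z) = M M₀ z + h (M₀ z) v • M x + h (M₀ z) x • M v = 0` (`h (M₀ z) x = h z (M₀ x) = 0`); the adjoint is `P M = 0`. So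
`M' P = P M'` (`Cfg.com`), `M' E M₀ E = E M₀ E M'`, and (`E E = 1`) `E M' E M₀ = M₀ E M' E` `(*)`.
The left side of `(*)` at `z`: `E M₀ z = M₀ z + h z (M₀ v) • x`, so by `theta_zero`-free computation
`E M' E M₀ z = E M' M₀ z + h z (M₀ v) • l`, `l = E (M' x) = M' x + h (M' x) v • x + h (M' x) x • v`.
Apply `M R` to both sides of `(*)`, use `M R M₀ = M₀` on the right side; here the hypothesis `ht : M' * M₀ = 0` kills the term
`E M' M₀ z`, so: `h z (M₀ v) • l = M₀ (E (M' (E z)))` for all `z`. Choose `z` with `h z (M₀ v) = 1` (`M₀ v ≠ 0`, `N M₀ v = v`): `l` is in the image of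
`M₀`. As `E M' E M₀` is self adjoint (`(*)`), `h z (M₀ v) * h l z' = h z (M₀ v) ...`: for all `z, z'`
`h z (M₀ v) * h l z' = star (h z' (M₀ v)) * h z l`; choose `z'` with `h z' (M₀ v) = 1`: `h z l = h z (M₀ v) * h l z'` for all `z`, so `l` is a multiple of
`M₀ v`. `M R l = M R M' x` (`R x = 0`: `Cfg.kRN`; `R v = 0`), `M R M₀ v = M₀ v` (`Cfg.MR`). So `M R M' x` is a multiple of `M₀ v`, and
`N (M (R (M' x)))` is a multiple of `v`, for every `v ≠ 0` in `range N`. By `line_range` (for `N`, `M₀`) `N M R M' x = 0`; `M R M' x = μ • M₀ v`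
gives `μ • v = 0`, `μ = 0` (there is a `v ≠ 0` as `j ≥ 2`), so `M R M' x = 0`, `R M' x = R M (R M' x) = 0` and
`M' x = M' R M' x = 0`.
-/

set_option autoImplicit false
set_option linter.unusedSectionVars false

open LinearMap

namespace Pool.Agent.Helper81.EU

open Pool.Agent.Helper81.UT Pool.Agent.Helper2.EV

variable {K V : Type*} [Field K] [StarRing K] [AddCommGroup V] [Module K V] [CharP K 2] [Finite K]
  [FiniteDimensional K V] {h : V → V → K} {j : ℕ} {N R M M' M₀ : Module.End K V}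

theorem w_part_key (hh : Herm h) (c : Cfg h j N R M M' M₀) (ht : M' * M₀ = 0) {x : V}
    (h1 : N x = 0) (h2 : M x = 0) (h3 : h x x = 0) {v : V} (hv : v ∈ range N) (hv0 : v ≠ 0) :
    ∃ a : K, M (R (M' x)) = a • M₀ v := by
  have hNv : N v = 0 := by
    obtain ⟨z, rfl⟩ := hv
    exact el_sq' c.hN z
  have hvv : h v v = 0 := by
    obtain ⟨z, rfl⟩ := hv
    exact el_perp hh c.hN z z
  have hvx : h v x = 0 := by
    obtain ⟨z, rfl⟩ := hv
    rw [el_adj c.hN, h1, hh.zero_right]
  have hM₀x : M₀ x = 0 := by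
    have : x ∈ ker M₀ := by
      rw [c.kMM hh]
      exact h2
    exact this
  have hXX := rk_two_sq hh hvv h3 hvx
  have hXS := rk_two_sa hh v x
  set E : Module.End K V := 1 + (rk hh v x + rk hh x v) with hE
  have hEz : ∀ z, E z = z + (h z v • x + h z x • v) := fun z => rfl
  have hEE : E * E = 1 := one_add_sq hXX
  have hP : E * M₀ * E ∈ El h j := conj_mem hh c.hM₀ hXX hXS
  have hESA : ∀ y z, h (E y) z = h y (E z) := by
    intro y z
    have h4 := hXS y z
    show h (y + (rk hh v x + rk hh x v) y) z = h y (z + (rk hh v x + rk hh x v) z)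
    rw [hh.add, hh.add_right, h4]
  have hNE : N * E = N := by
    ext z
    show N (E z) = N z
    rw [hEz, map_add, map_add, map_smul, map_smul, h1, hNv, smul_zero, smul_zero, add_zero,
      add_zero]
  have hEN : E * N = N := by
    ext z
    show E (N z) = N z
    have h4 : h (N z) v = 0 := by
      rw [el_adj c.hN, hNv, hh.zero_right]
    have h5 : h (N z) x = 0 := by
      rw [el_adj c.hN, h1, hh.zero_right]
    rw [hEz, h4, h5, zero_smul, zero_smul, add_zero, add_zero]
  have hInv : Inv N (E * M₀ * E) := by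
    constructor
    · calc N * (E * M₀ * E) * N = (N * E) * M₀ * (E * N) := by noncomm_ring
        _ = N := by rw [hNE, hEN]; exact c.iNM.1
    · calc E * M₀ * E * N * (E * M₀ * E) = E * M₀ * (E * N) * E * M₀ * E := by noncomm_ring
        _ = E * M₀ * N * E * M₀ * E := by rw [hEN]
        _ = E * M₀ * (N * E) * M₀ * E := by noncomm_ring
        _ = E * (M₀ * N * M₀) * E := by rw [hNE]; noncomm_ring
        _ = E * M₀ * E := by rw [c.iNM.2]
  have hM₀zx : ∀ z, h (M₀ z) x = 0 := by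
    intro z
    rw [el_adj c.hM₀, hM₀x, hh.zero_right]
  have hEM₀ : ∀ z, E (M₀ z) = M₀ z + h z (M₀ v) • x := by
    intro z
    rw [hEz, hM₀zx, zero_smul, add_zero, el_adj c.hM₀]
  have hMP : ∀ z, M ((E * M₀ * E) z) = 0 := by
    intro z
    show M (E (M₀ (E z))) = 0
    have h4 : M (M₀ (E z)) = 0 := LinearMap.congr_fun c.MM₀.1 _
    rw [hEM₀, map_add, map_smul, h4, h2, smul_zero, add_zero]
  have hPM : ∀ z, (E * M₀ * E) (M z) = 0 := by
    intro z
    apply hh.nondeg
    intro y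
    rw [el_adj hP, el_adj c.hM, hMP, hh.zero_right]
  have hcomm : M' * (E * M₀ * E) = E * M₀ * E * M' := by
    apply c.com _ hP hInv
    ext z
    show M ((E * M₀ * E) z) = (E * M₀ * E) (M z)
    rw [hMP, hPM]
  have hstar' : E * M' * E * M₀ = M₀ * E * M' * E := by
    have h4 : E * (M' * (E * M₀ * E)) * E = E * (E * M₀ * E * M') * E := by rw [hcomm]
    have h5 : E * (M' * (E * M₀ * E)) * E = E * M' * E * M₀ * (E * E) := by noncomm_ring
    have h6 : E * (E * M₀ * E * M') * E = (E * E) * (M₀ * E * M' * E) := by noncomm_ring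
    rw [h5, h6, hEE, mul_one, one_mul] at h4
    exact h4
  have hG : ∀ z, E (M' (E (M₀ z))) = h z (M₀ v) • E (M' x) := by
    intro z
    have h4 : M' (M₀ z) = 0 := LinearMap.congr_fun ht z
    rw [hEM₀, map_add, map_smul, h4, zero_add, map_smul]
  have hG' : ∀ z, M₀ (E (M' (E z))) = h z (M₀ v) • E (M' x) := by
    intro z
    rw [← hG]
    exact (LinearMap.congr_fun hstar' z).symm
  -- a vector with product one
  have hM₀v : M₀ v ≠ 0 := by
    intro h4
    apply hv0
    rw [← c.NM₀ hv, h4, map_zero]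
  obtain ⟨z₁, hz₁⟩ : ∃ z₁, h z₁ (M₀ v) = 1 := by
    by_contra hc
    push Not at hc
    apply hM₀v
    apply hh.nondeg
    intro y
    rw [← hh.eq_zero_comm]
    by_contra hy
    apply hc ((h y (M₀ v))⁻¹ • y)
    rw [hh.smul, inv_mul_cancel₀ hy]
  have hl : E (M' x) = star (h (E (M' x)) z₁) • M₀ v := by
    apply ext_left hh
    intro z
    have h4 : h (M₀ (E (M' (E z₁)))) z = h z₁ (E (M' (E (M₀ z)))) := by
      rw [el_adj c.hM₀, hESA, el_adj c.hM', hESA]
    rw [hG', hG, hz₁, one_smul, hh.smul_right, hh.symm] at h4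
    have h5 : h z₁ (E (M' x)) = star (h (E (M' x)) z₁) := (hh.symm _ _).symm
    rw [h4, h5, hh.smul, mul_comm]
  refine ⟨star (h (E (M' x)) z₁), ?_⟩
  have hRx : R x = 0 := by
    have : x ∈ ker R := by
      rw [c.kRN hh]
      exact h1
    exact this
  have hRv : R v = 0 := by
    rw [← c.hRN] at hv
    obtain ⟨z, rfl⟩ := hv
    exact el_sq' c.hR z
  have h4 : M (R (E (M' x))) = M (R (M' x)) := by
    simp only [hEz, map_add, map_smul, hRx, hRv, smul_zero, map_zero, add_zero]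
  have h5 : M (R (M₀ v)) = M₀ v := by
    apply c.MR
    rw [← c.hMM]
    exact ⟨v, rfl⟩
  rw [← h4]
  calc M (R (E (M' x))) = M (R (star (h (E (M' x)) z₁) • M₀ v)) := by rw [← hl]
    _ = star (h (E (M' x)) z₁) • M₀ v := by rw [map_smul, map_smul, h5]

theorem w_part (hh : Herm h) (hstar : ∃ x : K, star x ≠ x) (hj : 2 ≤ j)
    (c : Cfg h j N R M M' M₀) (ht : M' * M₀ = 0) {x : V} (h1 : N x = 0) (h2 : M x = 0)
    (h3 : h x x = 0) : M' x = 0 := by
  have h4 : N (M (R (M' x))) = 0 := by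
    apply line_range hh hstar hj c.hN c.hM₀ c.iNM
    intro v hv _ hv0
    obtain ⟨a, ha⟩ := w_part_key hh c ht h1 h2 h3 hv hv0
    exact ⟨a, by rw [ha, map_smul, c.NM₀ hv]⟩
  have h5 : M (R (M' x)) = 0 := by
    have h6 : range N ≠ ⊥ := by
      intro h6
      have h7 := c.hN.1.2
      rw [h6, finrank_bot] at h7
      omega
    obtain ⟨v, hv, hv0⟩ := (Submodule.ne_bot_iff _).1 h6
    obtain ⟨a, ha⟩ := w_part_key hh c ht h1 h2 h3 hv hv0
    rw [ha, map_smul, c.NM₀ hv] at h4
    rcases smul_eq_zero.1 h4 with h7 | h7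
    · rw [ha, h7, zero_smul]
    · exact absurd h7 hv0
  have h6 : R (M (R (M' x))) = R (M' x) := LinearMap.congr_fun c.iRM.1 _
  have h7 : M' (R (M' x)) = M' x := LinearMap.congr_fun c.iRM'.2 _
  rw [← h7, ← h6, h5, map_zero, map_zero]

end Pool.Agent.Helper81.EU
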