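import Pool.Agent.Helper81.EU.Th
import Pool.Agent.Helper81.EU.Wp

/-!
# Block EU-S4: elements opposite to `N`, conclusion

By `theta_zero` `M' M₀ = M₀ M' = 0`, so `M M' = 0` (`Cfg.kMM`). Let `v` be in `range N`, `y = M' v - M v`. `M y = 0`; `R y = v - v = 0`.
`h y y = - h (M' v) (M v) - h (M v) (M' v) = 0` (`h (M' v) (M v) = h (M (M' v)) v = 0`). For `x` with `R x = M x = 0`, `h x x = 0`:
`h x y = h (M' x) v - h (M x) v = 0` by `w_part` (`Cfg.kRN`: `N x = 0`). So `y = 0` (`w_zero` for `R`, `M`). So `M' R = M R`, and the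
adjoint is `R M' = R M`. `M' = M' R M' = (M' R) M = M R M = M`, where `M' R M' = M' (R M') = M' R M`.
-/

set_option autoImplicit false
set_option linter.unusedSectionVars false

open LinearMap

namespace Pool.Agent.Helper81.EU

open Pool.Agent.Helper81.UT Pool.Agent.Helper2.EV

variable {K V : Type*} [Field K] [StarRing K] [AddCommGroup V] [Module K V] [CharP K 2] [Finite K]
  [FiniteDimensional K V] {h : V → V → K} {j : ℕ} {N R M M' M₀ : Module.End K V}

theorem step_four (hh : Herm h) (hstar : ∃ x : K, star x ≠ x) (hj : 2 ≤ j)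
    (c : Cfg h j N R M M' M₀) : M' = M := by
  have ht := theta_zero hh hstar c
  have hMM' : ∀ z, M (M' z) = 0 := by
    intro z
    have h1 : M' z ∈ ker M₀ := by
      rw [LinearMap.mem_ker]
      have h2 : M₀ * M' = 0 := by rw [← c.comm, ht]
      exact LinearMap.congr_fun h2 z
    rw [c.kMM hh, LinearMap.mem_ker] at h1
    exact h1
  have key : ∀ v ∈ range N, M' v = M v := by
    intro v hv
    have hcross : h (M' v) (M v) = 0 := by
      rw [← el_adj c.hM, hMM', hh.zero_left]
    have hcross' : h (M v) (M' v) = 0 := by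
      rw [el_adj c.hM, hMM', hh.zero_right]
    have hy : M' v + M v = 0 := by
      refine w_zero hh hstar c.hR c.hM c.iRM ?_ ?_ ?_ ?_
      · rw [map_add, c.RM' hv, c.RM hv]
        exact aav K v
      · rw [map_add, hMM', el_sq' c.hM, add_zero]
      · rw [hh.add, hh.add_right, hh.add_right, el_perp hh c.hM', el_perp hh c.hM, hcross,
          hcross']
        simp
      · intro x h1 h2 h3
        have h4 : N x = 0 := by
          have h5 : x ∈ ker R := h1
          rw [c.kRN hh] at h5
          exact h5
        have h6 := w_part hh hstar hj c ht h4 h2 h3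
        rw [hh.add_right, ← el_adj c.hM', ← el_adj c.hM, h6, h2, hh.zero_left, add_zero]
    have h7 : M' v + M v = M v + M v := by rw [hy, aav K (M v)]
    exact add_right_cancel h7
  have hR : ∀ z, M' (R z) = M (R z) := by
    intro z
    refine key _ ?_
    rw [← c.hRN]
    exact ⟨z, rfl⟩
  have hR' : ∀ z, R (M' z) = R (M z) := by
    intro z
    refine ext_left hh fun w => ?_
    rw [el_adj c.hR, el_adj c.hM', hR, el_adj c.hR, el_adj c.hM]
  ext x
  have e1 : M' (R (M' x)) = M' x := LinearMap.congr_fun c.iRM'.2 x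
  have e2 : M (R (M x)) = M x := LinearMap.congr_fun c.iRM.2 x
  rw [← e1, hR, hR', e2]

end Pool.Agent.Helper81.EU
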