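import Pool.Agent.Helper81.EU.Fam2

/-!
# Block EU-S2: elements inverse to `N`, conclusion

By `eigen_range` for `T = N * M' * M` (`fam2`) there is a `c` with `N (M' (M v)) = c • v` for `v` in `range N`. `star c = c`: there is a
`v ≠ 0` in `range N` with `h (M v) v = 0` (`span_range` for `S = ⊥`), use `fam2` for it. So `N M' M N = c • N`, and the adjoint of it
is `N M M' N = c • N` (`ext_left`). By `fam2'` `M' v = M v + N (M (M' v)) = M v + c • v` for `v` in `range N` with `h (M v) v = 0`
(`v = N a`), so for all `v` in `range N` (`span_range`): `M' N = M N + c • N`; the adjoint is `N M' = N M + c • N`. So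
`M' = M' N M' = (M N + c • N) M' = M (N M') + c • N M' = M + c • M N + c • N M + c * c • N = (1 + c • N) M (1 + c • N)` (`M N M = M`,
`N M N = N`).
-/

set_option autoImplicit false
set_option linter.unusedSectionVars false

open LinearMap

namespace Pool.Agent.Helper81.EU

open Pool.Agent.Helper81.UT Pool.Agent.Helper2.EV

variable {K V : Type*} [Field K] [StarRing K] [AddCommGroup V] [Module K V] [CharP K 2] [Finite K]
  [FiniteDimensional K V] {h : V → V → K}

theorem step_two (hh : Herm h) (hstar : ∃ x : K, star x ≠ x) {j : ℕ} (hj : 2 ≤ j)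
    {N M M' : Module.End K V} (hN : N ∈ El h j) (hM : M ∈ El h j) (hM' : M' ∈ El h j)
    (hI : Inv N M) (hI' : Inv N M')
    (H : ∀ R ∈ El h j, N * R = R * N → O3 R M → O3 R M') :
    ∃ lam : K, M' = (1 + lam • N) * M * (1 + lam • N) := by
  obtain ⟨c, hc⟩ := eigen_range hh hstar hj hN hM hI (N * M' * M) (by
    intro v hv hv'
    obtain ⟨c, -, hc⟩ := fam2 hh hN hM hM' hI hI' H hv hv'
    exact ⟨c, hc⟩)
  have hc' : ∀ v ∈ range N, N (M' (M v)) = c • v := hc
  -- the scalar is fixed
  have hcs : star c = c := by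
    by_contra hne
    have h1 : range N ≤ ⊥ := by
      refine span_range hh hstar hj hN hM hI ⊥ ?_
      intro v hv hv'
      rw [Submodule.mem_bot]
      by_contra hv0
      obtain ⟨c', hs, h2⟩ := fam2 hh hN hM hM' hI hI' H hv hv'
      rw [hc' v hv] at h2
      have h3 : c = c' := smul_left_injective K hv0 h2
      exact hne (by rw [h3, hs])
    have h2 : Module.finrank K (range N) = j := hN.1.2
    rw [le_bot_iff.1 h1, finrank_bot] at h2
    omega
  have e1 : ∀ x, N (M' (M (N x))) = c • N x := fun x => hc' _ ⟨x, rfl⟩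
  have e2 : ∀ x, N (M (M' (N x))) = c • N x := by
    intro x
    apply ext_left hh
    intro y
    rw [el_adj hN, el_adj hM, el_adj hM', el_adj hN, e1, hh.smul_right, hcs, hh.smul, el_adj hN]
  have e3 : range N ≤ ker (M' - (M + c • (1 : Module.End K V))) := by
    refine span_range hh hstar hj hN hM hI _ ?_
    intro v hv hv'
    rw [LinearMap.mem_ker]
    have h1 := fam2' hh hstar hj hN hM hM' hI hI' H hv hv'
    obtain ⟨a, rfl⟩ := hv
    rw [e2] at h1
    show M' (N a) - (M (N a) + c • N a) = 0
    rw [h1, sub_self]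
  have e4 : ∀ x, M' (N x) = M (N x) + c • N x := by
    intro x
    have h1 : M' (N x) - (M (N x) + c • N x) = 0 := e3 ⟨x, rfl⟩
    exact sub_eq_zero.1 h1
  have e5 : ∀ x, N (M' x) = N (M x) + c • N x := by
    intro x
    apply ext_left hh
    intro y
    rw [el_adj hN, el_adj hM', e4, hh.add_right, hh.smul_right, hcs, hh.add, hh.smul, el_adj hN,
      el_adj hM, el_adj hN]
  refine ⟨c, ?_⟩
  ext x
  have h1 : M' (N (M' x)) = M' x := LinearMap.congr_fun hI'.2 x
  have h2 : M (N (M x)) = M x := LinearMap.congr_fun hI.2 x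
  have h3 : N (M (N x)) = N x := LinearMap.congr_fun hI.1 x
  show M' x = M (x + c • N x) + c • N (M (x + c • N x))
  rw [← h1, e4, e5]
  simp only [map_add, map_smul, h2, h3]

end Pool.Agent.Helper81.EU
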