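import Pool.Agent.Helper81.EU.Fix
import Pool.Agent.Helper81.EU.Two
import Pool.Agent.Helper81.EU.Four
import Pool.Agent.Helper81.EU.Opp
import Pool.Agent.Helper2.EV.StD
import Pool.Agent.Helper2.EV.Core

/-!
# Project EU: a map which fixes the elements commuting with `N` is the conjugation by `1 + N`
-/

set_option autoImplicit false
set_option linter.unusedSectionVars false

open LinearMap

namespace Pool.Agent.Helper81.EU

open Pool.Agent.Helper81.UT Pool.Agent.Helper2.EV

variable {K V : Type*} [Field K] [StarRing K] [AddCommGroup V] [Module K V] [CharP K 2] [Finite K]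
  [FiniteDimensional K V] {h : V → V → K}

theorem Pres.inj {j : ℕ} {ψ : Module.End K V → Module.End K V} (hψ : Pres h j ψ)
    {X Y : Module.End K V} (hX : X ∈ El h j) (hY : Y ∈ El h j) (hXY : ψ X = ψ Y) : X = Y := by
  have h1 := (hψ.ord X hX Y hY 1).1 (by rw [pow_one, hXY, one_add_sq (el_sq (hψ.mem Y hY))])
  rw [pow_one] at h1
  have h2 : (1 + X) * ((1 + X) * (1 + Y)) = 1 + X := by rw [h1, mul_one]
  rw [← mul_assoc, one_add_sq (el_sq hX), one_mul] at h2
  exact (add_left_cancel h2).symm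

theorem Pres.comm_iff {j : ℕ} {ψ : Module.End K V → Module.End K V} (hψ : Pres h j ψ)
    {X Y : Module.End K V} (hX : X ∈ El h j) (hY : Y ∈ El h j) :
    ψ X * ψ Y = ψ Y * ψ X ↔ X * Y = Y * X := by
  rw [← two (el_sq hX) (el_sq hY), ← two (el_sq (hψ.mem X hX)) (el_sq (hψ.mem Y hY))]
  exact hψ.ord X hX Y hY 2

theorem Pres.o3_iff {j : ℕ} {ψ : Module.End K V → Module.End K V} (hψ : Pres h j ψ)
    {X Y : Module.End K V} (hX : X ∈ El h j) (hY : Y ∈ El h j) :
    O3 (ψ X) (ψ Y) ↔ O3 X Y := by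
  rw [← three' (el_sq hX) (el_sq hY), ← three' (el_sq (hψ.mem X hX)) (el_sq (hψ.mem Y hY))]
  exact hψ.ord X hX Y hY 3

theorem Pres.nil_iff {j : ℕ} {ψ : Module.End K V → Module.End K V} (hψ : Pres h j ψ)
    {X Y : Module.End K V} (hX : X ∈ El h j) (hY : Y ∈ El h j) :
    IsNilpotent (ψ X * ψ Y) ↔ IsNilpotent (X * Y) := by
  rw [← pow_two' (el_sq hX) (el_sq hY), ← pow_two' (el_sq (hψ.mem X hX)) (el_sq (hψ.mem Y hY))]
  exact exists_congr fun k => hψ.ord X hX Y hY (2 ^ k)

theorem el_ne_zero {j : ℕ} (hj : 1 ≤ j) {N : Module.End K V} (hN : N ∈ El h j) : N ≠ 0 :=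
  ne_zero_of_mem hj hN.1

theorem sa_range_ker (hh : Herm h) {j : ℕ} {N P A : Module.End K V} (hP : P ∈ El h j)
    (hA : A ∈ El h j) (hr : range A = range P) (ho : Opp N P) : Opp N A :=
  opp_congr ho (ker_eq_of_range hh hA hP hr) hr

/-- The main step. -/
theorem core (hh : Herm h) (hstar : ∃ x : K, star x ≠ x) {j : ℕ} (hj : 2 ≤ j)
    {ψ : Module.End K V → Module.End K V} (hψ : Pres h j ψ) {N : Module.End K V}
    (hN : N ∈ El h j) (hfix : ∀ R ∈ El h j, N * R = R * N → ψ R = R)
    (hS : ∀ M ∈ El h j, Inv N M → ((1 + M) * (1 + ψ M)) ^ 3 = 1 ∧ ψ M ≠ M) :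
    ∀ M ∈ El h j, ψ M = (1 + N) * M * (1 + N) := by
  have hj1 : 1 ≤ j := by omega
  have hN1 := one_add_sq (el_sq hN)
  have hcomm : ∀ {φ : Module.End K V → Module.End K V},
      (∀ R ∈ El h j, N * R = R * N → φ R = R) → ∀ R ∈ El h j, range R = range N → φ R = R := by
    intro φ hφ R hR hr
    obtain ⟨h1, h2⟩ := mul_of_range hN.1 hR.1 hr
    exact hφ R hR (h1.trans h2.symm)
  -- elements inverse to `N`
  have hA : ∀ M ∈ El h j, Inv N M → ψ M = (1 + N) * M * (1 + N) := by
    intro M hM hI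
    have hI' : Inv N (ψ M) := inv_fix hh hj1 hψ hN hM (hcomm hfix) hI
    obtain ⟨lam, hlam⟩ := step_two hh hstar hj hN hM (hψ.mem M hM) hI hI'
      (fun R hR hc h3 => by
        have h4 := (hψ.o3_iff hR hM).2 h3
        rwa [hfix R hR hc] at h4)
    have h1 := hS M hM hI
    rw [hlam] at h1
    have hl := step_three (el_sq hN) (el_sq hM) hI (el_ne_zero hj1 hN) h1.1 h1.2
    rw [hlam, hl, one_smul]
  -- the map `Q`
  let Q : Module.End K V → Module.End K V := fun M => (1 + N) * ψ M * (1 + N)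
  have hQ : Pres h j Q :=
    { mem := fun M hM => conj_mem hh (hψ.mem M hM) (el_sq hN) hN.2
      ord := fun X hX Y hY m => by
        rw [← hψ.ord X hX Y hY m]
        exact conj_pow (el_sq hN) (ψ X) (ψ Y) m }
  have hQfix : ∀ R ∈ El h j, N * R = R * N → Q R = R := by
    intro R hR hc
    show (1 + N) * ψ R * (1 + N) = R
    rw [hfix R hR hc]
    have h1 : (1 + N) * R = R * (1 + N) := by rw [add_mul, mul_add, hc, one_mul, mul_one]
    rw [h1, mul_assoc, hN1, mul_one]
  have hQinv : ∀ M ∈ El h j, Inv N M → Q M = M := by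
    intro M hM hI
    show (1 + N) * ψ M * (1 + N) = M
    rw [hA M hM hI, conj_conj (el_sq hN)]
  -- elements opposite to `N`
  have hB : ∀ M ∈ El h j, Opp N M → Q M = M := by
    intro M hM ho
    obtain ⟨R, hR, hRr, hRI⟩ := exists_inv hh hN hM ho
    obtain ⟨M₀, hM₀, hM₀r, hM₀I⟩ := exists_inv hh hM hN ho.symm
    have hRI' : Inv R (Q M) := inv_fix hh hj1 hQ hR hM
      (fun R' hR' hr => hcomm hQfix R' hR' (hr.trans hRr)) hRI
    exact step_four hh hstar hj
      { hN := hN
        hR := hR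
        hM := hM
        hM' := hQ.mem M hM
        hM₀ := hM₀
        hRN := hRr
        hMM := hM₀r
        iRM := hRI
        iRM' := hRI'
        iNM := hM₀I.symm
        com := fun P hP hI hc => by
          have h1 := (hQ.comm_iff hM hP).2 hc
          rwa [hQinv P hP hI] at h1
        nil := fun P hP hI hc => by
          have h1 := (hQ.nil_iff hM hP).2 hc
          rwa [hQinv P hP hI] at h1 }
  -- all elements
  have key : ∀ M ∈ El h j, Q M = M := by
    intro M hM
    have hQM := hQ.mem M hM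
    by_cases h1 : range (Q M) = range N
    · exact hQ.inj hQM hM (hcomm hQfix (Q M) hQM h1)
    have hP : ∀ P ∈ El h j, Opp N P → Opp M P →
        ∃ R ∈ El h j, range R = range P ∧ Inv R M ∧ Inv R (Q M) := by
      intro P hP hNP hMP
      obtain ⟨R, hR, hRr, hRI⟩ := exists_inv hh hP hM hMP.symm
      refine ⟨R, hR, hRr, hRI, inv_fix hh hj1 hQ hR hM (fun R' hR' hr => ?_) hRI⟩
      exact hB R' hR' (sa_range_ker hh hP hR' (hr.trans hRr) hNP)
    by_cases h2 : range (Q M) = range M
    · obtain ⟨P, hP1, hNP, hMP⟩ := exists_opp hh hstar hN hM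
      obtain ⟨R, hR, -, hRI, hRI'⟩ := hP P hP1 hNP hMP
      exact inv_unique hh hM hQM hR.2 h2 hRI.2 hRI'.2
    · obtain ⟨P, hP1, hNP, hMP, hno⟩ := exists_opp_not hh hstar hN hM hQM h1 h2
      obtain ⟨R, hR, hRr, hRI, hRI'⟩ := hP P hP1 hNP hMP
      exact absurd (sa_range_ker hh hR hP1 hRr.symm hRI'.opp.symm) hno
  intro M hM
  have h3 := conj_conj (el_sq hN) (ψ M)
  have h4 : (1 + N) * Q M * (1 + N) = ψ M := h3
  rw [key M hM] at h4
  exact h4.symm

/-- Permutations of `El h j` which preserve the orders of products respect conjugation. -/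
theorem conj_perm (hh : Herm h) (hstar : ∃ x : K, star x ≠ x) {j : ℕ} (hj : 2 ≤ j)
    {T T' : Module.End K V → Module.End K V} (hT : Pres h j T) (hT' : Pres h j T')
    (hTT' : ∀ X ∈ El h j, T (T' X) = X) (hT'T : ∀ X ∈ El h j, T' (T X) = X)
    {N M : Module.End K V} (hN : N ∈ El h j) (hM : M ∈ El h j) :
    T ((1 + N) * M * (1 + N)) = (1 + T N) * T M * (1 + T N) := by
  have hj1 : 1 ≤ j := by omega
  have hN0 := hT.mem N hN
  have hk : ∀ {X : Module.End K V}, X ∈ El h j → (1 + N) * X * (1 + N) ∈ El h j := fun hX =>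
    conj_mem hh hX (el_sq hN) hN.2
  let ψ : Module.End K V → Module.End K V := fun X => T ((1 + N) * T' X * (1 + N))
  have hψ : Pres h j ψ :=
    { mem := fun X hX => hT.mem _ (hk (hT'.mem X hX))
      ord := fun X hX Y hY m => by
        show ((1 + T ((1 + N) * T' X * (1 + N))) * (1 + T ((1 + N) * T' Y * (1 + N)))) ^ m = 1 ↔ _
        rw [hT.ord _ (hk (hT'.mem X hX)) _ (hk (hT'.mem Y hY)) m,
          conj_pow (el_sq hN), hT'.ord X hX Y hY m] }
  have hfix : ∀ R ∈ El h j, T N * R = R * T N → ψ R = R := by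
    intro R hR hc
    have h1 := (hT'.comm_iff hN0 hR).2 hc
    rw [hT'T N hN] at h1
    have h2 : (1 + N) * T' R * (1 + N) = T' R := by
      have h3 : (1 + N) * T' R = T' R * (1 + N) := by rw [add_mul, mul_add, h1, one_mul, mul_one]
      rw [h3, mul_assoc, one_add_sq (el_sq hN), mul_one]
    show T ((1 + N) * T' R * (1 + N)) = R
    rw [h2, hTT' R hR]
  have hS : ∀ X ∈ El h j, Inv (T N) X → ((1 + X) * (1 + ψ X)) ^ 3 = 1 ∧ ψ X ≠ X := by
    intro X hX hI
    have hY := hT'.mem X hX
    have hkY := hk hY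
    constructor
    · have h1 := three_of_inv (el_sq hX) (el_sq hN0) hI.symm
      rw [← hT'.ord X hX (T N) hN0 3, hT'T N hN] at h1
      have h2 : (1 + T' X) * (1 + (1 + N) * T' X * (1 + N)) =
          (1 + T' X) * (1 + N) * ((1 + T' X) * (1 + N)) := by
        have h3 : 1 + (1 + N) * T' X * (1 + N) = (1 + N) * (1 + T' X) * (1 + N) := by
          rw [mul_add (1 + N) 1 (T' X), mul_one, add_mul (1 + N) ((1 + N) * T' X) (1 + N),
            one_add_sq (el_sq hN)]
        rw [h3]
        simp only [mul_assoc]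
      have h4 : ((1 + T' X) * (1 + (1 + N) * T' X * (1 + N))) ^ 3 = 1 := by
        rw [h2, ← pow_two, ← pow_mul, mul_comm 2 3, pow_mul, h1, one_pow]
      rw [← hT.ord (T' X) hY _ hkY 3, hTT' X hX] at h4
      exact h4
    · intro h1
      have h2 : T ((1 + N) * T' X * (1 + N)) = T (T' X) := by
        rw [hTT' X hX]
        exact h1
      have h3 := hT.inj hkY hY h2
      have h4 : N * T' X = T' X * N := by
        have h5 : (1 + N) * T' X = T' X * (1 + N) := by
          calc (1 + N) * T' X = (1 + N) * T' X * ((1 + N) * (1 + N)) := by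
                rw [one_add_sq (el_sq hN), mul_one]
            _ = (1 + N) * T' X * (1 + N) * (1 + N) := by simp only [mul_assoc]
            _ = T' X * (1 + N) := by rw [h3]
        rw [add_mul, mul_add, one_mul, mul_one] at h5
        exact add_left_cancel h5
      rw [← hT.comm_iff hN hY, hTT' X hX] at h4
      apply el_ne_zero hj1 hN0
      calc T N = T N * X * T N := hI.1.symm
        _ = X * (T N * T N) := by rw [h4, mul_assoc]
        _ = 0 := by rw [el_sq hN0, mul_zero]
  have h5 := core hh hstar hj hψ hN0 hfix hS (T M) (hT.mem M hM)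
  have h6 : ψ (T M) = T ((1 + N) * M * (1 + N)) := by
    show T ((1 + N) * T' (T M) * (1 + N)) = _
    rw [hT'T M hM]
  rw [← h6, h5]

end Pool.Agent.Helper81.EU
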