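import Pool.Agent.Helper81.UT.Pair
import Pool.Agent.Helper2.EV.Ord
import Pool.Agent.Helper2.EV.OrdB

/-!
# Project EU (MP_0d9fdb_al): all involutions of `PSU(n, 2^k)`

`K` is a finite field of characteristic two with a non trivial involution `star`, `h` a nondegenerate
hermitian form on `V` (`Herm h`, project UT). `SA h A`: `A` is self adjoint. `El h j` is the set of the self
adjoint square zero endomorphisms of rank `j`; `1 + N` is then a unitary involution. `rk hh u v` is
`z ↦ h z u • v`. `Pres h j ψ`: the map `ψ` preserves `El h j` and the orders of all products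
`(1 + N) (1 + M)`. `O3 N M` says `((1 + N) (1 + M))³ = 1`, see `three'` in `Exch`.
-/

set_option autoImplicit false
set_option linter.unusedSectionVars false

open LinearMap

namespace Pool.Agent.Helper81.EU

open Pool.Agent.Helper81.UT Pool.Agent.Helper2.EV

variable {K V : Type*} [Field K] [StarRing K] [AddCommGroup V] [Module K V] {h : V → V → K}

/-- Self adjoint endomorphisms. -/
def SA (h : V → V → K) (A : Module.End K V) : Prop := ∀ x y, h (A x) y = h x (A y)

/-- Self adjoint square zero endomorphisms of rank `j`. -/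
def El (h : V → V → K) (j : ℕ) : Set (Module.End K V) := {N | N ∈ Sq K V j ∧ SA h N}

/-- The endomorphism `z ↦ h z u • v`. -/
def rk (hh : Herm h) (u v : V) : Module.End K V where
  toFun z := h z u • v
  map_add' x y := by rw [hh.add, add_smul]
  map_smul' c x := by rw [hh.smul, RingHom.id_apply, mul_smul]

theorem rk_apply (hh : Herm h) (u v z : V) : rk hh u v z = h z u • v := rfl

/-- `ψ` preserves `El h j` and the orders of products. -/
structure Pres (h : V → V → K) (j : ℕ) (ψ : Module.End K V → Module.End K V) : Prop where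
  mem : ∀ N ∈ El h j, ψ N ∈ El h j
  ord : ∀ N ∈ El h j, ∀ M ∈ El h j, ∀ m : ℕ,
    ((1 + ψ N) * (1 + ψ M)) ^ m = 1 ↔ ((1 + N) * (1 + M)) ^ m = 1

/-- The order of `(1 + N) (1 + M)` divides three. -/
def O3 (N M : Module.End K V) : Prop := N * M * (N * M) = N * M ∧ N * M * N + N = M * N * M + M

/-! ### Basic facts -/

/-- Two vectors with the same products are equal. -/
theorem ext_left (hh : Herm h) {x y : V} (H : ∀ z, h x z = h y z) : x = y := by
  have h1 : ∀ z, h (x + (-1 : K) • y) z = 0 := by
    intro z
    rw [hh.add, hh.smul, H z]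
    ring
  have h2 := hh.nondeg _ h1
  have h3 : x = x + (-1 : K) • y + y := by module
  rw [h3, h2, zero_add]

theorem el_sq {j : ℕ} {N : Module.End K V} (hN : N ∈ El h j) : N * N = 0 := hN.1.1

theorem el_sq' {j : ℕ} {N : Module.End K V} (hN : N ∈ El h j) (x : V) : N (N x) = 0 :=
  LinearMap.congr_fun hN.1.1 x

theorem el_adj {j : ℕ} {N : Module.End K V} (hN : N ∈ El h j) (x y : V) : h (N x) y = h x (N y) :=
  hN.2 x y

/-- The image is totally isotropic. -/
theorem el_perp (hh : Herm h) {j : ℕ} {N : Module.End K V} (hN : N ∈ El h j) (x y : V) :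
    h (N x) (N y) = 0 := by
  rw [el_adj hN, el_sq' hN, hh.zero_right]

/-- The kernel is orthogonal to the image. -/
theorem el_perp' (hh : Herm h) {j : ℕ} {N : Module.End K V} (hN : N ∈ El h j) {x : V}
    (hx : N x = 0) (y : V) : h x (N y) = 0 := by
  rw [← el_adj hN, hx, hh.zero_left]

/-- A vector orthogonal to the image is in the kernel. -/
theorem ker_of (hh : Herm h) {j : ℕ} {N : Module.End K V} (hN : N ∈ El h j) {x : V}
    (hx : ∀ y, h x (N y) = 0) : N x = 0 := by
  apply hh.nondeg
  intro y
  rw [el_adj hN, hx]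

/-- Elements of the same image have the same kernel. -/
theorem ker_eq_of_range (hh : Herm h) {j : ℕ} {N M : Module.End K V} (hN : N ∈ El h j)
    (hM : M ∈ El h j) (hr : range N = range M) : ker N = ker M := by
  have key : ∀ {A B : Module.End K V}, A ∈ El h j → B ∈ El h j → range A = range B →
      ker A ≤ ker B := by
    intro A B hA hB hAB x hx
    rw [LinearMap.mem_ker] at hx ⊢
    apply ker_of hh hB
    intro y
    have h1 : B y ∈ range A := by
      rw [hAB]
      exact ⟨y, rfl⟩
    obtain ⟨z, hz⟩ := h1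
    rw [← hz]
    exact el_perp' hh hA hx z
  exact le_antisymm (key hN hM hr) (key hM hN hr.symm)

/-- Composites of self adjoint endomorphisms. -/
theorem SA.conj {A B : Module.End K V} (hA : SA h A) (hB : SA h B) : SA h (A * B * A) := by
  intro x y
  show h (A (B (A x))) y = h x (A (B (A y)))
  rw [hA, hB, hA]

theorem SA.add (hh : Herm h) {A B : Module.End K V} (hA : SA h A) (hB : SA h B) :
    SA h (A + B) := by
  intro x y
  rw [LinearMap.add_apply, LinearMap.add_apply, hh.add, hh.add_right, hA, hB]

/-- Characteristic two. -/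
theorem aa [CharP K 2] (A : Module.End K V) : A + A = 0 := by
  ext x
  have : (2 : K) = 0 := CharP.cast_eq_zero K 2
  show A x + A x = 0
  rw [← two_smul K, this, zero_smul]

variable (K) in
theorem aav [CharP K 2] (x : V) : x + x = 0 := by
  have : (2 : K) = 0 := CharP.cast_eq_zero K 2
  have h1 : (2 : K) • x = 0 := by rw [this, zero_smul]
  rwa [two_smul] at h1

/-- `1 + u u*` for an isotropic vector `u`. -/
theorem rk_sq (hh : Herm h) {u : V} (hu : h u u = 0) : rk hh u u * rk hh u u = 0 := by
  ext z
  show h (h z u • u) u • u = 0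
  rw [hh.smul, hu, mul_zero, zero_smul]

theorem rk_sa (hh : Herm h) (u : V) : SA h (rk hh u u) := by
  intro x y
  rw [rk_apply, rk_apply, hh.smul, hh.smul_right, hh.symm, mul_comm]

/-- `u v* + v u*` for orthogonal isotropic vectors. -/
theorem rk_two_sq (hh : Herm h) {u v : V} (hu : h u u = 0) (hv : h v v = 0) (huv : h u v = 0) :
    (rk hh u v + rk hh v u) * (rk hh u v + rk hh v u) = 0 := by
  have hvu : h v u = 0 := hh.eq_zero_comm.1 huv
  ext z
  show h (h z u • v + h z v • u) u • v + h (h z u • v + h z v • u) v • u = 0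
  rw [hh.add, hh.add, hh.smul, hh.smul, hh.smul, hh.smul, hu, hv, huv, hvu]
  simp

theorem rk_two_sa (hh : Herm h) (u v : V) : SA h (rk hh u v + rk hh v u) := by
  intro x y
  rw [LinearMap.add_apply, LinearMap.add_apply, rk_apply, rk_apply, rk_apply, rk_apply, hh.add,
    hh.add_right, hh.smul, hh.smul, hh.smul_right, hh.smul_right, hh.symm, hh.symm]
  ring

theorem one_add_sq [CharP K 2] {T : Module.End K V} (hT : T * T = 0) : (1 + T) * (1 + T) = 1 := by
  have h1 : (1 + T) * (1 + T) = 1 + (T + T) + T * T := by noncomm_ring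
  rw [h1, aa, hT, add_zero, add_zero]

/-- Conjugation of `N` by the involution `1 + T`. -/
theorem conj_mem [CharP K 2] (hh : Herm h) {j : ℕ} {N T : Module.End K V} (hN : N ∈ El h j)
    (hT : T * T = 0) (hT' : SA h T) : (1 + T) * N * (1 + T) ∈ El h j := by
  have h1 := one_add_sq hT
  have hA : SA h (1 + T) := by
    intro x y
    show h (x + T x) y = h x (y + T y)
    rw [hh.add, hh.add_right, hT']
  refine ⟨⟨?_, ?_⟩, hA.conj hN.2⟩
  · have h2 : (1 + T) * N * (1 + T) * ((1 + T) * N * (1 + T)) =
        (1 + T) * N * ((1 + T) * (1 + T)) * N * (1 + T) := by noncomm_ring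
    rw [h2, h1, mul_one, mul_assoc (1 + T) N N, el_sq hN, mul_zero, zero_mul]
  · let e : V ≃ₗ[K] V := LinearEquiv.ofLinearMap (1 + T) (1 + T) h1 h1
    have h2 : range ((1 + T) * N * (1 + T)) = (range N).map (e : V →ₗ[K] V) := by
      ext y
      constructor
      · rintro ⟨x, rfl⟩
        exact ⟨N ((1 + T) x), ⟨_, rfl⟩, rfl⟩
      · rintro ⟨_, ⟨x, rfl⟩, rfl⟩
        refine ⟨(1 + T) x, ?_⟩
        show (1 + T) (N ((1 + T) ((1 + T) x))) = (1 + T) (N x)
        have : (1 + T) ((1 + T) x) = x := LinearMap.congr_fun h1 x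
        rw [this]
    rw [h2, LinearEquiv.finrank_map_eq]
    exact hN.1.2

end Pool.Agent.Helper81.EU
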