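import Pool.Agent.Helper81.EU.OrdT

/-!
# Block EU-XC: the exchange lemma

Everything in `End V`, characteristic two (`aa : A + A = 0`).
`exchange`: let `E = R M R + R = M R M + M ≠ 0`. `R M ≠ 0` (otherwise `R M R = 0`, `M R M = 0`, `R = M`). Choose `y = R M y₀ ≠ 0`
(so `R M y = y`) and `x = E x₀ ≠ 0`. `x` and `y` are in the image of `R`, `x` is in the image of `M`: `R x = R y = M x = 0`,
`h x x = h x y = h y y = 0`, `h x (M y) = 0`. `y` is not a multiple of `x` (`R M x = 0`). Let `c = h y (M y)` (`star c = c`),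
`R' z = R z + h z y • x + h z x • y + (c * h z x) • x`.
`R'` is self adjoint; `R' R' = 0` (`R' z` is in the image of `R`, is killed by `R` and orthogonal to `x`, `y`). With
`B z = h z (M y) • x`, `B' z = h z x • M y` (`B B = B' B' = 0`) `R' = (1 + B) R (1 + B')` (`h (R z) (M y) = h z (R M y) = h z y`), so
`R'` has the rank of `R`, and `range R' ≤ range R`, so `range R' = range R`. `R' ≠ R`: choose `z` with `h z x ≠ 0`.
`R' M z = R M z + h z (M y) • x` (`h (M z) x = 0`), so `(R' M)² = R' M` (`h (R M z) (M y) = h z (M R M y) = h z (M y)`), `R' M y = y + c x`,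
`R' M R' z = R M R z + h z x • y + h z y • x + (c * h z x) • x` (`h (R' z) (M y) = h z (R' M y)`), so `R' M R' + R' = R M R + R = E`, and
`M R' M = M R M` (`M x = 0`), so `M R' M + M = E`.
-/

set_option autoImplicit false
set_option linter.unusedSectionVars false

open LinearMap

namespace Pool.Agent.Helper81.EU

open Pool.Agent.Helper81.UT Pool.Agent.Helper2.EV

variable {K V : Type*} [Field K] [StarRing K] [AddCommGroup V] [Module K V] [CharP K 2]
  {h : V → V → K}

theorem exchange [FiniteDimensional K V] (hh : Herm h) {j : ℕ} {R M : Module.End K V}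
    (hR : R ∈ El h j) (hM : M ∈ El h j) (h3 : O3 R M) (hne : R ≠ M) (hn : R * M * R ≠ R) :
    ∃ R' ∈ El h j, range R' = range R ∧ R' ≠ R ∧ O3 R' M := by
  obtain ⟨h31, h32⟩ := h3
  have h31' : ∀ z, R (M (R (M z))) = R (M z) := fun z => LinearMap.congr_fun h31 z
  have h32' : ∀ z, R (M (R z)) + R z = M (R (M z)) + M z := fun z => LinearMap.congr_fun h32 z
  -- the product is not zero
  have hRM : R * M ≠ 0 := by
    intro h0
    apply hne
    have e1 : R * M * R = 0 := by rw [h0, zero_mul]
    have e2 : M * R * M = 0 := by rw [mul_assoc, h0, mul_zero]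
    rw [e1, e2, zero_add, zero_add] at h32
    exact h32
  obtain ⟨y₀, hy₀⟩ : ∃ y₀, R (M y₀) ≠ 0 := by
    by_contra hc
    push Not at hc
    exact hRM (LinearMap.ext hc)
  obtain ⟨y, hy⟩ : ∃ y, y = R (M y₀) := ⟨_, rfl⟩
  have hy0 : y ≠ 0 := hy ▸ hy₀
  have hRMy : R (M y) = y := by rw [hy, h31']
  have hE : R * M * R + R ≠ 0 := by
    intro h0
    apply hn
    have e1 : R * M * R + R + R = R := by rw [h0, zero_add]
    rwa [add_assoc, aa, add_zero] at e1
  obtain ⟨x₀, hx₀⟩ : ∃ x₀, R (M (R x₀)) + R x₀ ≠ 0 := by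
    by_contra hc
    push Not at hc
    exact hE (LinearMap.ext hc)
  obtain ⟨x, hx⟩ : ∃ x, x = R (M (R x₀)) + R x₀ := ⟨_, rfl⟩
  have hx0 : x ≠ 0 := hx ▸ hx₀
  have hxR : x = R (M (R x₀) + x₀) := by rw [hx, map_add]
  have hxM : x = M (R (M x₀) + x₀) := by rw [hx, h32', map_add]
  have hyR : y = R (M y) := hRMy.symm
  have hRx : R x = 0 := by rw [hxR, el_sq' hR]
  have hRy : R y = 0 := by rw [hyR, el_sq' hR]
  have hMx : M x = 0 := by rw [hxM, el_sq' hM]
  have hxx : h x x = 0 := by
    conv_lhs => rw [hxR]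
    exact el_perp hh hR _ _
  have hyy : h y y = 0 := by
    conv_lhs => rw [hyR]
    exact el_perp hh hR _ _
  have hxy : h x y = 0 := by
    conv_lhs => rw [hyR, hxR]
    exact el_perp hh hR _ _
  have hyx : h y x = 0 := hh.eq_zero_comm.1 hxy
  have hxMy : h x (M y) = 0 := by rw [← el_adj hM, hMx, hh.zero_left]
  have hMyx : h (M y) x = 0 := hh.eq_zero_comm.1 hxMy
  have hind : ∀ k : K, y ≠ k • x := by
    intro k hk
    apply hy0
    rw [← hRMy, hk, map_smul, hMx, smul_zero, map_zero]
  obtain ⟨c, hc⟩ : ∃ c, c = h y (M y) := ⟨_, rfl⟩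
  have hcs : star c = c := by rw [hc, hh.symm, el_adj hM]
  obtain ⟨R', hR'⟩ : ∃ R' : Module.End K V, R' = R + rk hh y x + rk hh x y + c • rk hh x x :=
    ⟨_, rfl⟩
  have hR'z : ∀ z, R' z = R z + h z y • x + h z x • y + (c * h z x) • x := by
    intro z
    rw [hR']
    show R z + h z y • x + h z x • y + c • (h z x • x) = _
    rw [smul_smul]
  -- the form
  have hSA : SA h R' := by
    intro z w
    rw [hR'z, hR'z, hh.add, hh.add, hh.add, hh.add_right, hh.add_right, hh.add_right, hh.smul,
      hh.smul, hh.smul, hh.smul_right, hh.smul_right, hh.smul_right, hh.symm, star_mul, hh.symm,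
      hcs, el_adj hR]
    ring
  have hxR' : ∀ z, h (R z) x = 0 := fun z => by rw [el_adj hR, hRx, hh.zero_right]
  have hyR' : ∀ z, h (R z) y = 0 := fun z => by rw [el_adj hR, hRy, hh.zero_right]
  have hR'x : ∀ z, h (R' z) x = 0 := by
    intro z
    rw [hR'z, hh.add, hh.add, hh.add, hh.smul, hh.smul, hh.smul, hxx, hyx, hxR']
    ring
  have hR'y : ∀ z, h (R' z) y = 0 := by
    intro z
    rw [hR'z, hh.add, hh.add, hh.add, hh.smul, hh.smul, hh.smul, hxy, hyy, hyR']
    ring
  have hRR' : ∀ z, R (R' z) = 0 := by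
    intro z
    rw [hR'z, map_add, map_add, map_add, map_smul, map_smul, map_smul, hRx, hRy, el_sq' hR]
    simp
  have hsq : R' * R' = 0 := by
    ext z
    show R' (R' z) = 0
    rw [hR'z, hR'x, hR'y, hRR']
    simp
  -- the range
  have hle : range R' ≤ range R := by
    rintro _ ⟨z, rfl⟩
    rw [hR'z]
    have e1 : x ∈ range R := ⟨_, hxR.symm⟩
    have e2 : y ∈ range R := ⟨_, hRMy⟩
    exact (range R).add_mem ((range R).add_mem ((range R).add_mem ⟨z, rfl⟩
      ((range R).smul_mem _ e1)) ((range R).smul_mem _ e2)) ((range R).smul_mem _ e1)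
  have hB : rk hh (M y) x * rk hh (M y) x = 0 := by
    ext z
    show h (h z (M y) • x) (M y) • x = 0
    rw [hh.smul, hxMy, mul_zero, zero_smul]
  have hB' : rk hh x (M y) * rk hh x (M y) = 0 := by
    ext z
    show h (h z x • M y) x • M y = 0
    rw [hh.smul, hMyx, mul_zero, zero_smul]
  have hfac : R' = (1 + rk hh (M y) x) * R * (1 + rk hh x (M y)) := by
    ext z
    show R' z = R (z + h z x • M y) + h (R (z + h z x • M y)) (M y) • x
    rw [hR'z, map_add, map_smul, hRMy, hh.add, hh.smul, ← hc, el_adj hR, hRMy]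
    module
  have hrank : Module.finrank K (range R') = Module.finrank K (range R) := by
    have b1 := one_add_sq hB
    have b2 := one_add_sq hB'
    let e : V ≃ₗ[K] V := LinearEquiv.ofLinearMap (1 + rk hh (M y) x) (1 + rk hh (M y) x) b1 b1
    have h2 : range R' = (range R).map (e : V →ₗ[K] V) := by
      rw [hfac]
      ext w
      constructor
      · rintro ⟨z, rfl⟩
        exact ⟨R ((1 + rk hh x (M y)) z), ⟨_, rfl⟩, rfl⟩
      · rintro ⟨_, ⟨z, rfl⟩, rfl⟩
        refine ⟨(1 + rk hh x (M y)) z, ?_⟩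
        show (1 + rk hh (M y) x) (R ((1 + rk hh x (M y)) ((1 + rk hh x (M y)) z))) =
          (1 + rk hh (M y) x) (R z)
        have : (1 + rk hh x (M y)) ((1 + rk hh x (M y)) z) = z := LinearMap.congr_fun b2 z
        rw [this]
    rw [h2, LinearEquiv.finrank_map_eq]
  have hrange : range R' = range R := Submodule.eq_of_le_of_finrank_eq hle hrank
  have hmem : R' ∈ El h j := ⟨⟨hsq, by rw [hrank]; exact hR.1.2⟩, hSA⟩
  -- order three
  have hMx' : ∀ z, h (M z) x = 0 := fun z => by rw [el_adj hM, hMx, hh.zero_right]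
  have hR'M : ∀ z, R' (M z) = R (M z) + h z (M y) • x := by
    intro z
    rw [hR'z, hMx', el_adj hM]
    simp
  have hMR'M : ∀ z, M (R' (M z)) = M (R (M z)) := by
    intro z
    rw [hR'M, map_add, map_smul, hMx, smul_zero, add_zero]
  have hR'MR' : ∀ z, R' (M (R' z)) = R (M (R z)) + h z x • y + h z y • x + (c * h z x) • x := by
    intro z
    have e1 : h (R' z) (M y) = h z y + c * h z x := by
      rw [hSA, hR'M, hRMy, ← hc, hh.add_right, hh.smul_right, hcs]
    have e2 : R (M (R' z)) = R (M (R z)) + h z x • y := by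
      simp only [hR'z, map_add, map_smul, hMx, hRMy, smul_zero, add_zero]
    rw [hR'M, e1, e2]
    module
  refine ⟨R', hmem, hrange, ?_, ?_, ?_⟩
  · intro he
    obtain ⟨z, hz⟩ : ∃ z, h z x ≠ 0 := by
      by_contra hcon
      push Not at hcon
      apply hx0
      apply hh.nondeg
      intro z
      exact hh.eq_zero_comm.1 (hcon z)
    have e1 := hR'z z
    rw [he] at e1
    apply hind ((h z x)⁻¹ * -(h z y + c * h z x))
    have e2 : h z x • y = (-(h z y + c * h z x)) • x := by
      have e3 : R z + h z y • x + h z x • y + (c * h z x) • x - R z = 0 := by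
        rw [← e1, sub_self]
      have e4 : h z x • y - (-(h z y + c * h z x)) • x =
          R z + h z y • x + h z x • y + (c * h z x) • x - R z := by module
      rw [← sub_eq_zero, e4, e3]
    rw [mul_smul, ← e2, smul_smul, inv_mul_cancel₀ hz, one_smul]
  · ext z
    show R' (M (R' (M z))) = R' (M z)
    have e1 : h (R' (M z)) (M y) = h z (M y) := by
      rw [hR'M, hh.add, hh.smul, hxMy, mul_zero, add_zero, el_adj hR, hRMy, el_adj hM]
    rw [hR'M (R' (M z)), e1, hR'M, map_add, map_add, map_smul, map_smul, hMx, map_zero, smul_zero,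
      add_zero, h31']
  · ext z
    show R' (M (R' z)) + R' z = M (R' (M z)) + M z
    rw [hMR'M, ← h32', hR'MR', hR'z]
    have e1 := aav K (h z x • y)
    have e2 := aav K (h z y • x)
    have e3 := aav K ((c * h z x) • x)
    have e4 : R (M (R z)) + h z x • y + h z y • x + (c * h z x) • x +
        (R z + h z y • x + h z x • y + (c * h z x) • x) = R (M (R z)) + R z +
        (h z x • y + h z x • y) + (h z y • x + h z y • x) +
        ((c * h z x) • x + (c * h z x) • x) := by abel
    rw [e4, e1, e2, e3, add_zero, add_zero, add_zero]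

end Pool.Agent.Helper81.EU
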