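import Pool.Agent.Helper81.EU.Geo

/-!
# Block EU-ET: totally isotropic subspaces opposite to two given ones

`TI h A`: `A` is totally isotropic. `Nd h A U`: no nonzero vector of `A` is orthogonal to `U`.
`exists_el`: for a basis `aᵢ` of `A` take `P z = ∑ h z aᵢ • aᵢ`: self adjoint, `P P = 0`, and onto `A` (`z ↦ (h z aᵢ)ᵢ` is onto `K^j`, as in
`exists_perp_not`: a functional `c` vanishing on the image gives `∑ star cᵢ • aᵢ = 0`).
`extend`: induction on `j - dim A`. If `dim A < j`: `exists_mem_perp` for `A`, `U₀` gives `b₀ ≠ 0` in `U₀` orthogonal to `A`. `b₀` is not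
in `A` (it is orthogonal to `U₀`, `Nd h A U₀`), `h b₀ b₀ = 0`. `exists_perp_not` gives an isotropic `y₀` orthogonal to `A` with
`h y₀ b₀ = 1`. In the same way `b₁`, `y₁` for `U₁`. `two_hyp` for the space `Z` of the vectors orthogonal to `A` gives an
isotropic `y` orthogonal to `A` with `h y b₀ ≠ 0`, `h y b₁ ≠ 0`. `A' = A + K y`: totally isotropic; if `a + c y` is orthogonal to
`U₀` then `0 = h (a + c y) b₀ = c h y b₀` (`h a b₀ = 0`), so `c = 0` and `a = 0`. `y` is not in `A` (`h y b₀ ≠ 0`), so `dim A' = dim A + 1`.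
-/

set_option autoImplicit false
set_option linter.unusedSectionVars false

open LinearMap

namespace Pool.Agent.Helper81.EU

open Pool.Agent.Helper81.UT Pool.Agent.Helper2.EV

variable {K V : Type*} [Field K] [StarRing K] [AddCommGroup V] [Module K V] {h : V → V → K}

/-- Totally isotropic. -/
def TI (h : V → V → K) (A : Submodule K V) : Prop := ∀ x ∈ A, ∀ y ∈ A, h x y = 0

/-- No nonzero vector of `A` is orthogonal to `U`. -/
def Nd (h : V → V → K) (A U : Submodule K V) : Prop := ∀ a ∈ A, (∀ u ∈ U, h a u = 0) → a = 0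

theorem ti_range (hh : Herm h) {j : ℕ} {N : Module.End K V} (hN : N ∈ El h j) :
    TI h (range N) := by
  rintro _ ⟨x, rfl⟩ _ ⟨y, rfl⟩
  exact el_perp hh hN x y

theorem nd_range (hh : Herm h) {j : ℕ} {N : Module.End K V} (hN : N ∈ El h j)
    {A : Submodule K V} : Nd h A (range N) ↔ Disjoint A (ker N) := by
  rw [Submodule.disjoint_def]
  constructor
  · intro H x hx hxN
    refine H x hx ?_
    rintro _ ⟨y, rfl⟩
    exact el_perp' hh hN hxN y
  · intro H x hx hxN
    exact H x hx (ker_of hh hN fun y => hxN _ ⟨y, rfl⟩)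

variable [CharP K 2] [Finite K] [FiniteDimensional K V]

private theorem ext_rep (hh : Herm h) (ψ : V →ₗ[K] K) : ∃ u, ∀ z, h z u = ψ z := by
  have : Finite V := Module.finite_of_finite K
  let F : V → Module.Dual K V := fun u =>
    { toFun := fun z => h z u
      map_add' := fun x y => hh.add x y u
      map_smul' := fun c x => hh.smul c x u }
  have hinj : Function.Injective F := by
    intro u v huv
    apply ext_left hh
    intro z
    have h1 : h z u = h z v := LinearMap.congr_fun huv z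
    rw [← hh.symm z u, ← hh.symm z v, h1]
  have e : V ≃ₗ[K] Module.Dual K V := (Module.finBasis K V).toDualEquiv
  have hsurj : Function.Surjective F :=
    (Finite.injective_iff_surjective_of_equiv e.toEquiv).1 hinj
  obtain ⟨u, hu⟩ := hsurj ψ
  exact ⟨u, fun z => LinearMap.congr_fun hu z⟩

private theorem ext_sa_sum (hh : Herm h) {ι : Type*} (s : Finset ι) (N : ι → Module.End K V)
    (hN : ∀ i, SA h (N i)) : SA h (∑ i ∈ s, N i) := by
  classical
  induction s using Finset.induction_on with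
  | empty =>
    intro x y
    rw [Finset.sum_empty, LinearMap.zero_apply, LinearMap.zero_apply, hh.zero_left, hh.zero_right]
  | insert a s ha ih =>
    rw [Finset.sum_insert ha]
    exact (hN a).add hh ih

theorem exists_el (hh : Herm h) {A : Submodule K V} (hA : TI h A) {j : ℕ}
    (hj : Module.finrank K A = j) : ∃ P ∈ El h j, range P = A := by
  classical
  let b : Module.Basis (Fin j) K A := Module.finBasisOfFinrankEq K A hj
  let P : Module.End K V := ∑ i, rk hh (b i : V) (b i : V)
  have hPz : ∀ z, P z = ∑ i, h z (b i : V) • (b i : V) := by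
    intro z
    show (∑ i, rk hh (b i : V) (b i : V)) z = _
    rw [LinearMap.sum_apply]
    rfl
  have hPA : ∀ z, P z ∈ A := by
    intro z
    rw [hPz]
    exact A.sum_mem fun i _ => A.smul_mem _ (b i).2
  have hSA : SA h P := ext_sa_sum hh _ _ fun i => rk_sa hh _
  have hker : ∀ z, P z = 0 → ∀ a ∈ A, h a z = 0 := by
    intro z hz a ha
    have h1 : ∑ i, h z (b i : V) • b i = 0 := by
      apply Subtype.ext
      rw [Submodule.coe_sum, Submodule.coe_zero, ← hz, hPz]
      rfl
    have h2 : ∀ i, h z (b i : V) = 0 :=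
      fun i => Fintype.linearIndependent_iff.1 b.linearIndependent _ h1 i
    have h3 : a = ∑ i, b.repr ⟨a, ha⟩ i • (b i : V) := by
      have h4 := congrArg Subtype.val (b.sum_repr ⟨a, ha⟩)
      rw [Submodule.coe_sum] at h4
      exact h4.symm
    let G : V →ₗ[K] K :=
      { toFun := fun x => h x z
        map_add' := fun x y => hh.add x y z
        map_smul' := fun c x => hh.smul c x z }
    have h5 : G a = 0 := by
      rw [h3, map_sum]
      apply Finset.sum_eq_zero
      intro i _
      rw [map_smul]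
      have h6 : G (b i : V) = 0 := hh.eq_zero_comm.1 (h2 i)
      rw [h6, smul_zero]
    exact h5
  have hr : range P = A := by
    apply le_antisymm
    · rintro _ ⟨z, rfl⟩
      exact hPA z
    · intro a ha
      by_contra hna
      obtain ⟨ψ, hψa, hψ⟩ := Submodule.exists_le_ker_of_notMem hna
      obtain ⟨u, hu⟩ := ext_rep hh ψ
      have h1 : P u = 0 := by
        apply hh.nondeg
        intro y
        rw [hSA, hh.eq_zero_comm, hu]
        exact hψ ⟨y, rfl⟩
      apply hψa
      rw [← hu]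
      exact hker u h1 a ha
  refine ⟨P, ⟨⟨?_, ?_⟩, hSA⟩, hr⟩
  · ext z
    show P (P z) = 0
    rw [hPz (P z)]
    apply Finset.sum_eq_zero
    intro i _
    rw [hA _ (hPA z) _ (b i).2, zero_smul]
  · rw [hr, hj]

private theorem ext_b (hh : Herm h) (hstar : ∃ x : K, star x ≠ x) {j : ℕ} {U A : Submodule K V}
    (h0 : TI h U) (d0 : Module.finrank K U = j)
    (dA : Module.finrank K A < j) (n0 : Nd h A U) :
    ∃ b ∈ U, (∀ a ∈ A, h b a = 0) ∧ ∃ y, (∀ a ∈ A, h y a = 0) ∧ h y y = 0 ∧ h y b ≠ 0 := by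
  obtain ⟨b, hbU, hb0, hbA⟩ := exists_mem_perp hh (A := A) (U := U) (by rw [d0]; exact dA)
  have hbn : b ∉ A := fun hb => hb0 (n0 b hb fun u hu => h0 b hbU u hu)
  obtain ⟨y, hy, hyy, hyb⟩ := exists_perp_not hh hstar hbA (h0 b hbU b hbU) hbn
  exact ⟨b, hbU, hbA, y, hy, hyy, by rw [hyb]; exact one_ne_zero⟩

private theorem ext_nd (hh : Herm h) {U A : Submodule K V} {b y : V} (hbU : b ∈ U)
    (hbA : ∀ a ∈ A, h b a = 0) (n0 : Nd h A U) (hyb : h y b ≠ 0) :
    Nd h (A ⊔ K ∙ y) U := by
  intro x hx hxU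
  obtain ⟨a, ha, z, hz, rfl⟩ := Submodule.mem_sup.1 hx
  obtain ⟨c, rfl⟩ := Submodule.mem_span_singleton.1 hz
  have h1 := hxU b hbU
  rw [hh.add, hh.smul, hh.eq_zero_comm.1 (hbA a ha), zero_add] at h1
  have hc : c = 0 := (mul_eq_zero.1 h1).resolve_right hyb
  subst hc
  rw [zero_smul, add_zero] at hxU ⊢
  exact n0 a ha hxU

theorem extend_ti (hh : Herm h) (hstar : ∃ x : K, star x ≠ x) {j : ℕ} {U₀ U₁ A : Submodule K V}
    (h0 : TI h U₀) (h1 : TI h U₁) (d0 : Module.finrank K U₀ = j) (d1 : Module.finrank K U₁ = j)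
    (hA : TI h A) (dA : Module.finrank K A ≤ j) (n0 : Nd h A U₀) (n1 : Nd h A U₁) :
    ∃ A' : Submodule K V, A ≤ A' ∧ TI h A' ∧ Module.finrank K A' = j ∧ Nd h A' U₀ ∧
      Nd h A' U₁ := by
  obtain ⟨k, hk⟩ := Nat.exists_eq_add_of_le dA
  induction k generalizing A with
  | zero => exact ⟨A, le_refl A, hA, by omega, n0, n1⟩
  | succ k ih =>
    obtain ⟨b₀, hb0U, hb0A, y₀, hy0A, hy0, hyb0⟩ := ext_b hh hstar h0 d0 (by omega) n0
    obtain ⟨b₁, hb1U, hb1A, y₁, hy1A, hy1, hyb1⟩ := ext_b hh hstar h1 d1 (by omega) n1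
    let Z : Submodule K V :=
      { carrier := {z | ∀ a ∈ A, h z a = 0}
        add_mem' := by
          intro x y hx hy a ha
          rw [hh.add, hx a ha, hy a ha, add_zero]
        zero_mem' := fun a _ => hh.zero_left a
        smul_mem' := by
          intro c x hx a ha
          rw [hh.smul, hx a ha, mul_zero] }
    obtain ⟨y, hyZ, hyy, hb0, hb1⟩ := two_hyp hh (Z := Z) hy0A hy0 hy1A hy1 hyb0 hyb1
    have hyA : ∀ a ∈ A, h y a = 0 := hyZ
    have hyn : y ∉ A := fun hy => hb0 (hh.eq_zero_comm.1 (hb0A y hy))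
    have hd : Module.finrank K ↥(A ⊔ K ∙ y) = Module.finrank K A + 1 :=
      Submodule.finrank_sup_span_singleton hyn
    have hTI : TI h (A ⊔ K ∙ y) := by
      intro x hx x' hx'
      obtain ⟨a, ha, z, hz, rfl⟩ := Submodule.mem_sup.1 hx
      obtain ⟨c, rfl⟩ := Submodule.mem_span_singleton.1 hz
      obtain ⟨a', ha', z', hz', rfl⟩ := Submodule.mem_sup.1 hx'
      obtain ⟨c', rfl⟩ := Submodule.mem_span_singleton.1 hz'
      rw [hh.add, hh.add_right, hh.add_right, hh.smul, hh.smul, hh.smul_right, hh.smul_right,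
        hA a ha a' ha', hh.eq_zero_comm.1 (hyA a ha), hyA a' ha', hyy]
      ring
    obtain ⟨A', hle, hT', hd', hn0', hn1'⟩ := ih hTI (by omega)
      (ext_nd hh hb0U hb0A n0 hb0) (ext_nd hh hb1U hb1A n1 hb1) (by omega)
    exact ⟨A', le_trans le_sup_left hle, hT', hd', hn0', hn1'⟩

end Pool.Agent.Helper81.EU
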