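import Pool.Agent.Helper81.EU.Rng
import Pool.Agent.Helper81.EU.OrdT

/-!
# Block EU-F1: elements inverse to `N`, the part outside the two images

By `line_range` (for `N`, `M`) applied to `p = N (M' x)`: it is enough that `N (M' x)` is a multiple of each `v ≠ 0` in `range N` with
`h (M v) v = 0`; then `N (M' x) = 0` and `M' x = M' (N (M' x)) = 0` (`hI'.2`).
Let `v` be such a vector, `R z = N z + h z x • v + h z v • x`, that is `R = N + (rk hh x v + rk hh v x)`. Facts: `N v = 0`, `N (M v) = v`,
`h v v = h v x = h x x = 0`, `h (M z) x = h z (M x) = 0`. `R` is self adjoint (`SA.add`, `rk_two_sa`), `R R = 0`. Rank: with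
`B z = h z (M v) • x`, `B' z = h z x • M v` (`B B = B' B' = 0`) `R = (1 + B) N (1 + B')` (`h (N z) (M v) = h z v`, `h v (M v) = 0`), so
the rank of `R` is `j`. `N R = 0 = R N`. `R M z = N M z + h z (M v) • x`, so `R M R = R`:
`N M (R z) = N z + h z x • v` and `h (R z) (M v) = h z (R M v) = h z v`. `M R M = M N M = M`. So `Inv R M`, `O3 R M` (`o3_of_inv`), and
`O3 R M'` by `H`: `R M' R + R = M' R M' + M'`. Multiply by `N` on both sides: `0 = N M' R M' N + N` (`N M' N = N`). Apply to `z`, with
`w = M' (N z)`: `N M' (R w) = N M' N w + h w x • N M' v + h w v • N M' x`, `N M' N w = N z`, `N M' v = v`, `h w x = h z (N (M' x))`,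
`h w v = h z (N (M' v)) = h z v`. So `h z p • v + h z v • p = 0` for all `z`, `p = N (M' x)`; choose `z` with `h z v = 1`.
-/

set_option autoImplicit false
set_option linter.unusedSectionVars false

open LinearMap

namespace Pool.Agent.Helper81.EU

open Pool.Agent.Helper81.UT Pool.Agent.Helper2.EV

variable {K V : Type*} [Field K] [StarRing K] [AddCommGroup V] [Module K V] [CharP K 2] [Finite K]
  [FiniteDimensional K V] {h : V → V → K}

/-- the rank of `(1 + B) N (1 + B')` -/
private theorem rank86 {N B B' : Module.End K V} (hB : B * B = 0) (hB' : B' * B' = 0) :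
    Module.finrank K (range ((1 + B) * N * (1 + B'))) = Module.finrank K (range N) := by
  have h1 := one_add_sq (K := K) (V := V) hB
  have h1' := one_add_sq (K := K) (V := V) hB'
  let e : V ≃ₗ[K] V := LinearEquiv.ofLinearMap (1 + B) (1 + B) h1 h1
  have h2 : range ((1 + B) * N * (1 + B')) = (range N).map (e : V →ₗ[K] V) := by
    ext y
    constructor
    · rintro ⟨x, rfl⟩
      exact ⟨N ((1 + B') x), ⟨_, rfl⟩, rfl⟩
    · rintro ⟨_, ⟨x, rfl⟩, rfl⟩
      refine ⟨(1 + B') x, ?_⟩
      show (1 + B) (N ((1 + B') ((1 + B') x))) = (1 + B) (N x)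
      have : (1 + B') ((1 + B') x) = x := LinearMap.congr_fun h1' x
      rw [this]
  rw [h2, LinearEquiv.finrank_map_eq]

private theorem exists_one86 (hh : Herm h) {v : V} (hv : v ≠ 0) : ∃ z, h z v = 1 := by
  by_contra hcon
  push Not at hcon
  apply hv
  apply hh.nondeg
  intro y
  by_contra hy
  have h1 : h y v ≠ 0 := fun h0 => hy (hh.eq_zero_comm.1 h0)
  refine hcon ((h y v)⁻¹ • y) ?_
  rw [hh.smul, inv_mul_cancel₀ h1]

theorem fam1 (hh : Herm h) (hstar : ∃ x : K, star x ≠ x) {j : ℕ} (hj : 2 ≤ j)
    {N M M' : Module.End K V} (hN : N ∈ El h j) (hM : M ∈ El h j) (hM' : M' ∈ El h j)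
    (hI : Inv N M) (hI' : Inv N M')
    (H : ∀ R ∈ El h j, N * R = R * N → O3 R M → O3 R M') {x : V} (h1 : N x = 0) (h2 : M x = 0)
    (h3 : h x x = 0) : M' x = 0 := by
  have key : N (M' x) = 0 := by
    refine line_range hh hstar hj hN hM hI _ fun v hv hMv hv0 => ?_
    obtain ⟨y, rfl⟩ := hv
    obtain ⟨v, hvdef⟩ : ∃ v, v = N y := ⟨_, rfl⟩
    rw [← hvdef] at hMv hv0 ⊢
    have hNv : N v = 0 := by rw [hvdef]; exact el_sq' hN y
    have hNMv : N (M v) = v := by rw [hvdef]; exact LinearMap.congr_fun hI.1 y
    have hNM'v : N (M' v) = v := by rw [hvdef]; exact LinearMap.congr_fun hI'.1 y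
    have hvv : h v v = 0 := by rw [hvdef]; exact el_perp hh hN y y
    have hxv : h x v = 0 := by rw [hvdef]; exact el_perp' hh hN h1 y
    have hvx : h v x = 0 := hh.eq_zero_comm.1 hxv
    have hMzx : ∀ z, h (M z) x = 0 := fun z => by rw [el_adj hM, h2, hh.zero_right]
    have hxMz : ∀ z, h x (M z) = 0 := fun z => hh.eq_zero_comm.1 (hMzx z)
    have hvMv : h v (M v) = 0 := hh.eq_zero_comm.1 hMv
    have hNzx : ∀ z, h (N z) x = 0 := fun z => by rw [el_adj hN, h1, hh.zero_right]
    have hNzv : ∀ z, h (N z) v = 0 := fun z => by rw [el_adj hN, hNv, hh.zero_right]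
    have hNzm : ∀ z, h (N z) (M v) = h z v := fun z => by rw [el_adj hN, hNMv]
    obtain ⟨R, hRdef⟩ : ∃ R : Module.End K V, R = N + (rk hh x v + rk hh v x) := ⟨_, rfl⟩
    have hR : ∀ z, R z = N z + (h z x • v + h z v • x) := fun z => by rw [hRdef]; rfl
    -- `R` is in the class
    have hNR : N * R = 0 := by
      ext z
      show N (R z) = 0
      rw [hR, map_add, map_add, map_smul, map_smul, el_sq' hN, hNv, h1, smul_zero, smul_zero,
        add_zero, add_zero]
    have hRN : R * N = 0 := by
      ext z
      show R (N z) = 0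
      rw [hR, el_sq' hN, hNzx, hNzv, zero_smul, zero_smul, add_zero, add_zero]
    have hRel : R ∈ El h j := by
      refine ⟨⟨?_, ?_⟩, ?_⟩
      · have e : R * R = N * R + (rk hh x v + rk hh v x) * N +
            (rk hh x v + rk hh v x) * (rk hh x v + rk hh v x) := by
          rw [hRdef]
          noncomm_ring
        have e2 : (rk hh x v + rk hh v x) * N = 0 := by
          ext z
          show h (N z) x • v + h (N z) v • x = 0
          rw [hNzx, hNzv, zero_smul, zero_smul, add_zero]
        rw [e, hNR, e2, rk_two_sq hh h3 hvv hxv, add_zero, add_zero]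
      · have hB : rk hh (M v) x * rk hh (M v) x = 0 := by
          ext z
          show h (h z (M v) • x) (M v) • x = 0
          rw [hh.smul, hxMz, mul_zero, zero_smul]
        have hB' : rk hh x (M v) * rk hh x (M v) = 0 := by
          ext z
          show h (h z x • M v) x • M v = 0
          rw [hh.smul, hMzx, mul_zero, zero_smul]
        have e : R = (1 + rk hh (M v) x) * N * (1 + rk hh x (M v)) := by
          ext z
          show R z = N (z + h z x • M v) + h (N (z + h z x • M v)) (M v) • x
          rw [hR, map_add, map_smul, hNMv, hh.add, hh.smul, hNzm, hvMv, mul_zero, add_zero]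
          module
        rw [e, rank86 hB hB']
        exact hN.1.2
      · rw [hRdef]
        exact hN.2.add hh (rk_two_sa hh x v)
    have hRM : ∀ z, R (M z) = N (M z) + h z (M v) • x := by
      intro z
      rw [hR, hMzx, zero_smul, zero_add, el_adj hM]
    have hInv : Inv R M := by
      constructor
      · ext z
        show R (M (R z)) = R z
        rw [hRM]
        have e1 : N (M (R z)) = N z + h z x • v := by
          rw [hR, map_add, map_add, map_add, map_add, map_smul, map_smul, map_smul, map_smul, hNMv, h2,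
            map_zero, smul_zero, add_zero]
          congr 1
          exact LinearMap.congr_fun hI.1 z
        have e2 : h (R z) (M v) = h z v := by
          rw [hR, hh.add, hh.add, hh.smul, hh.smul, hNzm, hvMv, hxMz, mul_zero, mul_zero, add_zero, add_zero]
        rw [e1, e2, hR]
        module
      · ext z
        show M (R (M z)) = M z
        rw [hRM, map_add, map_smul, h2, smul_zero, add_zero]
        exact LinearMap.congr_fun hI.2 z
    have hO : O3 R M' := H R hRel (by rw [hNR, hRN]) (o3_of_inv hInv)
    have hO2 := hO.2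
    -- multiply by `N`
    have hmain : ∀ z, h z (N (M' x)) • v + h z v • N (M' x) = 0 := by
      intro z
      have e1 := LinearMap.congr_fun (congrArg (fun T => N * T * N) hO2) z
      have e2 : N (R (M' (R (N z)))) + N (R (N z)) = N (M' (R (M' (N z)))) + N (M' (N z)) := by
        have e3 : N (R (M' (R (N z))) + R (N z)) = N (M' (R (M' (N z))) + M' (N z)) := e1
        rwa [map_add, map_add] at e3
      have e4 : ∀ t, N (R t) = 0 := fun t => LinearMap.congr_fun hNR t
      have e5 : N (M' (N z)) = N z := LinearMap.congr_fun hI'.1 z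
      rw [e4, e4, zero_add, e5, hR, map_add, map_add, map_add, map_add, map_smul, map_smul, map_smul,
        map_smul, e5, e5, hNM'v] at e2
      have e6 : h (M' (N z)) x = h z (N (M' x)) := by rw [el_adj hM', el_adj hN]
      have e7 : h (M' (N z)) v = h z v := by rw [el_adj hM', el_adj hN, hNM'v]
      rw [e6, e7] at e2
      have e8 := aav K (N z)
      calc h z (N (M' x)) • v + h z v • N (M' x) = (N z + N z) + (h z (N (M' x)) • v + h z v • N (M' x)) := by
            rw [e8, zero_add]
        _ = N z + (h z (N (M' x)) • v + h z v • N (M' x)) + N z := by abel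
        _ = 0 := e2.symm
    obtain ⟨z, hz⟩ := exists_one86 hh hv0
    have h4 := hmain z
    rw [hz, one_smul] at h4
    exact ⟨-h z (N (M' x)), by rw [neg_smul]; exact (neg_eq_of_add_eq_zero_right h4).symm⟩
  have h5 : M' (N (M' x)) = M' x := LinearMap.congr_fun hI'.2 x
  rw [← h5, key, map_zero]

end Pool.Agent.Helper81.EU
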