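import Pool.Agent.Helper81.EU.Fam1
import Pool.Agent.Helper81.EU.Wz

/-!
# Block EU-F2: elements inverse to `N`, isotropic vectors of `range N`

Let `v` be in `range N`, `h (M v) v = 0`, `T = rk hh (M v) (M v)` (`h (M v) (M v) = 0`), `R = (1 + T) N (1 + T)`, in `El h j` by `conj_mem`.
`R z = N z + h z (M v) • v + h z v • M v` (`N (M v) = v`, `h (N z) (M v) = h z v`, `h v (M v) = 0`).
`R N z = h z v • v = N R z`. `R M z = N M z + h z (M v) • M v` (`h (M z) (M v) = 0`), `R M R = R`:
`N M (R z) = N z + h z (M v) • v`, `h (R z) (M v) = h z (R M v) = h z v` (`R M v = v`); `M R M = M N M = M`. So `O3 R M` (`o3_of_inv`) and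
`O3 R M'` by `H`: `R M' R + R = M' R M' + M'`. Multiply by `N` on both sides, `S = N R = R N`, `S z = h z v • v`: `S N = 0`,
`S M' S z = h z v • h (M' v) v • v = 0` (`v = N a`, `h (M' v) v = h (N M' N a) a = h (N a) a = h (N M N a) a = h (M v) v = 0`). So
`N M' R M' N = N`. Apply to `z`, `w = M' (N z)`: `N M' (R w) = N M' N w + h w (M v) • N M' v + h w v • N M' M v`, `N M' N w = N z`,
`N M' v = v`, `h w v = h z (N M' v) = h z v`, `h w (M v) = h z p`, `p = N (M' (M v))`. So `h z p • v + h z v • p = 0` for all `z`.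
`fam2`: if `v = 0` take `c = 0`; otherwise (`h z v = 1`) `p = c • v`, and then `star c = c`.
`fam2'`: let `y = M' v - M v - N (M (M' v))`. `N y = 0` (`N M' v = v = N M v`), `M y = M M' v - M N M M' v = 0`. `h y y = 0`:
`0 = h (M' v) (M' v) = h (M v) (N M M' v) + h (N M M' v) (M v) + h y y` (the other products are `0`), and
`h (N M M' v) (M v) = h (M M' v) v = h (M' v) (M v) = h v (M' M v) = h a (N M' M v) = h a (c • v) = star c * h a (N a) = 0`.
For `x` with `N x = M x = 0`, `h x x = 0`: `h x y = h x (M' v) = h (M' x) v = 0` by `fam1`. So `y = 0` by `w_zero`.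
-/

set_option autoImplicit false
set_option linter.unusedSectionVars false

open LinearMap

namespace Pool.Agent.Helper81.EU

open Pool.Agent.Helper81.UT Pool.Agent.Helper2.EV

variable {K V : Type*} [Field K] [StarRing K] [AddCommGroup V] [Module K V] [CharP K 2] [Finite K]
  [FiniteDimensional K V] {h : V → V → K}

/-- The equation of the block, for all `z`. -/
private theorem fam2_core (hh : Herm h) {j : ℕ}
    {N M M' : Module.End K V} (hN : N ∈ El h j) (hM : M ∈ El h j) (hM' : M' ∈ El h j)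
    (hI : Inv N M) (hI' : Inv N M')
    (H : ∀ R ∈ El h j, N * R = R * N → O3 R M → O3 R M') {v : V} (hv : v ∈ range N)
    (hv' : h (M v) v = 0) (z : V) :
    h z (N (M' (M v))) • v + h z v • N (M' (M v)) = 0 := by
  obtain ⟨a, rfl⟩ := hv
  obtain ⟨v, hva⟩ : ∃ v, v = N a := ⟨_, rfl⟩
  rw [← hva] at hv' ⊢
  have eN : ∀ x, N (M (N x)) = N x := fun x => LinearMap.congr_fun hI.1 x
  have eM : ∀ x, M (N (M x)) = M x := fun x => LinearMap.congr_fun hI.2 x
  have eN' : ∀ x, N (M' (N x)) = N x := fun x => LinearMap.congr_fun hI'.1 x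
  have Nv : N v = 0 := by rw [hva]; exact el_sq' hN a
  have NMv : N (M v) = v := by rw [hva]; exact eN a
  have NMv' : N (M' v) = v := by rw [hva]; exact eN' a
  have vMv : h v (M v) = 0 := hh.eq_zero_comm.1 hv'
  have MvMv : h (M v) (M v) = 0 := el_perp hh hM v v
  have va : h v a = 0 := by
    rw [← NMv, el_adj hN, ← hva]; exact hv'
  have M'vv : h (M' v) v = 0 := by
    have h1 : h (M' v) (N a) = h (N (M' v)) a := (el_adj hN _ _).symm
    rw [← hva, NMv'] at h1
    rw [h1, va]
  -- the element `R`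
  obtain ⟨T, hT⟩ : ∃ T, T = rk hh (M v) (M v) := ⟨_, rfl⟩
  have hTT : T * T = 0 := by rw [hT]; exact rk_sq hh MvMv
  have hTs : SA h T := by rw [hT]; exact rk_sa hh _
  obtain ⟨R, hR⟩ : ∃ R, R = (1 + T) * N * (1 + T) := ⟨_, rfl⟩
  have hRE : R ∈ El h j := by rw [hR]; exact conj_mem hh hN hTT hTs
  have Tz : ∀ x, T x = h x (M v) • M v := by intro x; rw [hT, rk_apply]
  have Rz : ∀ x, R x = N x + h x (M v) • v + h x v • M v := by
    intro x
    have h1 : R x = N (x + T x) + T (N (x + T x)) := by rw [hR]; rfl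
    have h2 : N (x + T x) = N x + h x (M v) • v := by
      rw [map_add, Tz, map_smul, NMv]
    have h3 : T (N x + h x (M v) • v) = h x v • M v := by
      rw [Tz, hh.add, hh.smul, vMv, mul_zero, add_zero, el_adj hN, NMv]
    rw [h1, h2, h3]
  have RN : ∀ x, R (N x) = h x v • v := by
    intro x
    rw [Rz, el_sq' hN, el_adj hN, NMv, el_adj hN, Nv, hh.zero_right, zero_smul, zero_add, add_zero]
  have NR : ∀ x, N (R x) = h x v • v := by
    intro x
    rw [Rz, map_add, map_add, map_smul, map_smul, Nv, NMv, el_sq' hN, smul_zero, add_zero, zero_add]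
  have hcomm : N * R = R * N := by
    ext x
    show N (R x) = R (N x)
    rw [RN, NR]
  have RM : ∀ x, R (M x) = N (M x) + h x (M v) • M v := by
    intro x
    rw [Rz, el_perp hh hM, zero_smul, add_zero, el_adj hM]
  have hRMv : ∀ x, h (R x) (M v) = h x v := by
    intro x
    rw [Rz, hh.add, hh.add, hh.smul, hh.smul, vMv, MvMv, mul_zero, mul_zero, add_zero, add_zero,
      el_adj hN, NMv]
  have hInv : Inv R M := by
    constructor
    · ext x
      show R (M (R x)) = R x
      have h1 : N (M (R x)) = N x + h x (M v) • v := by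
        rw [Rz, map_add M, map_smul M (h x v), el_sq' hM, smul_zero, add_zero, map_add, map_smul,
          map_add, map_smul, eN, NMv]
      rw [RM, h1, hRMv, ← Rz]
    · ext x
      show M (R (M x)) = M x
      rw [RM, map_add, map_smul, el_sq' hM, smul_zero, add_zero, eM]
  have hO := H R hRE hcomm (o3_of_inv hInv)
  have h1 : R (M' (R (N z))) + R (N z) = M' (R (M' (N z))) + M' (N z) :=
    LinearMap.congr_fun hO.2 (N z)
  have h2 := congrArg N h1
  rw [map_add, map_add, NR, RN, map_smul, hh.smul, M'vv, mul_zero, zero_smul, map_smul, Nv,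
    smul_zero, zero_add, eN'] at h2
  obtain ⟨w, hw⟩ : ∃ w, w = M' (N z) := ⟨_, rfl⟩
  have hNw : N w = N z := by rw [hw, eN']
  have hwv : h w v = h z v := by
    rw [hw, el_adj hM', el_adj hN, NMv']
  have hwMv : h w (M v) = h z (N (M' (M v))) := by
    rw [hw, el_adj hM', el_adj hN]
  have h3 : N (M' (R w)) = N z + h z (N (M' (M v))) • v + h z v • N (M' (M v)) := by
    rw [Rz, map_add, map_add, map_smul, map_smul, map_add, map_add, map_smul, map_smul, eN', NMv',
      hNw, hwv, hwMv]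
  rw [← hw, h3] at h2
  have h4 := aav K (N z)
  have h5 : N z + h z (N (M' (M v))) • v + h z v • N (M' (M v)) + N z =
      (N z + N z) + (h z (N (M' (M v))) • v + h z v • N (M' (M v))) := by abel
  rw [h5, h4, zero_add] at h2
  exact h2.symm

theorem fam2 (hh : Herm h) {j : ℕ}
    {N M M' : Module.End K V} (hN : N ∈ El h j) (hM : M ∈ El h j) (hM' : M' ∈ El h j)
    (hI : Inv N M) (hI' : Inv N M')
    (H : ∀ R ∈ El h j, N * R = R * N → O3 R M → O3 R M') {v : V} (hv : v ∈ range N)
    (hv' : h (M v) v = 0) : ∃ c : K, star c = c ∧ N (M' (M v)) = c • v := by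
  by_cases hv0 : v = 0
  · refine ⟨0, star_zero _, ?_⟩
    rw [hv0, map_zero, map_zero, map_zero, smul_zero]
  · obtain ⟨y, hy⟩ : ∃ y, h v y ≠ 0 := by
      by_contra hcon
      push Not at hcon
      exact hv0 (hh.nondeg v hcon)
    have hy' : h y v ≠ 0 := fun e => hy (hh.eq_zero_comm.1 e)
    obtain ⟨z, hz⟩ : ∃ z, h z v = 1 :=
      ⟨(h y v)⁻¹ • y, by rw [hh.smul, inv_mul_cancel₀ hy']⟩
    have h1 := fam2_core hh hN hM hM' hI hI' H hv hv' z
    rw [hz, one_smul] at h1
    have h2 : N (M' (M v)) = h z (N (M' (M v))) • v := by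
      have h3 := aav K (h z (N (M' (M v))) • v)
      exact add_left_cancel (h1.trans h3.symm)
    refine ⟨h z (N (M' (M v))), ?_, h2⟩
    have h4 : h z (N (M' (M v))) = star (h z (N (M' (M v)))) := by
      conv_lhs => rw [h2]
      rw [hh.smul_right, hz, mul_one]
    exact h4.symm

theorem fam2' (hh : Herm h) (hstar : ∃ x : K, star x ≠ x) {j : ℕ} (hj : 2 ≤ j)
    {N M M' : Module.End K V} (hN : N ∈ El h j) (hM : M ∈ El h j) (hM' : M' ∈ El h j)
    (hI : Inv N M) (hI' : Inv N M')
    (H : ∀ R ∈ El h j, N * R = R * N → O3 R M → O3 R M') {v : V} (hv : v ∈ range N)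
    (hv' : h (M v) v = 0) : M' v = M v + N (M (M' v)) := by
  obtain ⟨c, -, hc⟩ := fam2 hh hN hM hM' hI hI' H hv hv'
  obtain ⟨a, rfl⟩ := hv
  obtain ⟨v, hva⟩ : ∃ v, v = N a := ⟨_, rfl⟩
  rw [← hva] at hv' hc ⊢
  have eM : ∀ x, M (N (M x)) = M x := fun x => LinearMap.congr_fun hI.2 x
  have NMv : N (M v) = v := by rw [hva]; exact LinearMap.congr_fun hI.1 a
  have NMv' : N (M' v) = v := by rw [hva]; exact LinearMap.congr_fun hI'.1 a
  have va : h v a = 0 := by
    rw [← NMv, el_adj hN, ← hva]; exact hv'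
  have av : h a v = 0 := hh.eq_zero_comm.1 va
  obtain ⟨q, hq⟩ : ∃ q, q = N (M (M' v)) := ⟨_, rfl⟩
  obtain ⟨y, hy⟩ : ∃ y, y = M' v + M v + q := ⟨_, rfl⟩
  have Ny : N y = 0 := by
    rw [hy, map_add, map_add, NMv', NMv, hq, el_sq' hN, aav K, add_zero]
  have My : M y = 0 := by
    rw [hy, map_add, map_add, el_sq' hM, add_zero, hq, eM, aav K]
  have e1 : h (M' v) (M v) = 0 := by
    have h1 : h (M' v) (M v) = h a (N (M' (M v))) := by
      rw [el_adj hM']
      conv_lhs => rw [hva]
      rw [el_adj hN]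
      rw [← hva]
    rw [h1, hc, hh.smul_right, av, mul_zero]
  have e1' : h (M v) (M' v) = 0 := hh.eq_zero_comm.1 e1
  have e2 : h (M' v) q = 0 := by
    rw [hq, ← el_adj hN, NMv', ← el_adj hM, e1']
  have e3 : h (M' v) y = 0 := by
    rw [hy, hh.add_right, hh.add_right, el_perp hh hM', e1, e2, add_zero, add_zero]
  have e4 : h y y = 0 := by
    have h1 : h y y = h (M' v + M v + q) y := by rw [← hy]
    rw [h1, hh.add, hh.add, e3, el_adj hM, My, hh.zero_right, hq, el_adj hN, Ny, hh.zero_right,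
      add_zero, add_zero]
  have hy0 : y = 0 := by
    refine w_zero hh hstar hN hM hI Ny My e4 ?_
    intro x hx1 hx2 hx3
    have hx4 := fam1 hh hstar hj hN hM hM' hI hI' H hx1 hx2 hx3
    rw [hy, hh.add_right, hh.add_right, ← el_adj hM', hx4, ← el_adj hM, hx2, hq, ← el_adj hN, hx1,
      hh.zero_left, hh.zero_left, add_zero, add_zero]
  rw [hy0] at hy
  rw [← hq]
  have h5 : M' v + M v + q + (M v + q) = M v + q := by rw [← hy, zero_add]
  have h6 : M' v + M v + q + (M v + q) = M' v + ((M v + q) + (M v + q)) := by abel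
  rw [h6, aav K, add_zero] at h5
  exact h5

end Pool.Agent.Helper81.EU
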