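import Pool.Agent.Helper81.EU.Frame

/-!
# Block EU-LI: the center of `Gr h` and involutions modulo the center

`center_smul`: `center_iff`, `isom`, `scalar` (project UT). `mem_center`: a scalar commutes with all linear maps.
`lift`: `g (g x) = m • x` with `nm m = 1` (`center_smul`). `m = k * k` (`(bijective_frobenius K 2).2`, as in `exists_sqrt` of UT), and
`nm k * nm k = 1`, `nm k = 1` (characteristic two). `A = k⁻¹ • g` is an isometry with `A A = 1`; `N = 1 + A` has `N N = 0` and is self adjoint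
(`h (A x) y = h (A (A x)) (A y) = h x (A y)`), `g x = k • (x + N x)`. `N ≠ 0`: otherwise `g x = k • x` and `g` is central (`mem_center`); so its
rank is `≥ 1`.
`pow_center`: let `p = (1 + N) (1 + M)` (in `End V`) and `p^m = c` (scalar, `c ≠ 0`). `(1 + N) p (1 + N) = (1 + M) (1 + N)` is the inverse of
`p`, so `c = (1 + N) p^m (1 + N)` is the inverse of `p^m`, `c * c = 1`, `c = 1` (characteristic two; `V ≠ 0`).
-/

set_option autoImplicit false
set_option linter.unusedSectionVars false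

open LinearMap

namespace Pool.Agent.Helper81.EU

open Pool.Agent.Helper81.UT Pool.Agent.Helper2.EV

variable {K V : Type*} [Field K] [StarRing K] [AddCommGroup V] [Module K V] [CharP K 2] [Finite K]
  [FiniteDimensional K V] {h : V → V → K}

/-- squares in characteristic two -/
theorem sq_one11 {x : K} (hx : x * x = 1) : x = 1 := by
  apply frobenius_inj K 2
  rw [_root_.frobenius_def, _root_.frobenius_def, sq, hx, one_pow]

theorem center_smul (hh : Herm h) (hstar : ∃ x : K, star x ≠ x) (hdim : 3 ≤ Module.finrank K V)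
    {z : Gr h} (hz : z ∈ Subgroup.center (Gr h)) :
    ∃ m : K, nm m = 1 ∧ ∀ x, (z : V ≃ₗ[K] V) x = m • x :=
  scalar hh hstar hdim (z : V ≃ₗ[K] V) (isom hh z.2) ((center_iff hh z).1 hz)

theorem mem_center {z : Gr h} {m : K} (hz : ∀ x, (z : V ≃ₗ[K] V) x = m • x) :
    z ∈ Subgroup.center (Gr h) := by
  rw [Subgroup.mem_center_iff]
  intro g
  apply Subtype.ext
  ext x
  show (g : V ≃ₗ[K] V) ((z : V ≃ₗ[K] V) x) = (z : V ≃ₗ[K] V) ((g : V ≃ₗ[K] V) x)
  rw [hz, hz, map_smul]

theorem lift (hh : Herm h) (hstar : ∃ x : K, star x ≠ x) (hdim : 3 ≤ Module.finrank K V)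
    {g : Gr h} (hg : g * g ∈ Subgroup.center (Gr h)) (hg' : g ∉ Subgroup.center (Gr h)) :
    ∃ j, 1 ≤ j ∧ ∃ N ∈ El h j, ∃ k : K, ∀ x, (g : V ≃ₗ[K] V) x = k • (x + N x) := by
  obtain ⟨m, hm, hgm⟩ := center_smul hh hstar hdim hg
  have hgm' : ∀ x, (g : V ≃ₗ[K] V) ((g : V ≃ₗ[K] V) x) = m • x := hgm
  obtain ⟨k, hk⟩ := (bijective_frobenius K 2).2 m
  rw [_root_.frobenius_def, sq] at hk
  have hnk : nm k = 1 := by
    apply sq_one11
    rw [← nm_mul, hk, hm]
  have hk0 : k ≠ 0 := by
    rintro rfl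
    rw [nm_zero] at hnk
    exact zero_ne_one hnk
  have hm0 : m ≠ 0 := by
    rintro rfl
    rw [nm_zero] at hm
    exact zero_ne_one hm
  let N : Module.End K V := 1 + k⁻¹ • ((g : V ≃ₗ[K] V) : V →ₗ[K] V)
  have hNx : ∀ x, N x = x + k⁻¹ • (g : V ≃ₗ[K] V) x := fun x => rfl
  have hN2 : N * N = 0 := by
    ext x
    show N (N x) = 0
    rw [hNx, hNx, map_add, map_smul, hgm', smul_add, smul_smul, smul_smul]
    have h1 : k⁻¹ * k⁻¹ * m = 1 := by
      rw [← hk]
      field_simp
    rw [h1, one_smul]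
    have h2 : x + k⁻¹ • (g : V ≃ₗ[K] V) x + (k⁻¹ • (g : V ≃ₗ[K] V) x + x) =
        (x + x) + (k⁻¹ • (g : V ≃ₗ[K] V) x + k⁻¹ • (g : V ≃ₗ[K] V) x) := by abel
    rw [h2, aav K, aav K, add_zero]
  have hNsa : SA h N := by
    intro x y
    rw [hNx, hNx, hh.add, hh.add_right, hh.smul, hh.smul_right]
    congr 1
    have h1 : y = (g : V ≃ₗ[K] V) ((g : V ≃ₗ[K] V) (m⁻¹ • y)) := by
      rw [hgm', smul_smul, mul_inv_cancel₀ hm0, one_smul]
    have h2 : h ((g : V ≃ₗ[K] V) x) y = star m⁻¹ * h x ((g : V ≃ₗ[K] V) y) := by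
      conv_lhs => rw [h1]
      rw [isom hh g.2, map_smul, hh.smul_right]
    rw [h2, ← mul_assoc]
    congr 1
    have h3 : star m = star k * star k := by rw [← hk, star_mul]
    have h4 : star k ≠ 0 := fun h0 => hk0 (star_eq_zero.1 h0)
    have h5 : k * star k = 1 := hnk
    rw [star_inv₀, star_inv₀, h3]
    field_simp
    linear_combination -h5
  have hgN : ∀ x, (g : V ≃ₗ[K] V) x = k • (x + N x) := by
    intro x
    rw [hNx, ← add_assoc, aav K, zero_add, smul_smul, mul_inv_cancel₀ hk0, one_smul]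
  have hN0 : N ≠ 0 := by
    intro h0
    apply hg'
    apply mem_center (m := k)
    intro x
    rw [hgN, h0, LinearMap.zero_apply, add_zero]
  refine ⟨Module.finrank K (range N), ?_, N, ⟨⟨hN2, rfl⟩, hNsa⟩, k, hgN⟩
  rw [Nat.one_le_iff_ne_zero]
  intro h0
  apply hN0
  rw [Submodule.finrank_eq_zero] at h0
  exact LinearMap.range_eq_bot.1 h0

theorem pow_center (hh : Herm h) (hstar : ∃ x : K, star x ≠ x) (hdim : 3 ≤ Module.finrank K V)
    {N M : Module.End K V} (hN : N * N = 0) (hM : M * M = 0) {g : Gr h}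
    (hg : ∀ x, (g : V ≃ₗ[K] V) x = (1 + N) ((1 + M) x)) (m : ℕ) :
    g ^ m ∈ Subgroup.center (Gr h) ↔ ((1 + N) * (1 + M)) ^ m = 1 := by
  have hpow : ∀ n : ℕ, ∀ x, ((g ^ n : Gr h) : V ≃ₗ[K] V) x = (((1 + N) * (1 + M)) ^ n) x := by
    intro n
    induction n with
    | zero => intro x; rfl
    | succ n ih =>
      intro x
      rw [pow_succ, pow_succ]
      show ((g ^ n : Gr h) : V ≃ₗ[K] V) ((g : V ≃ₗ[K] V) x) =
        (((1 + N) * (1 + M)) ^ n) ((1 + N) ((1 + M) x))
      rw [ih, hg]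
  constructor
  · intro hz
    obtain ⟨c, -, hc⟩ := center_smul hh hstar hdim hz
    have h1 : ((1 + N) * (1 + M)) ^ m = c • (1 : Module.End K V) := by
      ext x
      rw [← hpow, hc]
      rfl
    have hN1 := one_add_sq hN
    have hM1 := one_add_sq hM
    have h2 : ∀ n : ℕ, (1 + N) * ((1 + N) * (1 + M)) ^ n * (1 + N) =
        ((1 + M) * (1 + N)) ^ n := by
      intro n
      induction n with
      | zero => rw [pow_zero, pow_zero, mul_one, hN1]
      | succ n ih =>
        rw [pow_succ, pow_succ, ← ih]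
        have h3 : (1 + N) * ((1 + N) * (1 + M)) ^ n * (1 + N) * ((1 + M) * (1 + N)) =
          (1 + N) * (((1 + N) * (1 + M)) ^ n * ((1 + N) * (1 + M))) * (1 + N) := by
          simp only [mul_assoc]
        rw [h3]
    have h4 : ∀ n : ℕ, ((1 + M) * (1 + N)) ^ n * ((1 + N) * (1 + M)) ^ n = 1 := by
      intro n
      have h5 : ((1 + M) * (1 + N)) * ((1 + N) * (1 + M)) = 1 := by
        rw [mul_assoc, ← mul_assoc (1 + N), hN1, one_mul, hM1]
      have h6 : ((1 + N) * (1 + M)) * ((1 + M) * (1 + N)) = 1 := by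
        rw [mul_assoc, ← mul_assoc (1 + M), hM1, one_mul, hN1]
      have h7 : Commute ((1 + M) * (1 + N)) ((1 + N) * (1 + M)) := by
        rw [Commute, SemiconjBy, h5, h6]
      rw [← h7.mul_pow, h5, one_pow]
    have h8 : (c * c) • (1 : Module.End K V) = 1 := by
      have h9 := h4 m
      rw [← h2 m, h1] at h9
      have h10 : (1 + N) * c • (1 : Module.End K V) * (1 + N) * c • (1 : Module.End K V) =
          (c * c) • ((1 + N) * (1 + N)) := by
        simp only [mul_smul_comm, smul_mul_assoc, mul_one, smul_smul]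
      rw [h10, hN1] at h9
      exact h9
    have : Nontrivial V := Module.nontrivial_of_finrank_pos (R := K) (by omega)
    obtain ⟨w, hw⟩ := exists_ne (0 : V)
    have h10 : (c * c) • w = w := LinearMap.congr_fun h8 w
    have h11 : c * c = 1 := by
      have h12 : (c * c - 1) • w = 0 := by rw [sub_smul, h10, one_smul, sub_self]
      rcases smul_eq_zero.1 h12 with h13 | h13
      · exact sub_eq_zero.1 h13
      · exact absurd h13 hw
    rw [h1, sq_one11 h11, one_smul]
  · intro h1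
    apply mem_center (m := (1 : K))
    intro x
    rw [hpow, h1, one_smul]
    rfl

end Pool.Agent.Helper81.EU
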