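import Pool.Agent.Helper81.EU.Core
import Pool.Agent.Helper81.EU.Conj
import Pool.Agent.Helper81.EU.Lift
import Pool.Agent.Helper81.UT.Fin

/-!
# Project EU: assembly
-/

set_option autoImplicit false
set_option linter.unusedSectionVars false

open LinearMap

namespace Pool.Agent.Helper81.EU

open Pool.Agent.Helper81.UT Pool.Agent.Helper2.EV

variable {K V : Type*} [Field K] [StarRing K] [AddCommGroup V] [Module K V] [CharP K 2] [Finite K]
  [FiniteDimensional K V] {h : V → V → K}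

/-- `1 + N` in the group. -/
def iv (hh : Herm h) (hstar : ∃ x : K, star x ≠ x) {j : ℕ} (N : El h j) : Gr h :=
  ⟨ie (el_sq N.2), ie_mem hh hstar N.2⟩

theorem iv_apply (hh : Herm h) (hstar : ∃ x : K, star x ≠ x) {j : ℕ} (N : El h j) (x : V) :
    (iv hh hstar N : V ≃ₗ[K] V) x = x + (N : Module.End K V) x := rfl

/-- The class of `1 + N`. -/
def rh (hh : Herm h) (hstar : ∃ x : K, star x ≠ x) {j : ℕ} (N : El h j) :
    Gr h ⧸ Subgroup.center (Gr h) := (iv hh hstar N : Gr h ⧸ Subgroup.center (Gr h))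

theorem iv_mul_self (hh : Herm h) (hstar : ∃ x : K, star x ≠ x) {j : ℕ} (N : El h j) :
    iv hh hstar N * iv hh hstar N = 1 := by
  apply Subtype.ext
  ext x
  exact LinearMap.congr_fun (one_add_sq (el_sq N.2)) x

theorem iv_inv (hh : Herm h) (hstar : ∃ x : K, star x ≠ x) {j : ℕ} (N : El h j) :
    (iv hh hstar N)⁻¹ = iv hh hstar N :=
  inv_eq_of_mul_eq_one_left (iv_mul_self hh hstar N)

theorem pow_rh (hh : Herm h) (hstar : ∃ x : K, star x ≠ x) (hdim : 3 ≤ Module.finrank K V)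
    {j : ℕ} (N M : El h j) (m : ℕ) : (rh hh hstar N * rh hh hstar M) ^ m = 1 ↔
      ((1 + (N : Module.End K V)) * (1 + (M : Module.End K V))) ^ m = 1 := by
  rw [← pow_center hh hstar hdim (el_sq N.2) (el_sq M.2) (g := iv hh hstar N * iv hh hstar M)
    (fun x => rfl) m, ← QuotientGroup.eq_one_iff]
  rfl

theorem order_rh (hh : Herm h) (hstar : ∃ x : K, star x ≠ x) (hdim : 3 ≤ Module.finrank K V)
    {j : ℕ} (N M : El h j) : orderOf (rh hh hstar N * rh hh hstar M) =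
      orderOf ((1 + (N : Module.End K V)) * (1 + (M : Module.End K V))) :=
  orderOf_eq_orderOf_iff.2 (pow_rh hh hstar hdim N M)

theorem rh_inj (hh : Herm h) (hstar : ∃ x : K, star x ≠ x) (hdim : 3 ≤ Module.finrank K V)
    {j : ℕ} : Function.Injective (rh hh hstar (j := j)) := by
  intro N M hNM
  have h1 : (rh hh hstar N * rh hh hstar M) ^ 1 = 1 := by
    rw [pow_one, ← hNM]
    show ((iv hh hstar N * iv hh hstar N : Gr h) : Gr h ⧸ Subgroup.center (Gr h)) = 1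
    rw [iv_mul_self]
    rfl
  rw [pow_rh hh hstar hdim, pow_one] at h1
  have h2 : (1 + (N : Module.End K V)) * ((1 + (N : Module.End K V)) * (1 + (M : Module.End K V))) =
      1 + (N : Module.End K V) := by rw [h1, mul_one]
  rw [← mul_assoc, one_add_sq (el_sq N.2), one_mul] at h2
  exact Subtype.ext (add_left_cancel h2).symm

/-- Conjugates. -/
theorem conj_el (hh : Herm h) {j : ℕ} (g : Gr h) (N : El h j) :
    ((g : V ≃ₗ[K] V) : V →ₗ[K] V) ∘ₗ (N : Module.End K V) ∘ₗ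
      (((g : V ≃ₗ[K] V)⁻¹ : V ≃ₗ[K] V) : V →ₗ[K] V) ∈ El h j := by
  have hgg : ∀ x, (g : V ≃ₗ[K] V)⁻¹ ((g : V ≃ₗ[K] V) x) = x := fun x => by
    rw [← LinearEquiv.mul_apply, inv_mul_cancel]
    rfl
  have hgg' : ∀ x, (g : V ≃ₗ[K] V) ((g : V ≃ₗ[K] V)⁻¹ x) = x := fun x => by
    rw [← LinearEquiv.mul_apply, mul_inv_cancel]
    rfl
  refine ⟨⟨?_, ?_⟩, ?_⟩
  · ext x
    show (g : V ≃ₗ[K] V) ((N : Module.End K V) ((g : V ≃ₗ[K] V)⁻¹ ((g : V ≃ₗ[K] V)
      ((N : Module.End K V) ((g : V ≃ₗ[K] V)⁻¹ x))))) = 0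
    rw [hgg, el_sq' N.2, map_zero]
  · have h2 : range (((g : V ≃ₗ[K] V) : V →ₗ[K] V) ∘ₗ (N : Module.End K V) ∘ₗ
        (((g : V ≃ₗ[K] V)⁻¹ : V ≃ₗ[K] V) : V →ₗ[K] V)) =
        (range (N : Module.End K V)).map ((g : V ≃ₗ[K] V) : V →ₗ[K] V) := by
      ext y
      constructor
      · rintro ⟨x, rfl⟩
        exact ⟨_, ⟨_, rfl⟩, rfl⟩
      · rintro ⟨_, ⟨x, rfl⟩, rfl⟩
        refine ⟨(g : V ≃ₗ[K] V) x, ?_⟩
        show (g : V ≃ₗ[K] V) ((N : Module.End K V) ((g : V ≃ₗ[K] V)⁻¹ ((g : V ≃ₗ[K] V) x))) = _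
        rw [hgg]
        rfl
    rw [h2, LinearEquiv.finrank_map_eq]
    exact N.2.1.2
  · intro x y
    show h ((g : V ≃ₗ[K] V) ((N : Module.End K V) ((g : V ≃ₗ[K] V)⁻¹ x))) y =
      h x ((g : V ≃ₗ[K] V) ((N : Module.End K V) ((g : V ≃ₗ[K] V)⁻¹ y)))
    have h1 := isom hh g.2 ((N : Module.End K V) ((g : V ≃ₗ[K] V)⁻¹ x)) ((g : V ≃ₗ[K] V)⁻¹ y)
    rw [hgg'] at h1
    have h2 := isom hh g.2 ((g : V ≃ₗ[K] V)⁻¹ x) ((N : Module.End K V) ((g : V ≃ₗ[K] V)⁻¹ y))
    rw [hgg'] at h2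
    rw [h1, h2, el_adj N.2]

/-- The conjugate of `N` by `g`. -/
def cj (hh : Herm h) {j : ℕ} (g : Gr h) (N : El h j) : El h j := ⟨_, conj_el hh g N⟩

theorem iv_conj (hh : Herm h) (hstar : ∃ x : K, star x ≠ x) {j : ℕ} (g : Gr h) (N : El h j) :
    g * iv hh hstar N * g⁻¹ = iv hh hstar (cj hh g N) := by
  rw [mul_inv_eq_iff_eq_mul]
  apply Subtype.ext
  ext x
  show (g : V ≃ₗ[K] V) (x + (N : Module.End K V) x) = (g : V ≃ₗ[K] V) x +
    (g : V ≃ₗ[K] V) ((N : Module.End K V) ((g : V ≃ₗ[K] V)⁻¹ ((g : V ≃ₗ[K] V) x)))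
  have hgg : (g : V ≃ₗ[K] V)⁻¹ ((g : V ≃ₗ[K] V) x) = x := by
    rw [← LinearEquiv.mul_apply, inv_mul_cancel]
    rfl
  rw [hgg, map_add]

theorem rh_conj (hh : Herm h) (hstar : ∃ x : K, star x ≠ x) {j : ℕ} (g : Gr h) (N : El h j) :
    (g : Gr h ⧸ Subgroup.center (Gr h)) * rh hh hstar N *
      (g : Gr h ⧸ Subgroup.center (Gr h))⁻¹ = rh hh hstar (cj hh g N) := by
  rw [rh, rh, ← iv_conj]
  rfl

theorem isConj_rh (hh : Herm h) (hstar : ∃ x : K, star x ≠ x) {j : ℕ} (N : El h j)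
    (b : Gr h ⧸ Subgroup.center (Gr h)) : IsConj (rh hh hstar N) b ↔ ∃ M : El h j,
      rh hh hstar M = b := by
  constructor
  · intro hb
    obtain ⟨g, hg⟩ := isConj_iff.1 hb
    obtain ⟨A, rfl⟩ := QuotientGroup.mk_surjective g
    rw [rh_conj] at hg
    exact ⟨_, hg⟩
  · rintro ⟨M, rfl⟩
    obtain ⟨g, hg, hg'⟩ := conj_gr hh hstar N.2 M.2
    rw [isConj_iff]
    refine ⟨((⟨g, hg⟩ : Gr h) : Gr h ⧸ Subgroup.center (Gr h)), ?_⟩
    rw [rh_conj]
    congr 1
    apply Subtype.ext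
    ext x
    show g ((N : Module.End K V) (g⁻¹ x)) = (M : Module.End K V) x
    rw [hg', ← LinearEquiv.mul_apply, mul_inv_cancel]
    rfl

/-- Involutions of the quotient. -/
theorem desc (hh : Herm h) (hstar : ∃ x : K, star x ≠ x) (hdim : 3 ≤ Module.finrank K V)
    {a : Gr h ⧸ Subgroup.center (Gr h)} (ha : orderOf a = 2) :
    ∃ j, 1 ≤ j ∧ ∃ N : El h j, rh hh hstar N = a := by
  obtain ⟨g, rfl⟩ := QuotientGroup.mk_surjective a
  have h1 := (orderOf_eq_prime_iff (p := 2)).1 ha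
  have h2 : g * g ∈ Subgroup.center (Gr h) := by
    rw [← QuotientGroup.eq_one_iff, ← h1.1, pow_two]
    rfl
  have h3 : g ∉ Subgroup.center (Gr h) := fun hc => h1.2 ((QuotientGroup.eq_one_iff g).2 hc)
  obtain ⟨j, hj, N, hN, k, hk⟩ := lift hh hstar hdim h2 h3
  refine ⟨j, hj, ⟨N, hN⟩, ?_⟩
  rw [rh, QuotientGroup.eq]
  apply mem_center (m := k)
  intro x
  show ((iv hh hstar ⟨N, hN⟩)⁻¹ : V ≃ₗ[K] V) ((g : V ≃ₗ[K] V) x) = k • x
  have h4 : ((iv hh hstar ⟨N, hN⟩)⁻¹ : V ≃ₗ[K] V) = (iv hh hstar ⟨N, hN⟩ : V ≃ₗ[K] V) := by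
    rw [← Subgroup.coe_inv, iv_inv]
  rw [h4, hk, map_smul, iv_apply]
  congr 1
  show x + N x + N (x + N x) = x
  rw [map_add, el_sq' hN, add_zero, add_assoc, aav K, add_zero]

/-- Generation. -/
theorem rh_generate (hh : Herm h) (hstar : ∃ x : K, star x ≠ x) {j : ℕ} (hj : 2 ≤ j)
    (N₀ : El h j) : Subgroup.closure (Set.range (rh hh hstar (j := j))) = ⊤ := by
  have h1 : Subgroup.closure (Set.range (iv hh hstar (j := j))) = ⊤ := by
    rw [eq_top_iff]
    rintro ⟨g, hg⟩ -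
    have h2 := gen hh hstar hj N₀.2 hg
    have h3 : ∀ g' : V ≃ₗ[K] V, g' ∈ Subgroup.closure {g : V ≃ₗ[K] V |
        ∃ N₁ ∈ El h j, ∀ x, g x = x + N₁ x} →
        ∃ hg' : g' ∈ Gr h, (⟨g', hg'⟩ : Gr h) ∈ Subgroup.closure (Set.range (iv hh hstar (j := j))) := by
      intro g' hg'
      induction hg' using Subgroup.closure_induction with
      | mem x hx =>
        obtain ⟨N₁, hN₁, hx⟩ := hx
        have h4 : x = (iv hh hstar ⟨N₁, hN₁⟩ : V ≃ₗ[K] V) := LinearEquiv.ext hx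
        subst h4
        exact ⟨(iv hh hstar ⟨N₁, hN₁⟩).2, Subgroup.subset_closure ⟨⟨N₁, hN₁⟩, rfl⟩⟩
      | one => exact ⟨one_mem _, one_mem _⟩
      | mul x y _ _ hx hy =>
        obtain ⟨hx1, hx2⟩ := hx
        obtain ⟨hy1, hy2⟩ := hy
        exact ⟨mul_mem hx1 hy1, mul_mem hx2 hy2⟩
      | inv x _ hx =>
        obtain ⟨hx1, hx2⟩ := hx
        exact ⟨inv_mem hx1, inv_mem hx2⟩
    obtain ⟨_, h4⟩ := h3 g h2
    exact h4
  have h2 : Set.range (rh hh hstar (j := j)) =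
      (QuotientGroup.mk' (Subgroup.center (Gr h))) '' Set.range (iv hh hstar (j := j)) := by
    rw [← Set.range_comp]
    rfl
  rw [h2, ← MonoidHom.map_closure, h1]
  exact Subgroup.map_top_of_surjective _ (QuotientGroup.mk'_surjective _)

/-- The action on the class is faithful. -/
theorem faithful (hh : Herm h) (hstar : ∃ x : K, star x ≠ x) (hdim : 3 ≤ Module.finrank K V)
    {j : ℕ} (hj : 2 ≤ j) (N₀ : El h j) (g : Gr h ⧸ Subgroup.center (Gr h))
    (hg : ∀ N : El h j, g * rh hh hstar N * g⁻¹ = rh hh hstar N) : g = 1 := by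
  obtain ⟨A, rfl⟩ := QuotientGroup.mk_surjective g
  have h1 : ∀ N : El h j, A * iv hh hstar N = iv hh hstar N * A := by
    intro N
    have h2 := hg N
    rw [rh_conj] at h2
    have h3 := iv_conj hh hstar A N
    rw [rh_inj hh hstar hdim h2, mul_inv_eq_iff_eq_mul] at h3
    exact h3
  refine (QuotientGroup.eq_one_iff A).2 ?_
  rw [Subgroup.mem_center_iff]
  rintro ⟨B, hB⟩
  have h2 := gen hh hstar hj N₀.2 hB
  apply Subtype.ext
  show B * (A : V ≃ₗ[K] V) = (A : V ≃ₗ[K] V) * B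
  clear hB
  induction h2 using Subgroup.closure_induction with
  | mem x hx =>
    obtain ⟨N₁, hN₁, hx⟩ := hx
    have h4 : x = (iv hh hstar ⟨N₁, hN₁⟩ : V ≃ₗ[K] V) := LinearEquiv.ext hx
    rw [h4]
    exact (congrArg Subtype.val (h1 ⟨N₁, hN₁⟩)).symm
  | one => rw [one_mul, mul_one]
  | mul x y _ _ hx hy => rw [mul_assoc, hy, ← mul_assoc, hx, mul_assoc]
  | inv x _ hx => rw [inv_mul_eq_iff_eq_mul, ← mul_assoc, hx, mul_inv_cancel_right]

/-- Rank at least two. -/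
theorem large (hh : Herm h) (hstar : ∃ x : K, star x ≠ x) (hdim : 3 ≤ Module.finrank K V)
    {j : ℕ} (hj : 2 ≤ j) (N₀ : El h j)
    (τ : Equiv.Perm {b : Gr h ⧸ Subgroup.center (Gr h) // IsConj (rh hh hstar N₀) b})
    (hτ : ∀ x y, x ≠ y → orderOf ((τ x : Gr h ⧸ Subgroup.center (Gr h)) * τ y) =
      orderOf ((x : Gr h ⧸ Subgroup.center (Gr h)) * y)) :
    ∃ φ : MulAut (Gr h ⧸ Subgroup.center (Gr h)), ∀ x, φ x.1 = (τ x).1 := by
  classical
  have hVfin : Finite V := Module.finite_of_finite K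
  have hEfin : Finite (V ≃ₗ[K] V) :=
    Finite.of_injective (fun g : V ≃ₗ[K] V => (g : V → V)) DFunLike.coe_injective
  have hinj := rh_inj hh hstar hdim (j := j)
  let e : El h j ≃ {b : Gr h ⧸ Subgroup.center (Gr h) // IsConj (rh hh hstar N₀) b} :=
    Equiv.ofBijective (fun X => ⟨rh hh hstar X, (isConj_rh hh hstar N₀ _).2 ⟨X, rfl⟩⟩)
      ⟨fun X Y hXY => hinj (congrArg Subtype.val hXY), fun b => by
        obtain ⟨Y, hY⟩ := (isConj_rh hh hstar N₀ _).1 b.2
        exact ⟨Y, Subtype.ext hY⟩⟩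
  have he : ∀ X, ((e X : {b : Gr h ⧸ Subgroup.center (Gr h) // IsConj (rh hh hstar N₀) b}) :
      Gr h ⧸ Subgroup.center (Gr h)) = rh hh hstar X := fun X => rfl
  let T : Equiv.Perm (El h j) := (e.trans τ).trans e.symm
  have hT : ∀ X, rh hh hstar (T X) = (τ (e X)).1 := by
    intro X
    rw [← he]
    show (e (e.symm (τ (e X)))).1 = _
    rw [Equiv.apply_symm_apply]
  have hord : ∀ X Y : El h j,
      orderOf ((1 + ((T X : El h j) : Module.End K V)) * (1 + ((T Y : El h j) : Module.End K V))) =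
      orderOf ((1 + (X : Module.End K V)) * (1 + (Y : Module.End K V))) := by
    intro X Y
    by_cases hXY : X = Y
    · rw [hXY, one_add_sq (el_sq (T Y).2), one_add_sq (el_sq Y.2)]
    · rw [← order_rh hh hstar hdim, ← order_rh hh hstar hdim, hT, hT,
        hτ _ _ (fun hc => hXY (e.injective hc))]
      rfl
  let t : Module.End K V → Module.End K V := fun X =>
    if hX : X ∈ El h j then (T ⟨X, hX⟩ : Module.End K V) else 0
  let t' : Module.End K V → Module.End K V := fun X =>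
    if hX : X ∈ El h j then (T.symm ⟨X, hX⟩ : Module.End K V) else 0
  have ht : ∀ X : El h j, t X = T X := fun X => dif_pos X.2
  have ht' : ∀ X : El h j, t' X = T.symm X := fun X => dif_pos X.2
  have hP : Pres h j t :=
    { mem := fun X hX => by
        rw [show t X = (T ⟨X, hX⟩ : Module.End K V) from ht ⟨X, hX⟩]
        exact (T ⟨X, hX⟩).2
      ord := fun X hX Y hY m => by
        rw [show t X = (T ⟨X, hX⟩ : Module.End K V) from ht ⟨X, hX⟩,
          show t Y = (T ⟨Y, hY⟩ : Module.End K V) from ht ⟨Y, hY⟩,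
          ← orderOf_dvd_iff_pow_eq_one, ← orderOf_dvd_iff_pow_eq_one, hord] }
  have hP' : Pres h j t' :=
    { mem := fun X hX => by
        rw [show t' X = (T.symm ⟨X, hX⟩ : Module.End K V) from ht' ⟨X, hX⟩]
        exact (T.symm ⟨X, hX⟩).2
      ord := fun X hX Y hY m => by
        rw [show t' X = (T.symm ⟨X, hX⟩ : Module.End K V) from ht' ⟨X, hX⟩,
          show t' Y = (T.symm ⟨Y, hY⟩ : Module.End K V) from ht' ⟨Y, hY⟩,
          ← orderOf_dvd_iff_pow_eq_one, ← orderOf_dvd_iff_pow_eq_one, ← hord,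
          Equiv.apply_symm_apply, Equiv.apply_symm_apply] }
  have htt' : ∀ X ∈ El h j, t (t' X) = X := by
    intro X hX
    rw [show t' X = (T.symm ⟨X, hX⟩ : Module.End K V) from ht' ⟨X, hX⟩, ht,
      Equiv.apply_symm_apply]
  have ht't : ∀ X ∈ El h j, t' (t X) = X := by
    intro X hX
    rw [show t X = (T ⟨X, hX⟩ : Module.End K V) from ht ⟨X, hX⟩, ht', Equiv.symm_apply_apply]
  have hcj : ∀ X Y : El h j, (T (cj hh (iv hh hstar X) Y) : Module.End K V) =
      (cj hh (iv hh hstar (T X)) (T Y) : El h j) := by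
    have key : ∀ X Y : El h j, ((cj hh (iv hh hstar X) Y : El h j) : Module.End K V) =
        (1 + (X : Module.End K V)) * (Y : Module.End K V) * (1 + (X : Module.End K V)) := by
      intro X Y
      ext x
      show (iv hh hstar X : V ≃ₗ[K] V) ((Y : Module.End K V)
        (((iv hh hstar X : V ≃ₗ[K] V)⁻¹ : V ≃ₗ[K] V) x)) = _
      rw [← Subgroup.coe_inv, iv_inv]
      rfl
    intro X Y
    rw [key, ← ht, key, ← ht X, ← ht Y]
    exact conj_perm hh hstar hj hP hP' htt' ht't X.2 Y.2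
  obtain ⟨φ, hφ⟩ := Pool.Agent.Helper2.RO.extend (rh hh hstar (j := j)) hinj
    (fun g X => by
      obtain ⟨A, rfl⟩ := QuotientGroup.mk_surjective g
      exact ⟨_, rh_conj hh hstar A X⟩)
    (rh_generate hh hstar hj N₀) (faithful hh hstar hdim hj N₀) T (by
      intro x y z hz
      rw [show rh hh hstar x = (iv hh hstar x : Gr h ⧸ Subgroup.center (Gr h)) from rfl,
        rh_conj] at hz
      have h1 := hinj hz
      rw [show rh hh hstar (T x) = (iv hh hstar (T x) : Gr h ⧸ Subgroup.center (Gr h)) from rfl,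
        rh_conj, ← h1]
      congr 1
      exact Subtype.ext (hcj x y).symm)
  refine ⟨φ, ?_⟩
  intro x
  obtain ⟨X, rfl⟩ := e.surjective x
  rw [he, hφ, hT]

/-- Rank one elements are transvections. -/
theorem rank_one (hh : Herm h) (hstar : ∃ x : K, star x ≠ x)
    {b : Gr h ⧸ Subgroup.center (Gr h)} : (∃ N : El h 1, rh hh hstar N = b) ↔
      ∃ g : Gr h, (g : V ≃ₗ[K] V) ∈ Tvs h ∧ (g : Gr h ⧸ Subgroup.center (Gr h)) = b := by
  constructor
  · rintro ⟨N, rfl⟩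
    obtain ⟨u, hu1, hu2, hu3⟩ := frame hh hstar N.2
    refine ⟨iv hh hstar N, ⟨u 0, hu1.ne_zero 0, ?_, ?_⟩, rfl⟩
    · obtain ⟨w, hw⟩ := hu2 0
      rw [← hw]
      exact el_perp hh N.2 w w
    · intro x
      rw [iv_apply, hu3 x, Fin.sum_univ_one]
  · rintro ⟨g, ⟨u, hu1, hu2, hu3⟩, rfl⟩
    have hN : rk hh u u ∈ El h 1 := by
      refine ⟨⟨rk_sq hh hu2, ?_⟩, rk_sa hh u⟩
      have h1 : range (rk hh u u) = K ∙ u := by
        ext y
        rw [Submodule.mem_span_singleton]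
        constructor
        · rintro ⟨z, rfl⟩
          exact ⟨h z u, rfl⟩
        · rintro ⟨c, rfl⟩
          obtain ⟨z, hz⟩ : ∃ z, h z u ≠ 0 := by
            by_contra hcon
            push Not at hcon
            exact hu1 (hh.nondeg u fun y => hh.eq_zero_comm.1 (hcon y))
          refine ⟨(c / h z u) • z, ?_⟩
          rw [rk_apply, hh.smul, div_mul_cancel₀ _ hz]
      rw [h1, finrank_span_singleton hu1]
    refine ⟨⟨_, hN⟩, ?_⟩
    show ((iv hh hstar ⟨rk hh u u, hN⟩ : Gr h) : Gr h ⧸ Subgroup.center (Gr h)) = _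
    congr 1
    apply Subtype.ext
    apply LinearEquiv.ext
    intro x
    rw [iv_apply, hu3]
    rfl

/-- Q1 for all involution classes of the group generated by the unitary transvections modulo its
center, characteristic two, dimension at least three. -/
theorem all_classes {K V : Type*} [Field K] [Finite K] [CharP K 2] [StarRing K]
    (hstar : ∃ x : K, star x ≠ x) [AddCommGroup V] [Module K V] [FiniteDimensional K V]
    (h : V → V → K) (hh : Herm h) (hdim : 3 ≤ Module.finrank K V)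
    (hF : Module.finrank K V = 3 → ∃ b : K, star b = b ∧ b ≠ 0 ∧ b ≠ 1)
    (a : Gr h ⧸ Subgroup.center (Gr h)) (ha : orderOf a = 2)
    (τ : Equiv.Perm {b : Gr h ⧸ Subgroup.center (Gr h) // IsConj a b})
    (hτ : ∀ x y, x ≠ y → orderOf ((τ x : Gr h ⧸ Subgroup.center (Gr h)) * τ y) =
      orderOf ((x : Gr h ⧸ Subgroup.center (Gr h)) * y)) :
    ∃ φ : MulAut (Gr h ⧸ Subgroup.center (Gr h)),
      φ '' {b | IsConj a b} = {b | IsConj a b} ∧ ∀ x, φ x.1 = (τ x).1 := by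
  have key : ∃ φ : MulAut (Gr h ⧸ Subgroup.center (Gr h)), ∀ x, φ x.1 = (τ x).1 := by
    obtain ⟨j, hj, N₀, rfl⟩ := desc hh hstar hdim ha
    by_cases hj2 : 2 ≤ j
    · exact large hh hstar hdim hj2 N₀ τ hτ
    · have hj1 : j = 1 := by omega
      subst hj1
      obtain ⟨-, -, φ, -, hφ⟩ := final hstar h hh hdim hF {b | IsConj (rh hh hstar N₀) b}
        (fun b => by
          rw [Set.mem_ofPred_eq, isConj_rh, rank_one])
        τ (fun x y hxy => by
          have h1 := hτ x y hxy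
          exact ⟨by rw [h1], by rw [h1]⟩)
      exact ⟨φ, hφ⟩
  obtain ⟨φ, hφ⟩ := key
  refine ⟨φ, ?_, hφ⟩
  ext b
  constructor
  · rintro ⟨x, hx, rfl⟩
    rw [hφ ⟨x, hx⟩]
    exact (τ ⟨x, hx⟩).2
  · intro hb
    refine ⟨(τ.symm ⟨b, hb⟩).1, (τ.symm ⟨b, hb⟩).2, ?_⟩
    rw [hφ, Equiv.apply_symm_apply]

end Pool.Agent.Helper81.EU
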