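import Pool.Agent.Helper81.EU.Inv
import Pool.Agent.Helper81.EU.Exch

/-!
# Block EU-FX: inverse elements are preserved

`O3 R X` (`o3_of_inv`), so `O3 R (ψ X)` (`three'`, `Pres.ord` with `m = 3`, `ψ R = R`). `R ≠ ψ X`: otherwise `Pres.ord` with `m = 1` gives
`(1 + R) (1 + X) = 1`, so `X = R` and `R = R X R = 0`, but the rank is `j ≥ 1`. If `R (ψ X) R ≠ R` then `exchange` gives `R' ≠ R` with
the image of `R` and `O3 R' (ψ X)`. `ψ R' = R'`, so `O3 R' X`; the image of `R'` is the one of `R` and meets `ker X` in `0` (`R X R = R`), so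
`R' X R' = R'` (`inv_of_o3`) and `R' = R` (`inv_unique`), a contradiction. `inv_rank`.
-/

set_option autoImplicit false
set_option linter.unusedSectionVars false

open LinearMap

namespace Pool.Agent.Helper81.EU

open Pool.Agent.Helper81.UT Pool.Agent.Helper2.EV

variable {K V : Type*} [Field K] [StarRing K] [AddCommGroup V] [Module K V] [CharP K 2]
  [FiniteDimensional K V] {h : V → V → K}

theorem inv_fix (hh : Herm h) {j : ℕ} (hj : 1 ≤ j) {ψ : Module.End K V → Module.End K V}
    (hψ : Pres h j ψ) {R X : Module.End K V} (hR : R ∈ El h j) (hX : X ∈ El h j)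
    (hfix : ∀ R' ∈ El h j, range R' = range R → ψ R' = R') (hI : Inv R X) : Inv R (ψ X) := by
  have hψR : ψ R = R := hfix R hR rfl
  have hψX : ψ X ∈ El h j := hψ.mem X hX
  have hord3 : ∀ R' ∈ El h j, ψ R' = R' → (O3 R' (ψ X) ↔ O3 R' X) := by
    intro R' hR' h1
    have h2 := hψ.ord R' hR' X hX 3
    rw [h1, three' (el_sq hR') (el_sq hψX), three' (el_sq hR') (el_sq hX)] at h2
    exact h2
  have h3 : O3 R (ψ X) := (hord3 R hR hψR).2 (o3_of_inv hI)
  have hne : R ≠ ψ X := by
    intro he
    have h1 := hψ.ord R hR X hX 1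
    rw [pow_one, pow_one, hψR, ← he] at h1
    have h2 : (1 + R) * (1 + X) = 1 := h1.1 (one_add_sq (el_sq hR))
    have h4 : 1 + X = 1 + R := by
      have h5 : (1 + R) * ((1 + R) * (1 + X)) = (1 + R) * 1 := by rw [h2]
      rwa [← mul_assoc, one_add_sq (el_sq hR), one_mul, mul_one] at h5
    have h6 : X = R := add_left_cancel h4
    have h7 : R = 0 := by
      have h8 := hI.1
      rw [h6, el_sq hR, zero_mul] at h8
      exact h8.symm
    have h9 := hR.1.2
    rw [h7, LinearMap.range_zero, finrank_bot] at h9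
    omega
  by_cases hn : R * ψ X * R = R
  · exact inv_rank hR.1 hψX.1 hn
  · exfalso
    obtain ⟨R', hR', hr, hRne, h3'⟩ := exchange hh hR hψX h3 hne hn
    apply hRne
    refine inv_unique hh hR hR' hX.2 hr hI.1 (inv_of_o3 (el_sq hX) ?_ ?_)
    · rw [hr]
      exact hI.opp.2
    · exact (hord3 R' hR' (hfix R' hR' hr)).1 h3'

end Pool.Agent.Helper81.EU
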