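import Pool.Agent.Helper81.EU.Defs
import Pool.Agent.Helper81.UT.Quo

/-!
# Block EU-FR: `N` as a sum of rank one elements; `1 + N` is a product of transvections

`frame`: induction on `j`. `j = 0`: `N = 0`. Otherwise there is an `x` with `h (N x) x ≠ 0`: if `h (N z) z = 0` for all `z` then, polarizing,
`trc (c * h (N z) w) = 0` for all `c, z, w` (`star (h (N z) w) = h w (N z) = h (N w) z`), so `h (N z) w = 0` (`hstar`), `N = 0`. Scale `x`
(`nm_surj`, `star (h (N x) x) = h (N x) x`) such that `h (N x) x = 1`; `u = N x`, `N' = N + rk hh u u`. `N' x = u + h x u • u = 0`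
(`h x u = 1`), `N'` is self adjoint, `N' N' = 0` (`N u = 0`, `h (N z) u = 0`), `ker N' = ker N + K x`: `N' z = 0` gives
`N (z + h z u • x) = N z + h z u • u = 0`. So `N'` has rank `j - 1` and `range N' ≤ range N`. By induction `N' z = ∑ h z uᵢ • uᵢ` with independent
`uᵢ` in `range N'`; `u` is not in `range N'` (`h x u = 1`, `h x (N' z) = h (N' x) z = 0`). `Fin.cons u ...` (`linearIndependent_finCons`).
`ie_mem`: with the frame `u` of `N`, `1 + N` is the product of the transvections `1 + rk (uᵢ) (uᵢ)` (`rk uᵢ uᵢ * rk uₖ uₖ = 0`), and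
`uᵢ ≠ 0` is isotropic, so it is in `Gr h` (project UT). Another way: induction on `j` as in `frame`:
`(1 + N') (1 + rk hh u u) = 1 + N` (`N = N' + rk hh u u`, `N' u = 0`), for all `j`.
-/

set_option autoImplicit false
set_option linter.unusedSectionVars false

open LinearMap

namespace Pool.Agent.Helper81.EU

open Pool.Agent.Helper81.UT Pool.Agent.Helper2.EV

variable {K V : Type*} [Field K] [StarRing K] [AddCommGroup V] [Module K V] [CharP K 2]
  [FiniteDimensional K V] {h : V → V → K}

/-- `1 + N` as an element of the general linear group. -/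
def ie {N : Module.End K V} (hN : N * N = 0) : V ≃ₗ[K] V :=
  LinearEquiv.ofLinearMap (1 + N) (1 + N) (one_add_sq hN) (one_add_sq hN)

theorem ie_apply {N : Module.End K V} (hN : N * N = 0) (x : V) : ie hN x = x + N x := rfl

/-- An `x` with `h (N x) x = 1`. -/
private theorem exists_x51 [Finite K] (hh : Herm h) (hstar : ∃ x : K, star x ≠ x) {j : ℕ}
    {N : Module.End K V} (hN : N ∈ El h (j + 1)) : ∃ x : V, h (N x) x = 1 := by
  obtain ⟨x, hx⟩ : ∃ x : V, h (N x) x ≠ 0 := by
    by_contra hcon
    push Not at hcon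
    have h1 : ∀ z w, h (N z) w = 0 := by
      intro z w
      by_contra ha
      obtain ⟨y, hy⟩ := hstar
      apply hy
      have h2 : ∀ c : K, c * h (N w) z + star c * h (N z) w = 0 := by
        intro c
        have h3 := hcon (z + c • w)
        rw [map_add, map_smul, hh.add, hh.add_right, hh.add_right, hh.smul, hh.smul, hh.smul_right,
          hh.smul_right, hcon z, hcon w] at h3
        linear_combination h3
      have h4 : h (N w) z = star (h (N z) w) := by rw [hh.symm, el_adj hN]
      have h5 : star (h (N z) w) ≠ 0 := by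
        rw [Ne, star_eq_zero]
        exact ha
      have h6 := h2 (y / star (h (N z) w))
      rw [h4, div_mul_cancel₀ _ h5, star_div₀, star_star, div_mul_cancel₀ _ ha] at h6
      have h7 : trc y = 0 := h6
      exact trc_eq_zero.1 h7
    have h8 : N = 0 := by
      ext z
      exact hh.nondeg _ (h1 z)
    have h9 := hN.1.2
    rw [h8, LinearMap.range_zero, finrank_bot] at h9
    omega
  have hs : star (h (N x) x) = h (N x) x := by rw [hh.symm, el_adj hN]
  obtain ⟨c, hc⟩ := nm_surj (s := (h (N x) x)⁻¹) (by rw [star_inv₀, hs])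
  refine ⟨c • x, ?_⟩
  rw [map_smul, hh.smul, hh.smul_right, ← mul_assoc]
  rw [nm] at hc
  rw [hc, inv_mul_cancel₀ hx]

/-- The induction step. -/
private theorem step51 [Finite K] (hh : Herm h) (hstar : ∃ x : K, star x ≠ x) {j : ℕ}
    {N : Module.End K V} (hN : N ∈ El h (j + 1)) :
    ∃ u : V, Iso h u ∧ u ∈ range N ∧ N + rk hh u u ∈ El h j ∧ (N + rk hh u u) u = 0 ∧
      u ∉ range (N + rk hh u u) ∧ range (N + rk hh u u) ≤ range N := by
  obtain ⟨x, hx⟩ := exists_x51 hh hstar hN
  have hxu : h x (N x) = 1 := by rw [← el_adj hN, hx]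
  have huu : h (N x) (N x) = 0 := el_perp hh hN x x
  have hu0 : N x ≠ 0 := by
    intro h0
    rw [h0, hh.zero_left] at hx
    exact zero_ne_one hx
  have happ : ∀ z, (N + rk hh (N x) (N x)) z = N z + h z (N x) • N x := fun z => rfl
  have hSA : SA h (N + rk hh (N x) (N x)) := SA.add hh hN.2 (rk_sa hh _)
  have hNx : (N + rk hh (N x) (N x)) x = 0 := by
    rw [happ, hxu, one_smul, aav K]
  have hnot : ∀ c : K, c • N x ∈ range (N + rk hh (N x) (N x)) → c = 0 := by
    rintro c ⟨z, hz⟩
    have h1 : h x ((N + rk hh (N x) (N x)) z) = 0 := by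
      rw [← hSA, hNx, hh.zero_left]
    rw [hz, hh.smul_right, hxu, mul_one, star_eq_zero] at h1
    exact h1
  have hle : range (N + rk hh (N x) (N x)) ≤ range N := by
    rintro _ ⟨z, rfl⟩
    refine ⟨z + h z (N x) • x, ?_⟩
    rw [map_add, map_smul, happ]
  refine ⟨N x, ⟨hu0, huu⟩, ⟨x, rfl⟩, ⟨⟨?_, ?_⟩, hSA⟩, ?_, ?_, hle⟩
  · ext z
    show (N + rk hh (N x) (N x)) ((N + rk hh (N x) (N x)) z) = 0
    rw [happ z, happ, map_add, map_smul, el_sq' hN, el_sq' hN, hh.add, hh.smul, huu,
      el_perp hh hN]
    simp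
  · have h1 : range N = range (N + rk hh (N x) (N x)) ⊔ Submodule.span K {N x} := by
      apply le_antisymm
      · rintro _ ⟨z, rfl⟩
        have h2 : N z = (N + rk hh (N x) (N x)) z + h z (N x) • N x := by
          rw [happ, add_assoc, aav K, add_zero]
        rw [h2]
        exact Submodule.add_mem_sup ⟨z, rfl⟩
          (Submodule.smul_mem _ _ (Submodule.mem_span_singleton_self _))
      · refine sup_le hle ?_
        rw [Submodule.span_singleton_le_iff_mem]
        exact ⟨x, rfl⟩
    have h3 : range (N + rk hh (N x) (N x)) ⊓ Submodule.span K {N x} = ⊥ := by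
      rw [eq_bot_iff]
      rintro y ⟨hy1, hy2⟩
      obtain ⟨c, rfl⟩ := Submodule.mem_span_singleton.1 hy2
      rw [hnot c hy1, zero_smul]
      exact Submodule.zero_mem _
    have h4 := Submodule.finrank_sup_add_finrank_inf_eq (range (N + rk hh (N x) (N x)))
      (Submodule.span K {N x})
    rw [← h1, h3, finrank_bot, finrank_span_singleton hu0, hN.1.2] at h4
    omega
  · rw [happ, el_sq' hN, huu, zero_smul, add_zero]
  · intro h1
    exact one_ne_zero (hnot 1 (by rwa [one_smul]))

theorem frame [Finite K] (hh : Herm h) (hstar : ∃ x : K, star x ≠ x) {j : ℕ}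
    {N : Module.End K V} (hN : N ∈ El h j) :
    ∃ u : Fin j → V, LinearIndependent K u ∧ (∀ i, u i ∈ range N) ∧
      ∀ z, N z = ∑ i, h z (u i) • u i := by
  induction j generalizing N with
  | zero =>
    have h1 : range N = ⊥ := Submodule.finrank_eq_zero.1 hN.1.2
    refine ⟨Fin.elim0, linearIndependent_empty_type, fun i => i.elim0, fun z => ?_⟩
    rw [Finset.univ_eq_empty, Finset.sum_empty]
    have h2 : N z ∈ range N := ⟨z, rfl⟩
    rw [h1, Submodule.mem_bot] at h2
    exact h2
  | succ j ih =>
    obtain ⟨u, hu, huN, hN', -, hnot, hle⟩ := step51 hh hstar hN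
    obtain ⟨v, hv1, hv2, hv3⟩ := ih hN'
    refine ⟨Fin.cons u v, ?_, ?_, ?_⟩
    · rw [linearIndependent_finCons]
      refine ⟨hv1, fun h1 => hnot ?_⟩
      have h2 : Submodule.span K (Set.range v) ≤ range (N + rk hh u u) := by
        rw [Submodule.span_le]
        rintro _ ⟨i, rfl⟩
        exact hv2 i
      exact h2 h1
    · intro i
      refine Fin.cases ?_ (fun i => ?_) i
      · rw [Fin.cons_zero]
        exact huN
      · rw [Fin.cons_succ]
        exact hle (hv2 i)
    · intro z
      rw [Fin.sum_univ_succ, Fin.cons_zero]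
      simp only [Fin.cons_succ]
      rw [← hv3 z]
      show N z = h z u • u + (N z + h z u • u)
      rw [add_comm (N z), ← add_assoc, aav K, zero_add]

theorem ie_mem [Finite K] (hh : Herm h) (hstar : ∃ x : K, star x ≠ x) {j : ℕ}
    {N : Module.End K V} (hN : N ∈ El h j) : ie (el_sq hN) ∈ Gr h := by
  induction j generalizing N with
  | zero =>
    have h1 : range N = ⊥ := Submodule.finrank_eq_zero.1 hN.1.2
    have h2 : ie (el_sq hN) = 1 := by
      ext z
      rw [ie_apply]
      have h2 : N z ∈ range N := ⟨z, rfl⟩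
      rw [h1, Submodule.mem_bot] at h2
      rw [h2, add_zero]
      rfl
    rw [h2]
    exact Subgroup.one_mem _
  | succ j ih =>
    obtain ⟨u, hu, -, hN', hNu, -, -⟩ := step51 hh hstar hN
    have h1 : ie (el_sq hN) = ie (el_sq hN') * tv hh hu := by
      ext z
      rw [LinearEquiv.mul_apply, ie_apply, ie_apply, tv_apply, act, map_add, map_smul, hNu,
        smul_zero, add_zero]
      show z + N z = z + h z u • u + (N z + h z u • u)
      have h2 : z + h z u • u + (N z + h z u • u) = z + N z + (h z u • u + h z u • u) := by abel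
      rw [h2, aav K, add_zero]
    rw [h1]
    exact Subgroup.mul_mem _ (ih hN') (Subgroup.subset_closure (tv_mem_Tvs hh hu))

end Pool.Agent.Helper81.EU
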