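import Pool.Agent.Helper81.EU.Defs

/-!
# Block EU-GE: orthogonal spaces

`exists_mem_perp`: the linear map from `U` to `K^(dim A)`, `b ↦ (h b aᵢ)ᵢ` for a basis `aᵢ` of `A`, is not injective.
`exists_perp_not`: let `aᵢ` be a basis of `A`. The vectors `b, a₁, ..., a_d` are independent, so the linear map
`y ↦ (h y b, h y a₁, ..., h y a_d)` is onto (otherwise a nonzero functional `c` on `K^(d+1)` vanishes on the image:
`h y (star c₀ • b + ∑ star cᵢ • aᵢ) = 0` for all `y`, so the combination is `0`): there is a `z` orthogonal to `A` with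
`h z b = 1`. Choose `c` with `trc c = h z z` and `y = z + c • b` (`h b z = 1`, `h b b = 0`).
`two_hyp`: if `h y₀ b₁ ≠ 0` take `y₀`; if `h y₁ b₀ ≠ 0` take `y₁`. Otherwise `y = y₀ + c • y₁` with `c ≠ 0` and
`trc (star c * h y₀ y₁) = 0` (`c = 1` if `h y₀ y₁ = 0`, otherwise `c = star ((h y₀ y₁)⁻¹)`: `trc 1 = 0`).
-/

set_option autoImplicit false
set_option linter.unusedSectionVars false

open LinearMap

namespace Pool.Agent.Helper81.EU

open Pool.Agent.Helper81.UT Pool.Agent.Helper2.EV

variable {K V : Type*} [Field K] [StarRing K] [AddCommGroup V] [Module K V] [CharP K 2] [Finite K]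
  [FiniteDimensional K V] {h : V → V → K}

/-- `z ↦ h z a` -/
private def fl58 (hh : Herm h) (a : V) : V →ₗ[K] K where
  toFun z := h z a
  map_add' x y := hh.add x y a
  map_smul' c x := by rw [hh.smul, RingHom.id_apply, smul_eq_mul]

private theorem fl58_apply (hh : Herm h) (a z : V) : fl58 hh a z = h z a := rfl

/-- The vectors `a` with `h b a = 0`. -/
private def pr58 (hh : Herm h) (b : V) : Submodule K V where
  carrier := {a | h b a = 0}
  zero_mem' := hh.zero_right b
  add_mem' := by
    intro x y hx hy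
    show h b (x + y) = 0
    rw [hh.add_right, show h b x = 0 from hx, show h b y = 0 from hy, add_zero]
  smul_mem' := by
    intro c x hx
    show h b (c • x) = 0
    rw [hh.smul_right, show h b x = 0 from hx, mul_zero]

theorem exists_mem_perp (hh : Herm h) {A U : Submodule K V}
    (hd : Module.finrank K A < Module.finrank K U) : ∃ b ∈ U, b ≠ 0 ∧ ∀ a ∈ A, h b a = 0 := by
  obtain ⟨e, he⟩ : ∃ e, e = Module.finBasis K A := ⟨_, rfl⟩
  let f : U →ₗ[K] (Fin (Module.finrank K A) → K) :=
    LinearMap.pi fun i => (fl58 hh ((e i : A) : V)).comp U.subtype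
  have hlt : Module.finrank K (Fin (Module.finrank K A) → K) < Module.finrank K U := by
    rwa [Module.finrank_fin_fun]
  obtain ⟨b, hb, hb0⟩ := Submodule.exists_mem_ne_zero_of_ne_bot
    (LinearMap.ker_ne_bot_of_finrank_lt (f := f) hlt)
  refine ⟨b, b.2, fun h0 => hb0 (Subtype.ext h0), ?_⟩
  have h1 : ∀ i, h (b : V) ((e i : A) : V) = 0 := fun i => congrFun (LinearMap.mem_ker.1 hb) i
  have h2 : A ≤ pr58 hh (b : V) := by
    intro a ha
    have h3 := congrArg (fun x : A => (x : V)) (e.sum_repr ⟨a, ha⟩)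
    simp only [Submodule.coe_sum, Submodule.coe_smul] at h3
    rw [← h3]
    exact Submodule.sum_mem _ fun i _ => Submodule.smul_mem _ _ (h1 i)
  exact fun a ha => h2 ha

theorem exists_perp_not (hh : Herm h) (hstar : ∃ x : K, star x ≠ x) {A : Submodule K V} {b : V}
    (hb : ∀ a ∈ A, h b a = 0) (hbb : h b b = 0) (hbA : b ∉ A) :
    ∃ y, (∀ a ∈ A, h y a = 0) ∧ h y y = 0 ∧ h y b = 1 := by
  obtain ⟨z, hz, hzb⟩ : ∃ z, (∀ a ∈ A, h z a = 0) ∧ h z b ≠ 0 := by
    by_contra hcon
    push Not at hcon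
    obtain ⟨e, he⟩ : ∃ e, e = Module.finBasis K A := ⟨_, rfl⟩
    have h1 : fl58 hh b ∈ Submodule.span K
        (Set.range fun i => fl58 hh ((e i : A) : V)) := by
      apply mem_span_of_iInf_ker_le_ker
      intro z hz
      rw [Submodule.mem_iInf] at hz
      rw [LinearMap.mem_ker, fl58_apply]
      apply hcon
      intro a ha
      have h2 : A ≤ pr58 hh z := by
        intro a ha
        have h3 := congrArg (fun x : A => (x : V)) (e.sum_repr ⟨a, ha⟩)
        simp only [Submodule.coe_sum, Submodule.coe_smul] at h3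
        rw [← h3]
        exact Submodule.sum_mem _ fun i _ => Submodule.smul_mem _ _ (LinearMap.mem_ker.1 (hz i))
      exact h2 ha
    obtain ⟨c, hc⟩ := (Submodule.mem_span_range_iff_exists_fun K).1 h1
    apply hbA
    have h2 : b = ∑ i, star (c i) • ((e i : A) : V) := by
      apply ext_left hh
      intro z
      rw [← hh.symm z b, ← hh.symm z (∑ i, star (c i) • ((e i : A) : V))]
      congr 1
      have h3 := LinearMap.congr_fun hc z
      rw [LinearMap.sum_apply] at h3
      simp only [LinearMap.smul_apply, fl58_apply, smul_eq_mul] at h3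
      rw [← h3]
      have h4 : ∀ (s : Finset (Fin (Module.finrank K A))),
          h z (∑ i ∈ s, star (c i) • ((e i : A) : V)) = ∑ i ∈ s, c i * h z ((e i : A) : V) := by
        intro s
        classical
        induction s using Finset.induction_on with
        | empty => simp [hh.zero_right]
        | insert i s hi ih =>
          rw [Finset.sum_insert hi, Finset.sum_insert hi, hh.add_right, ih, hh.smul_right,
            star_star]
      exact (h4 Finset.univ).symm
    rw [h2]
    exact Submodule.sum_mem _ fun i _ => Submodule.smul_mem _ _ (e i).2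
  obtain ⟨z', hz'⟩ : ∃ z', z' = (h z b)⁻¹ • z := ⟨_, rfl⟩
  have h1 : h z' b = 1 := by rw [hz', hh.smul, inv_mul_cancel₀ hzb]
  have h1' : h b z' = 1 := by rw [← hh.symm, h1, star_one]
  have h2 : ∀ a ∈ A, h z' a = 0 := fun a ha => by rw [hz', hh.smul, hz a ha, mul_zero]
  obtain ⟨c, hc⟩ := trc_surj hstar (hh.self z')
  refine ⟨z' + c • b, fun a ha => ?_, ?_, ?_⟩
  · rw [hh.add, hh.smul, h2 a ha, hb a ha, mul_zero, add_zero]
  · rw [hh.add, hh.add_right, hh.add_right, hh.smul, hh.smul, hh.smul_right, hh.smul_right, h1,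
      h1', hbb, ← hc, trc]
    have h3 : (2 : K) = 0 := CharP.cast_eq_zero K 2
    linear_combination (c + star c) * h3
  · rw [hh.add, hh.smul, h1, hbb, mul_zero, add_zero]

theorem two_hyp (hh : Herm h) {Z : Submodule K V} {y₀ y₁ b₀ b₁ : V} (h0 : y₀ ∈ Z)
    (h0' : h y₀ y₀ = 0) (h1 : y₁ ∈ Z) (h1' : h y₁ y₁ = 0) (h2 : h y₀ b₀ ≠ 0) (h3 : h y₁ b₁ ≠ 0) :
    ∃ y ∈ Z, h y y = 0 ∧ h y b₀ ≠ 0 ∧ h y b₁ ≠ 0 := by
  by_cases h4 : h y₀ b₁ = 0
  · by_cases h5 : h y₁ b₀ = 0
    · obtain ⟨c, hc, hc'⟩ : ∃ c : K, c ≠ 0 ∧ trc (star c * h y₀ y₁) = 0 := by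
        have h6 : (2 : K) = 0 := CharP.cast_eq_zero K 2
        by_cases h7 : h y₀ y₁ = 0
        · exact ⟨1, one_ne_zero, by rw [h7, mul_zero, trc, star_zero, add_zero]⟩
        · refine ⟨star (h y₀ y₁)⁻¹, ?_, ?_⟩
          · rw [Ne, star_eq_zero]
            exact inv_ne_zero h7
          · rw [star_star, inv_mul_cancel₀ h7, trc, star_one]
            linear_combination h6
      refine ⟨y₀ + c • y₁, Z.add_mem h0 (Z.smul_mem _ h1), ?_, ?_, ?_⟩
      · rw [hh.add, hh.add_right, hh.add_right, hh.smul, hh.smul, hh.smul_right, hh.smul_right,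
          h0', h1', ← hh.symm y₀ y₁]
        rw [trc, star_mul, star_star] at hc'
        linear_combination hc'
      · rw [hh.add, hh.smul, h5, mul_zero, add_zero]
        exact h2
      · rw [hh.add, hh.smul, h4, zero_add]
        exact mul_ne_zero hc h3
    · exact ⟨y₁, h1, h1', h5, h3⟩
  · exact ⟨y₀, h0, h0', h2, h4⟩

end Pool.Agent.Helper81.EU
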