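import Pool.Agent.Helper81.EU.OrdT

/-!
# Block EU-IA: inverse and opposite elements

`inv_rank`: `range (M N) ≤ range M` and both have dimension `j` (`N M N = N`, so `rank (M N) ≥ rank N`), so every `M x` is `M N y` for
some `y` and `M N M x = M (N M N) y = M N y = M x`.
`inv_unique`: `R' x = R w` for some `w`, so `R X R' x = R X R w = R' x`: `R X R' = R'`. In the same way `R' X R = R`. Take adjoints of
the first: `h (R' x) y = h (R X R' x) y = h x (R' X R y) = h x (R y) = h (R x) y` (`ext_left`).
`inv_of_o3`: for `z` let `e = R X R z + R z = X R X z + X z`; `e` is in the image of `R` and `X e = 0`, so `e = 0`.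
`opp_of_disj`: `M N` has rank `j` (`M` is injective on the image of `N`), so `range (M N) = range M`. If `N (M z) = 0` then
`h (M z) (N w) = 0` for all `w`, `h z (M N w) = 0`, so `h z (M w') = 0` for all `w'` and `M z = 0` (`ker_of`).
-/

set_option autoImplicit false
set_option linter.unusedSectionVars false

open LinearMap

namespace Pool.Agent.Helper81.EU

open Pool.Agent.Helper81.UT Pool.Agent.Helper2.EV

variable {K V : Type*} [Field K] [StarRing K] [AddCommGroup V] [Module K V] [CharP K 2]
  [FiniteDimensional K V] {h : V → V → K}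

theorem inv_rank {j : ℕ} {N M : Module.End K V} (hN : N ∈ Sq K V j) (hM : M ∈ Sq K V j)
    (h1 : N * M * N = N) : Inv N M := by
  refine ⟨h1, ?_⟩
  have h1' : ∀ x, N (M (N x)) = N x := fun x => LinearMap.congr_fun h1 x
  have hle : range (M * N) ≤ range M := by
    rintro _ ⟨x, rfl⟩
    exact ⟨N x, rfl⟩
  have hmap : range N ≤ Submodule.map N (range (M * N)) := by
    rintro _ ⟨x, rfl⟩
    exact ⟨M (N x), ⟨x, rfl⟩, h1' x⟩
  have hr1 : Module.finrank K (range N) ≤ Module.finrank K (range (M * N)) :=
    (Submodule.finrank_mono hmap).trans (Submodule.finrank_map_le N (range (M * N)))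
  have heq : range (M * N) = range M :=
    Submodule.eq_of_le_of_finrank_le hle (by rw [hM.2, ← hN.2]; exact hr1)
  ext x
  show M (N (M x)) = M x
  have hx : M x ∈ range (M * N) := by
    rw [heq]
    exact ⟨x, rfl⟩
  obtain ⟨y, hy⟩ := hx
  have hy' : M (N y) = M x := hy
  rw [← hy', h1']

theorem inv_unique (hh : Herm h) {j : ℕ} {R R' X : Module.End K V} (hR : R ∈ El h j)
    (hR' : R' ∈ El h j) (hX : SA h X) (hr : range R' = range R) (h1 : R * X * R = R)
    (h2 : R' * X * R' = R') : R' = R := by
  have h1' : ∀ x, R (X (R x)) = R x := fun x => LinearMap.congr_fun h1 x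
  have h2' : ∀ x, R' (X (R' x)) = R' x := fun x => LinearMap.congr_fun h2 x
  have ha : ∀ x, R (X (R' x)) = R' x := by
    intro x
    have hx : R' x ∈ range R := by
      rw [← hr]
      exact ⟨x, rfl⟩
    obtain ⟨w, hw⟩ := hx
    rw [← hw, h1']
  have hb : ∀ x, R' (X (R x)) = R x := by
    intro x
    have hx : R x ∈ range R' := by
      rw [hr]
      exact ⟨x, rfl⟩
    obtain ⟨w, hw⟩ := hx
    rw [← hw, h2']
  ext x
  apply ext_left hh
  intro y
  rw [← ha x, el_adj hR, hX, el_adj hR', hb, ← el_adj hR]

theorem inv_of_o3 {R X : Module.End K V} (hX : X * X = 0)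
    (hd : Disjoint (range R) (ker X)) (h3 : O3 R X) : R * X * R = R := by
  have hX' : ∀ z, X (X z) = 0 := fun z => LinearMap.congr_fun hX z
  have h3' : ∀ z, R (X (R z)) + R z = X (R (X z)) + X z := fun z => LinearMap.congr_fun h3.2 z
  ext z
  show R (X (R z)) = R z
  have hmem : R (X (R z)) + R z ∈ range R := ⟨X (R z) + z, map_add R _ _⟩
  have hker : R (X (R z)) + R z ∈ ker X := by
    rw [LinearMap.mem_ker, h3' z, map_add, hX', hX', add_zero]
  have h0 : R (X (R z)) + R z = 0 := Submodule.disjoint_def.1 hd _ hmem hker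
  calc R (X (R z)) = R (X (R z)) + (R z + R z) := by rw [aav K (R z), add_zero]
    _ = (R (X (R z)) + R z) + R z := by rw [add_assoc]
    _ = R z := by rw [h0, zero_add]

theorem opp_of_disj (hh : Herm h) {j : ℕ} {N M : Module.End K V} (hN : N ∈ El h j)
    (hM : M ∈ El h j) (hd : Disjoint (range N) (ker M)) : Opp N M := by
  refine ⟨?_, hd⟩
  have hle : range (M * N) ≤ range M := by
    rintro _ ⟨x, rfl⟩
    exact ⟨N x, rfl⟩
  -- the restriction of `M` to the image of `N` is injective
  have hinj : Function.Injective (M.domRestrict (range N)) := by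
    rw [← LinearMap.ker_eq_bot, LinearMap.ker_eq_bot']
    intro m hm
    have h1 : (m : V) ∈ ker M := hm
    have h2 := Submodule.disjoint_def.1 hd _ m.2 h1
    exact Subtype.ext h2
  have hrank : Module.finrank K (range (M.domRestrict (range N))) = j := by
    rw [LinearMap.finrank_range_of_inj hinj, hN.1.2]
  have hsub : range (M.domRestrict (range N)) ≤ range (M * N) := by
    rintro _ ⟨⟨m, x, rfl⟩, rfl⟩
    exact ⟨x, rfl⟩
  have heq : range (M * N) = range M :=
    Submodule.eq_of_le_of_finrank_le hle (by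
      rw [hM.1.2, ← hrank]
      exact Submodule.finrank_mono hsub)
  rw [Submodule.disjoint_def]
  rintro _ ⟨z, rfl⟩ hz
  rw [LinearMap.mem_ker] at hz
  apply ker_of hh hM
  intro y
  have hy : M y ∈ range (M * N) := by
    rw [heq]
    exact ⟨y, rfl⟩
  obtain ⟨w, hw⟩ := hy
  have hw' : M (N w) = M y := hw
  rw [← hw', ← el_adj hM, ← el_adj hN, hz, hh.zero_left]

end Pool.Agent.Helper81.EU
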