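import Pool.Agent.Helper81.EU.Defs

/-!
# Block EU-HS: isotropic vectors in a hermitian space of dimension at least two

Let `u`, `v` be a hyperbolic pair (`exists_iso`, `exists_pair` of project UT: `h u v = 1`, so `h v u = 1`). Every `x` is
`h x v • u + h x u • v + w` with `w` orthogonal to `u`, `v` (`decomp`). For such a `w` choose `c` with `trc c = h w w` (`trc_surj`,
`hh.self`): `w + c • u + v` and `w + (c + 1) • u + v` are isotropic (characteristic two, `trc 1 = 0`).
`span_iso`: `u`, `v`, `w + c • u + v` are in `S`.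
`eigen`: let `T u = a • u`, `T v = b • v`; `u + v` is isotropic (`h (u + v) (u + v) = 1 + 1 = 0`), `T (u + v) = d • (u + v)`, so `a = d = b`
(`u`, `v` independent). For `w` orthogonal to `u`, `v`: `T w = g • (w + c • u + v) - a • (c • u + v)` and
`T w = g' • (w + (c + 1) • u + v) - a • ((c + 1) • u + v)`; compare the products with `u`: `g = g'`, and with `v`: `g = a`. So `T w = a • w`.
-/

set_option autoImplicit false
set_option linter.unusedSectionVars false

open LinearMap

namespace Pool.Agent.Helper81.EU

open Pool.Agent.Helper81.UT Pool.Agent.Helper2.EV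

variable {K V : Type*} [Field K] [StarRing K] [AddCommGroup V] [Module K V] [CharP K 2] [Finite K]
  [FiniteDimensional K V] {h : V → V → K}

private theorem iso45 (hh : Herm h) {u v w : V} (hu : Iso h u) (hv : Iso h v) (huv : h u v = 1)
    (hwu : h w u = 0) (hwv : h w v = 0) {c : K} (hc : trc c = h w w) :
    h (w + c • u + v) (w + c • u + v) = 0 := by
  have hvu : h v u = 1 := by rw [← hh.symm, huv, star_one]
  have huw : h u w = 0 := hh.eq_zero_comm.1 hwu
  have hvw : h v w = 0 := hh.eq_zero_comm.1 hwv
  have e : h (w + c • u + v) (w + c • u + v) = h w w + trc c := by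
    rw [hh.add, hh.add, hh.add_right, hh.add_right, hh.add_right, hh.add_right, hh.add_right,
      hh.add_right, hh.smul, hh.smul, hh.smul, hh.smul_right, hh.smul_right, hh.smul_right, hu.2, hv.2,
      huv, hvu, huw, hvw, hwu, hwv, trc]
    ring
  rw [e, hc]
  exact CharTwo.add_self_eq_zero _

private theorem trc_add45 (c : K) : trc (c + 1) = trc c := by
  have h2 : (1 : K) + 1 = 0 := CharTwo.add_self_eq_zero 1
  rw [trc, trc, star_add, star_one]
  linear_combination h2

theorem span_iso (hh : Herm h) (hstar : ∃ x : K, star x ≠ x) (hdim : 2 ≤ Module.finrank K V)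
    (S : Submodule K V) (H : ∀ v, h v v = 0 → v ∈ S) (v : V) : v ∈ S := by
  obtain ⟨u, hu⟩ := exists_iso hh hstar hdim
  obtain ⟨u', hu', huu⟩ := exists_pair hh hstar hu
  obtain ⟨w, hwu, hwv, hw⟩ := decomp hh hu hu' huu v
  obtain ⟨c, hc⟩ := trc_surj hstar (hh.self w)
  have h1 := H _ hu.2
  have h2 := H _ hu'.2
  have h3 := H _ (iso45 hh hu hu' huu hwu hwv hc)
  have h4 : w = w + c • u + u' - c • u - u' := by module
  have h5 : w ∈ S := by
    rw [h4]
    exact S.sub_mem (S.sub_mem h3 (S.smul_mem _ h1)) h2
  rw [hw]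
  exact S.add_mem (S.add_mem (S.smul_mem _ h1) (S.smul_mem _ h2)) h5

theorem eigen (hh : Herm h) (hstar : ∃ x : K, star x ≠ x) (hdim : 2 ≤ Module.finrank K V)
    (T : Module.End K V) (H : ∀ v, h v v = 0 → ∃ c : K, T v = c • v) :
    ∃ c : K, ∀ v, T v = c • v := by
  obtain ⟨u, hu⟩ := exists_iso hh hstar hdim
  obtain ⟨v, hv, huv⟩ := exists_pair hh hstar hu
  have hvu : h v u = 1 := by rw [← hh.symm, huv, star_one]
  obtain ⟨a, ha⟩ := H u hu.2
  obtain ⟨b, hb⟩ := H v hv.2
  obtain ⟨d, hd⟩ := H (u + v) (by
    rw [hh.add, hh.add_right, hh.add_right, hu.2, hv.2, huv, hvu, zero_add, add_zero]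
    exact CharTwo.add_self_eq_zero _)
  rw [map_add, ha, hb] at hd
  have h1 : a = d := by
    have := congrArg (fun x => h x v) hd
    simp only [hh.add, hh.smul, hv.2, huv] at this
    linear_combination this
  have h2 : b = d := by
    have := congrArg (fun x => h x u) hd
    simp only [hh.add, hh.smul, hu.2, hvu] at this
    linear_combination this
  have hb' : T v = a • v := by rw [hb, h2, h1]
  have key : ∀ w, h w u = 0 → h w v = 0 → T w = a • w := by
    intro w hwu hwv
    obtain ⟨c, hc⟩ := trc_surj hstar (hh.self w)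
    obtain ⟨g, hg⟩ := H _ (iso45 hh hu hv huv hwu hwv hc)
    obtain ⟨g', hg'⟩ := H _ (iso45 hh hu hv huv hwu hwv ((trc_add45 c).trans hc))
    rw [map_add, map_add, map_smul, ha, hb'] at hg hg'
    have e : a • u = (g' - g) • w + (g' * (c + 1) - g * c) • u + (g' - g) • v := by
      have e1 : T w + (c + 1) • a • u + a • v - (T w + c • a • u + a • v) = a • u := by module
      rw [← e1, hg, hg']
      module
    have h3 : g' = g := by
      have := congrArg (fun x => h x u) e
      simp only [hh.add, hh.smul, hu.2, hvu, hwu] at this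
      linear_combination -this
    have h4 : a = g := by
      have := congrArg (fun x => h x v) e
      simp only [hh.add, hh.smul, hv.2, huv, hwv, h3] at this
      linear_combination this
    have e2 : T w = g • (w + c • u + v) - c • a • u - a • v := by
      rw [← hg]
      module
    rw [e2, ← h4]
    module
  refine ⟨a, fun x => ?_⟩
  obtain ⟨w, hwu, hwv, hw⟩ := decomp hh hu hv huv x
  have hT : T x = h x v • a • u + h x u • a • v + a • w := by
    conv_lhs => rw [hw]
    rw [map_add, map_add, map_smul, map_smul, ha, hb', key w hwu hwv]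
  rw [hT]
  conv_rhs => rw [hw]
  module

end Pool.Agent.Helper81.EU
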