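import Pool.Agent.Helper81.EU.Fin
import Pool.Agent.Helper92.UN.Psu

/-!
# Project EU: `PSU(n, q)`, `q` even, in terms of matrices

`SU` is `Matrix.specialUnitaryGroup ι K`, acting on `ι → K` (`rhoSU`); `fm` is the standard form. If
`PSU` is simple, it is isomorphic to the group `Gr` generated by the transvections modulo its center.
-/

set_option autoImplicit false

open Matrix

namespace Pool.Agent.Helper81.EU

open Pool.Agent.Helper81.UT Pool.Agent.Helper92.UN

/-- The property of Q1. -/
def Good (L : Type*) [Group L] : Prop :=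
  ∀ a : L, orderOf a = 2 → ∀ τ : Equiv.Perm {b : L // IsConj a b},
    (∀ x y, x ≠ y → orderOf ((τ x : L) * τ y) = orderOf ((x : L) * y)) →
    ∃ φ : MulAut L, φ '' {b | IsConj a b} = {b | IsConj a b} ∧ ∀ x, φ x.1 = (τ x).1

/-- The property does not change under isomorphisms. -/
theorem Good.congr {L M : Type*} [Group L] [Group M] (e : L ≃* M) (H : Good L) : Good M := by
  intro a ha τ hτ
  have hc : ∀ b : L, IsConj (e.symm a) b ↔ IsConj a (e b) := by
    intro b
    constructor
    · intro h
      have h1 := MonoidHom.map_isConj e.toMonoidHom h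
      have h2 : e.toMonoidHom (e.symm a) = a := e.apply_symm_apply a
      rw [h2] at h1
      exact h1
    · intro h
      have h1 := MonoidHom.map_isConj e.symm.toMonoidHom h
      have h2 : e.symm.toMonoidHom (e b) = b := e.symm_apply_apply b
      rw [h2] at h1
      exact h1
  let f : {b : L // IsConj (e.symm a) b} ≃ {b : M // IsConj a b} :=
    e.toEquiv.subtypeEquiv hc
  have hf : ∀ x, (f x).1 = e x.1 := fun _ => rfl
  have hfs : ∀ x, (f.symm x).1 = e.symm x.1 := fun _ => rfl
  have ha' : orderOf (e.symm a) = 2 := by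
    rw [MulEquiv.orderOf_eq]
    exact ha
  obtain ⟨φ, -, hφ⟩ := H (e.symm a) ha' ((f.trans τ).trans f.symm) (by
    intro x y hxy
    have h1 := hτ (f x) (f y) fun h => hxy (f.injective h)
    have h2 : (((f.trans τ).trans f.symm) x : L) * ((f.trans τ).trans f.symm) y =
        e.symm ((τ (f x) : M) * τ (f y)) := by
      rw [map_mul]
      rfl
    rw [h2, MulEquiv.orderOf_eq, h1, hf, hf, ← map_mul, MulEquiv.orderOf_eq])
  have hφ' : ∀ x : {b : M // IsConj a b}, ((e.symm.trans φ).trans e) x.1 = (τ x).1 := by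
    intro x
    have h1 := hφ (f.symm x)
    have h2 : ((f.trans τ).trans f.symm) (f.symm x) = f.symm (τ x) := by
      show f.symm (τ (f (f.symm x))) = _
      rw [Equiv.apply_symm_apply]
    rw [h2, hfs, hfs] at h1
    show e (φ (e.symm x.1)) = _
    rw [h1, MulEquiv.apply_symm_apply]
  refine ⟨(e.symm.trans φ).trans e, ?_, hφ'⟩
  ext b
  constructor
  · rintro ⟨x, hx, rfl⟩
    rw [hφ' ⟨x, hx⟩]
    exact (τ ⟨x, hx⟩).2
  · intro hb
    refine ⟨(τ.symm ⟨b, hb⟩).1, (τ.symm ⟨b, hb⟩).2, ?_⟩
    rw [hφ', Equiv.apply_symm_apply]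

variable {K : Type*} [Field K] [StarRing K] {ι : Type*} [Fintype ι] [DecidableEq ι]

/-- The matrix of a transvection. -/
def mtv (u : ι → K) : Matrix ι ι K := 1 + vecMulVec u (star u)

theorem mtv_mulVec (u x : ι → K) : mtv u *ᵥ x = x + fm K ι x u • u := by
  rw [mtv, add_mulVec, one_mulVec, vecMulVec_mulVec, fm, dotProduct_comm x]
  congr 1
  ext i
  simp only [Pi.smul_apply, MulOpposite.smul_eq_mul_unop, MulOpposite.unop_op, smul_eq_mul]
  ring

theorem mtv_mem [CharP K 2] {u : ι → K} (hu : fm K ι u u = 0) :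
    mtv u ∈ Matrix.specialUnitaryGroup ι K := by
  have h1 : star u ⬝ᵥ u = 0 := by
    rw [dotProduct_comm]
    exact hu
  rw [Matrix.mem_specialUnitaryGroup_iff]
  constructor
  · rw [Matrix.mem_unitaryGroup_iff]
    obtain ⟨E, hE⟩ : ∃ E : Matrix ι ι K, E = vecMulVec u (star u) := ⟨_, rfl⟩
    have hEE : E * E = 0 := by
      rw [hE, Pool.Agent.Helper2.RO.mul_eq, h1, zero_smul]
    have hEs : star E = E := by
      rw [hE, star_eq_conjTranspose, conjTranspose_vecMulVec, star_star]
    rw [mtv, ← hE, star_add, star_one, hEs, add_mul, mul_add, mul_add, hEE, one_mul, one_mul,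
      mul_one, add_zero, add_assoc, ← two_smul K E, CharTwo.two_eq_zero, zero_smul, add_zero]
  · rw [mtv, vecMulVec_eq (Fin 1), det_one_add_replicateCol_mul_replicateRow, h1, add_zero]

variable [Finite K] [CharP K 2]

/-- The representation is faithful. -/
theorem rhoSU_inj : Function.Injective (rhoSU : SU ι K →* ((ι → K) ≃ₗ[K] (ι → K))) := by
  intro A B hAB
  apply Subtype.ext
  apply mat_ext
  intro x
  have h1 := LinearEquiv.congr_fun hAB x
  exact h1

omit [Finite K] in
theorem Gr_le_range : Gr (fm K ι) ≤ (rhoSU : SU ι K →* ((ι → K) ≃ₗ[K] (ι → K))).range := by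
  refine (Subgroup.closure_le _).2 ?_
  rintro g ⟨u, hu0, hu, hgx⟩
  refine ⟨⟨mtv u, mtv_mem hu⟩, ?_⟩
  apply LinearEquiv.ext
  intro x
  rw [hgx]
  exact mtv_mulVec u x

omit [Finite K] in
/-- `Gr` is normalized by the isometries. -/
theorem Gr_conj (A : SU ι K) {g : (ι → K) ≃ₗ[K] (ι → K)} (hg : g ∈ Gr (fm K ι)) :
    rhoSU A * g * (rhoSU A)⁻¹ ∈ Gr (fm K ι) := by
  have h1 : Gr (fm K ι) ≤ (Gr (fm K ι)).comap (MulAut.conj (rhoSU A)).toMonoidHom := by
    refine (Subgroup.closure_le _).2 ?_
    rintro t ⟨u, hu0, hu, htx⟩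
    show rhoSU A * t * (rhoSU A)⁻¹ ∈ Gr (fm K ι)
    apply Subgroup.subset_closure
    refine ⟨rhoSU A u, ?_, by rw [iso_rhoSU, hu], ?_⟩
    · intro h0
      exact hu0 ((LinearEquiv.map_eq_zero_iff _).1 h0)
    · intro x
      obtain ⟨y, rfl⟩ := (rhoSU A).surjective x
      have h2 : (rhoSU A)⁻¹ (rhoSU A y) = y := (rhoSU A).symm_apply_apply y
      show rhoSU A (t ((rhoSU A)⁻¹ (rhoSU A y))) = _
      rw [h2, htx, map_add, map_smul, iso_rhoSU]
  exact h1 hg

/-- An element of `SU` which commutes with the transvections is central. -/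
theorem central_of_comm (hstar : ∃ x : K, star x ≠ x) (hn : 3 ≤ Fintype.card ι) {A : SU ι K}
    (hA : ∀ g ∈ Gr (fm K ι), rhoSU A * g = g * rhoSU A) : A ∈ Subgroup.center (SU ι K) := by
  have hh : Herm (fm K ι) := herm_fm
  apply scalar_central
  obtain ⟨m, -, hm⟩ := scalar hh hstar (by rw [Module.finrank_fintype_fun_eq_card]; exact hn)
    (rhoSU A) (iso_rhoSU A) (fun u hu => by
      have hAu : Iso (fm K ι) (rhoSU A u) :=
        ⟨fun h0 => hu.1 ((LinearEquiv.map_eq_zero_iff _).1 h0), by rw [iso_rhoSU, hu.2]⟩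
      rw [← tv_eq_iff hh hu hAu, ← tv_conj hh hu _ (iso_rhoSU A) hAu, eq_mul_inv_iff_mul_eq,
        eq_comm]
      exact hA _ (Subgroup.subset_closure (tv_mem_Tvs hh hu)))
  exact ⟨m, hm⟩

/-- If `PSU` is simple, it is isomorphic to `Gr` modulo its center. -/
theorem equiv_psu (hstar : ∃ x : K, star x ≠ x) (hn : 3 ≤ Fintype.card ι)
    [IsSimpleGroup (PSU ι K)] :
    Nonempty ((Gr (fm K ι) ⧸ Subgroup.center (Gr (fm K ι))) ≃* PSU ι K) := by
  have hh : Herm (fm K ι) := herm_fm
  -- the preimage of `Gr`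
  have hex : ∀ g : Gr (fm K ι), ∃ A : SU ι K, rhoSU A = (g : (ι → K) ≃ₗ[K] (ι → K)) :=
    fun g => Gr_le_range g.2
  choose s hs using hex
  let f : Gr (fm K ι) →* PSU ι K :=
    { toFun := fun g => QuotientGroup.mk (s g)
      map_one' := by
        have h1 : s 1 = 1 := rhoSU_inj (by rw [hs, map_one]; rfl)
        rw [h1]
        rfl
      map_mul' := fun g g' => by
        have h1 : s (g * g') = s g * s g' := rhoSU_inj (by rw [hs, map_mul, hs, hs]; rfl)
        rw [h1]
        rfl }
  have hf : ∀ (g : Gr (fm K ι)) (A : SU ι K), rhoSU A = (g : (ι → K) ≃ₗ[K] (ι → K)) →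
      f g = QuotientGroup.mk A := by
    intro g A hA
    have h1 : s g = A := rhoSU_inj (by rw [hs, hA])
    show (QuotientGroup.mk (s g) : PSU ι K) = _
    rw [h1]
  have hnorm : f.range.Normal := by
    constructor
    rintro _ ⟨g, rfl⟩ b
    obtain ⟨B, rfl⟩ := QuotientGroup.mk_surjective b
    refine ⟨⟨_, Gr_conj B g.2⟩, ?_⟩
    rw [hf ⟨_, Gr_conj B g.2⟩ (B * s g * B⁻¹) (by rw [map_mul, map_mul, map_inv, hs])]
    rfl
  have hker : ∀ g, f g = 1 ↔ g ∈ Subgroup.center (Gr (fm K ι)) := by
    intro g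
    show (QuotientGroup.mk (s g) : PSU ι K) = 1 ↔ _
    rw [QuotientGroup.eq_one_iff]
    constructor
    · intro h1
      rw [Subgroup.mem_center_iff]
      intro g'
      have h2 := Subgroup.mem_center_iff.1 h1 (s g')
      apply Subtype.ext
      show (g' : (ι → K) ≃ₗ[K] (ι → K)) * g = g * g'
      rw [← hs g, ← hs g', ← map_mul, ← map_mul, h2]
    · intro h1
      apply central_of_comm hstar hn
      intro g' hg'
      have h2 := Subgroup.mem_center_iff.1 h1 ⟨g', hg'⟩
      have h3 := congrArg Subtype.val h2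
      rw [hs]
      exact h3.symm
  have htop : f.range = ⊤ := by
    rcases hnorm.eq_bot_or_eq_top with h1 | h1
    · exfalso
      obtain ⟨u, hu⟩ := exists_iso hh hstar (by rw [Module.finrank_fintype_fun_eq_card]; omega)
      have h2 : f (tg hh hu) = 1 := by
        have h3 : f (tg hh hu) ∈ f.range := ⟨_, rfl⟩
        rw [h1, Subgroup.mem_bot] at h3
        exact h3
      rw [hker] at h2
      obtain ⟨w, hw0, hwu, -⟩ := exists_perp hh (by rw [Module.finrank_fintype_fun_eq_card]; exact hn)
        u u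
      have h4 := center_one hh hstar (by rw [Module.finrank_fintype_fun_eq_card]; exact hn) h2 hw0
        (by
          show act (fm K ι) u w = w
          rw [act, hwu, zero_smul, add_zero])
      have h5 : ∀ x, fm K ι x u = 0 := by
        intro x
        have h6 := congrArg (fun g : Gr (fm K ι) => (g : (ι → K) ≃ₗ[K] (ι → K)) x) h4
        have h7 : act (fm K ι) u x = x := h6
        rw [act, add_eq_left] at h7
        exact (smul_eq_zero.1 h7).resolve_right hu.1
      exact hu.1 (hh.nondeg u fun y => hh.eq_zero_comm.1 (h5 y))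
    · exact h1
  have hkc : f.ker = Subgroup.center (Gr (fm K ι)) := by
    ext g
    rw [MonoidHom.mem_ker, hker]
  have hsurj : Function.Surjective f := MonoidHom.range_eq_top.1 htop
  exact ⟨(QuotientGroup.quotientMulEquivOfEq hkc.symm).trans
    (QuotientGroup.quotientKerEquivOfSurjective f hsurj)⟩

omit [Fintype ι] [DecidableEq ι] in
/-- A field whose fixed field has two elements has four elements. -/
theorem card_four (hstar : ∃ x : K, star x ≠ x) (H : ∀ b : K, star b = b → b ≠ 0 → b = 1) :
    Nat.card K = 4 := by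
  classical
  have : Fintype K := Fintype.ofFinite K
  obtain ⟨x, hx⟩ := hstar
  have h2 : (2 : K) = 0 := CharTwo.two_eq_zero
  have htr : ∀ y : K, trc y = 0 → y = 0 ∨ y = 1 := by
    intro y hy
    by_cases h0 : y = 0
    · exact Or.inl h0
    · right
      refine H y ?_ h0
      rw [trc] at hy
      linear_combination hy - y * h2
  have htx : trc x ≠ 0 := by
    intro h0
    apply hx
    rw [trc] at h0
    linear_combination h0 - x * h2
  have ht1 : ∀ y : K, trc y ≠ 0 → trc y = 1 := fun y hy => H _ (star_trc y) hy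
  have hx1 := ht1 x htx
  have hall : ∀ y : K, y = 0 ∨ y = 1 ∨ y = x ∨ y = x + 1 := by
    intro y
    by_cases hy : trc y = 0
    · rcases htr y hy with h | h
      · exact Or.inl h
      · exact Or.inr (Or.inl h)
    · have hy1 := ht1 y hy
      have h3 : trc (y + x) = 0 := by
        rw [trc] at hx1 hy1
        rw [trc, star_add]
        linear_combination hx1 + hy1 + h2
      rcases htr _ h3 with h | h
      · right; right; left
        linear_combination h - x * h2
      · right; right; right
        linear_combination h - x * h2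
  have hx0 : x ≠ 0 := by
    rintro rfl
    apply hx
    rw [star_zero]
  have hxx : x ≠ 1 := by
    rintro rfl
    apply hx
    rw [star_one]
  have hx3 : x + 1 ≠ 0 := fun h => hxx (by linear_combination h - h2)
  have hx4 : x + 1 ≠ 1 := fun h => hx0 (by linear_combination h)
  have hx5 : x ≠ x + 1 := fun h => one_ne_zero (α := K) (by linear_combination -h)
  have hu : (Finset.univ : Finset K) = {0, 1, x, x + 1} := by
    ext y
    simp only [Finset.mem_univ, Finset.mem_insert, Finset.mem_singleton, true_iff]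
    exact hall y
  rw [Nat.card_eq_fintype_card, ← Finset.card_univ, hu, Finset.card_insert_of_notMem,
    Finset.card_insert_of_notMem, Finset.card_insert_of_notMem, Finset.card_singleton]
  · rw [Finset.mem_singleton]
    exact hx5
  · simp only [Finset.mem_insert, Finset.mem_singleton, not_or]
    exact ⟨hxx.symm, hx4.symm⟩
  · simp only [Finset.mem_insert, Finset.mem_singleton, not_or]
    exact ⟨zero_ne_one, hx0.symm, hx3.symm⟩

/-- Q1 for all involution classes of `PSU(n, q)`, `q` even. -/
theorem psu_even (hstar : ∃ x : K, star x ≠ x) (hn : 3 ≤ Fintype.card ι)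
    (hL : Fintype.card ι ≠ 3 ∨ Nat.card K ≠ 4) [IsSimpleGroup (PSU ι K)] : Good (PSU ι K) := by
  obtain ⟨e⟩ := equiv_psu (ι := ι) hstar hn
  refine Good.congr e ?_
  intro a ha τ hτ
  refine all_classes hstar (fm K ι) herm_fm (by rw [Module.finrank_fintype_fun_eq_card]; exact hn)
    ?_ a ha τ hτ
  rw [Module.finrank_fintype_fun_eq_card]
  intro h3
  have h4 : Nat.card K ≠ 4 := hL.resolve_left fun h => h h3
  by_contra hcon
  push Not at hcon
  exact h4 (card_four hstar hcon)

end Pool.Agent.Helper81.EU
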