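import Pool.Agent.Helper81.EU.Su

/-!
# `PSU(n, q)`, `q` odd: the center of `SU` consists of scalars
-/

set_option autoImplicit false

open Matrix

namespace Pool.Agent.Helper81.EU

open Pool.Agent.Helper81.UT Pool.Agent.Helper92.UN

variable {K : Type*} [Field K] [StarRing K] {ι : Type*} [Fintype ι] [DecidableEq ι]

theorem mrf_unitary {u : ι → K} (hu : Un (fm K ι) u) : mrf 1 u ∈ Matrix.unitaryGroup ι K := by
  have h1 : star u ⬝ᵥ u = 1 := by
    rw [dotProduct_comm]
    exact hu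
  obtain ⟨E, hE⟩ : ∃ E : Matrix ι ι K, E = vecMulVec u (star u) := ⟨_, rfl⟩
  have hEE : E * E = E := by
    rw [hE, Pool.Agent.Helper2.RO.mul_eq, h1, one_smul]
  have hEs : star E = E := by
    rw [hE, star_eq_conjTranspose, conjTranspose_vecMulVec, star_star]
  have hst : star (mrf 1 u) = 1 + (-2 : K) • E := by
    rw [mrf, ← hE, one_smul, star_add, star_one, star_smul, hEs, star_neg, star_two]
  rw [Matrix.mem_unitaryGroup_iff, hst, mrf, ← hE, one_smul]
  have h5 : (1 + (-2 : K) • E) * (1 + (-2 : K) • E) = 1 + (-4 : K) • E + (4 : K) • (E * E) := by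
    rw [mul_add, add_mul, add_mul, one_mul, one_mul, smul_mul_smul_comm, mul_one]
    module
  rw [h5, hEE]
  module

/-- The product of two reflections. -/
def rr {u v : ι → K} (hu : Un (fm K ι) u) (hv : Un (fm K ι) v) : SU ι K :=
  ⟨mrf 1 u * mrf 1 v, by
    rw [Matrix.mem_specialUnitaryGroup_iff]
    refine ⟨mul_mem (mrf_unitary hu) (mrf_unitary hv), ?_⟩
    rw [det_mul, mrf_det 1 hu, mrf_det 1 hv, one_pow]
    ring⟩

theorem rr_apply {u v : ι → K} (hu : Un (fm K ι) u) (hv : Un (fm K ι) v) (x : ι → K) :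
    rhoSU (rr hu hv) x = rf (fm K ι) u (rf (fm K ι) v x) := by
  rw [rhoSU_apply]
  show (mrf 1 u * mrf 1 v) *ᵥ x = _
  rw [← mulVec_mulVec, mrf_mulVec, mrf_mulVec, one_smul, one_smul]

variable [Finite K]

/-- A central element of `SU` is a scalar. -/
theorem central_scalar81 (hn : 3 ≤ Fintype.card ι) (h2 : (2 : K) ≠ 0)
    (hstar : ∃ x : K, star x ≠ x) {A : SU ι K} (hA : A ∈ Subgroup.center (SU ι K)) :
    ∃ c : K, ∀ x, rhoSU A x = c • x := by
  have hh : Herm (fm K ι) := herm_fm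
  have hdim : 3 ≤ Module.finrank K (ι → K) := by
    rw [Module.finrank_fintype_fun_eq_card]
    exact hn
  have key : ∀ u v, Un (fm K ι) u → Un (fm K ι) v → fm K ι u v = 0 →
      rhoSU A u = fm K ι (rhoSU A u) u • u + fm K ι (rhoSU A u) v • v := by
    intro u v hu hv huv
    have hvu : fm K ι v u = 0 := hh.eq_zero_comm.1 huv
    have h3 := Subgroup.mem_center_iff.1 hA (rr hu hv)
    have h4 := congrArg (fun B => rhoSU B u) h3
    simp only [rho_mul_apply, rr_apply] at h4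
    rw [rf_perp huv, rf_self hu, map_neg] at h4
    obtain ⟨y, hy⟩ : ∃ y, y = rhoSU A u := ⟨_, rfl⟩
    rw [← hy] at h4 ⊢
    have h5 : fm K ι (rf (fm K ι) v y) u = fm K ι y u := by
      rw [rf, sub_left92 hh, hh.smul, hvu, mul_zero, sub_zero]
    rw [rf, h5, rf] at h4
    have h6 : (2 : K) • y = (2 : K) • (fm K ι y u • u + fm K ι y v • v) := by
      have h7 : (2 : K) • y = y - -y := by module
      rw [h7, ← h4]
      module
    exact smul_right_injective _ h2 h6
  refine scalar hh h2 hstar hdim (rhoSU A) fun u hu => ?_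
  -- unit vectors `v`, `w`
  have hu' : fm K ι u u ≠ 0 := by
    rw [show fm K ι u u = 1 from hu]
    exact one_ne_zero
  have hdimu : 2 ≤ Module.finrank K (perpSp hh u) := by
    have h3 := finrank_perp hh hu'
    omega
  obtain ⟨v0, hv0, hv0'⟩ := exists_non_perp hh h2 (by omega) hu'
  obtain ⟨w0, hw0, hw0'⟩ := exists_non_perp (herm_perp hh hu') h2 hdimu (w := ⟨v0, hv0⟩) hv0'
  have hw1 : fm K ι (w0 : ι → K) v0 = 0 := hw0
  have hw2 : fm K ι (w0 : ι → K) (w0 : ι → K) ≠ 0 := hw0'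
  have hw3 : fm K ι (w0 : ι → K) u = 0 := w0.2
  obtain ⟨c, hc, hv⟩ := exists_unit hh h2 hstar hv0'
  obtain ⟨d, hd, hw⟩ := exists_unit hh h2 hstar hw2
  have huv : fm K ι u (c • v0) = 0 := by
    rw [hh.smul_right, hh.eq_zero_comm.1 hv0, mul_zero]
  have huw : fm K ι u (d • (w0 : ι → K)) = 0 := by
    rw [hh.smul_right, hh.eq_zero_comm.1 hw3, mul_zero]
  have hwv : fm K ι (d • (w0 : ι → K)) (c • v0) = 0 := by
    rw [hh.smul, hh.smul_right, hw1, mul_zero, mul_zero]
  have h3 := key u _ hu hv huv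
  have h4 := key u _ hu hw huw
  obtain ⟨y, hy⟩ : ∃ y, y = rhoSU A u := ⟨_, rfl⟩
  obtain ⟨v, hvv⟩ : ∃ v, v = c • v0 := ⟨_, rfl⟩
  obtain ⟨w, hww⟩ : ∃ w, w = d • (w0 : ι → K) := ⟨_, rfl⟩
  have hyy : fm K ι y y = 1 := by
    rw [hy, iso_rhoSU]
    exact hu
  rw [← hvv] at h3 hv huv hwv
  rw [← hww] at h4 hw huw hwv
  rw [← hy] at h3 h4 ⊢
  have h5 : fm K ι y v = 0 := by
    have h6 := congrArg (fun z => fm K ι z v) h4
    simp only [hh.add, hh.smul, huv, hwv, mul_zero, add_zero] at h6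
    exact h6
  rw [h5, zero_smul, add_zero] at h3
  refine ⟨fm K ι y u, ?_, h3⟩
  have h6 : fm K ι y y = nm (fm K ι y u) * fm K ι u u := by
    conv_lhs => rw [h3]
    rw [hh.smul, hh.smul_right, nm]
    ring
  rw [hyy, show fm K ι u u = 1 from hu, mul_one] at h6
  exact h6.symm

end Pool.Agent.Helper81.EU
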