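import Pool.Agent.Helper81.EU.ThA

/-!
# Block EU-TB: elements opposite to `N`: `M' M₀ = 0`

`theta_zero`: put `Θ = M' M₀ = M₀ M'`, self adjoint; `Θ R Θ = M₀ (M' R M') M₀ = M₀ M' M₀ = M' M₀ M₀ = 0`; `M R Θ = Θ` (`Cfg.MR`, image of `M₀`).
Let `w` be in `range N` and suppose `k = h (Θ w) w ≠ 0` (`star k = k`). Choose `c` with `trc c = h (M w) w / k` and `u = w + c • R (Θ w)`, in
`range N`. `h (M w) (R Θ w) = h (R M w) (Θ w) = h w (Θ w) = k`, `h (M R Θ w) w = k`, `h (M R Θ w) (R Θ w) = h w (Θ R Θ w) = 0`, so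
`h (M u) u = h (M w) w + (c + star c) * k = 0`; and `h (Θ u) u = h (Θ w) w = k` (`Θ R Θ = 0`, `h (Θ w) (R Θ w) = h w (Θ R Θ w) = 0`), a contradiction to
`theta_iso`. So `h (Θ w) w = 0` for all `w` in `range N`. Polarize: for `w, w'` in `range N` and all `c`
`trc (c * h (Θ w') w) = 0`, so `h (Θ w') w = 0` (`hstar`). For `z` in `V`: `Θ z = Θ (R (M z))`, because
`z - R M z` is in `ker M = ker M₀`. So `h (Θ z) z' = h (Θ R M z) z' = h (R M z) (Θ z') = h (R M z) (Θ R M z') = 0`.
-/

set_option autoImplicit false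
set_option linter.unusedSectionVars false

open LinearMap

namespace Pool.Agent.Helper81.EU

open Pool.Agent.Helper81.UT Pool.Agent.Helper2.EV

variable {K V : Type*} [Field K] [StarRing K] [AddCommGroup V] [Module K V] [CharP K 2] [Finite K]
  [FiniteDimensional K V] {h : V → V → K} {j : ℕ} {N R M M' M₀ : Module.End K V}

theorem theta_zero (hh : Herm h) (hstar : ∃ x : K, star x ≠ x) (c : Cfg h j N R M M' M₀) :
    M' * M₀ = 0 := by
  have hcm : ∀ z, M' (M₀ z) = M₀ (M' z) := fun z => LinearMap.congr_fun c.comm z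
  -- self adjoint
  have hSA : ∀ x y, h (M' (M₀ x)) y = h x (M' (M₀ y)) := by
    intro x y
    rw [el_adj c.hM', el_adj c.hM₀, hcm]
  have hTRT : ∀ z, M' (M₀ (R (M' (M₀ z)))) = 0 := by
    intro z
    have h1 : M' (R (M' (M₀ z))) = M' (M₀ z) := LinearMap.congr_fun c.iRM'.2 (M₀ z)
    rw [hcm, h1, hcm z, el_sq' c.hM₀]
  have hMRT : ∀ z, M (R (M' (M₀ z))) = M' (M₀ z) := by
    intro z
    apply c.MR
    rw [← c.hMM, hcm]
    exact ⟨_, rfl⟩
  have hRr : ∀ z, R z ∈ range N := by
    intro z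
    rw [← c.hRN]
    exact ⟨z, rfl⟩
  have hk : ∀ w ∈ range N, h (M' (M₀ w)) w = 0 := by
    intro w hw
    by_contra hk0
    have hks : star (h (M' (M₀ w)) w) = h (M' (M₀ w)) w := by
      rw [hh.symm, hSA]
    have hss : star (h (M w) w) = h (M w) w := by
      rw [hh.symm, el_adj c.hM]
    obtain ⟨d, hd⟩ := trc_surj hstar (s := h (M w) w * (h (M' (M₀ w)) w)⁻¹) (by
      rw [star_mul, star_inv₀, hks, hss, mul_comm])
    have hu : w + d • R (M' (M₀ w)) ∈ range N :=
      (range N).add_mem hw ((range N).smul_mem d (hRr _))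
    have hTR : h (M' (M₀ w)) (R (M' (M₀ w))) = 0 := by
      rw [hSA, hTRT, hh.zero_right]
    have hMR : h (M w) (R (M' (M₀ w))) = h (M' (M₀ w)) w := by
      rw [← el_adj c.hR, c.RM hw, ← hSA]
    have h1 : h (M (w + d • R (M' (M₀ w)))) (w + d • R (M' (M₀ w))) = 0 := by
      rw [map_add, map_smul, hMRT, hh.add, hh.add_right, hh.add_right, hh.smul, hh.smul,
        hh.smul_right, hh.smul_right, hTR, hMR, mul_zero, mul_zero, add_zero]
      have h2 : h (M w) w + star d * h (M' (M₀ w)) w + d * h (M' (M₀ w)) w =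
          h (M w) w + trc d * h (M' (M₀ w)) w := by
        rw [trc]
        ring
      rw [h2, hd, inv_mul_cancel_right₀ hk0]
      exact CharTwo.add_self_eq_zero _
    have h2 := theta_iso hh c hu h1
    rw [map_add, map_smul, map_add, map_smul, hTRT, smul_zero, add_zero, hh.add_right,
      hh.smul_right, hTR, mul_zero, add_zero] at h2
    exact hk0 h2
  have hpol : ∀ w ∈ range N, ∀ w' ∈ range N, h (M' (M₀ w')) w = 0 := by
    intro w hw w' hw'
    by_contra hb
    obtain ⟨x, hx⟩ := hstar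
    apply hx
    have h1 : ∀ d : K, star d * h (M' (M₀ w)) w' + d * h (M' (M₀ w')) w = 0 := by
      intro d
      have h2 := hk (w + d • w') ((range N).add_mem hw ((range N).smul_mem d hw'))
      rw [map_add, map_smul, map_add, map_smul, hh.add, hh.add_right, hh.add_right, hh.smul,
        hh.smul, hh.smul_right, hh.smul_right, hk w hw, hk w' hw'] at h2
      rw [← h2]
      ring
    have h3 : h (M' (M₀ w)) w' = star (h (M' (M₀ w')) w) := by
      rw [hh.symm, hSA]
    have h4 := h1 (x * (h (M' (M₀ w')) w)⁻¹)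
    rw [h3, ← star_mul, mul_comm (h (M' (M₀ w')) w) _, inv_mul_cancel_right₀ hb] at h4
    apply trc_eq_zero.1
    rw [trc, add_comm]
    exact h4
  have hz : ∀ z, M' (M₀ z) = M' (M₀ (R (M z))) := by
    intro z
    have h1 : M (z - R (M z)) = 0 := by
      rw [map_sub, c.MR ⟨z, rfl⟩, sub_self]
    have h2 : z - R (M z) ∈ ker M₀ := by
      rw [c.kMM hh]
      exact h1
    have h3 : M₀ (z - R (M z)) = 0 := h2
    rw [map_sub, sub_eq_zero] at h3
    rw [h3]
  ext z
  show M' (M₀ z) = 0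
  apply hh.nondeg
  intro z'
  rw [hz z, hSA, hz z', ← hSA]
  exact hpol _ (hRr _) _ (hRr _)

end Pool.Agent.Helper81.EU
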