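import Pool.Agent.Helper81.EU.Cfg

/-!
# Block EU-TA: elements opposite to `N`, isotropic vectors of `range N`

`theta_iso`: let `T = rk hh u u` (`h u u = 0`), `t = 1 + T`, `P = t M₀ t` (`conj_mem`). `N t = N = t N` (`N u = 0`, `h (N z) u = 0`), so
`Inv N P` (`t t = 1`). `M P z = M t (M₀ t z) = h (M₀ (t z)) u • M u` (`M M₀ = 0`), and `M P (M u) = h (M₀ (t (M u))) u • M u = 0`
(`t (M u) = M u + h (M u) u • u = M u`, `M₀ (M u) = 0`), so `(M P)² = 0` and `M' P` is nilpotent (`Cfg.nil`).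
`w = M' u ≠ 0` or `u = 0` (`RM'`); `t w = w` (`h (M' u) u = h (M u) u = 0`, `Cfg.form`), `M' P w = M' t (M₀ w) =
M' (M₀ w + h (M₀ w) u • u) = h (M₀ w) u • w` (`M' M₀ M' u = M₀ M' M' u = 0`, `Cfg.comm`). So `(M' P)^k w = (h (M₀ w) u)^k • w`, and
`h (M₀ (M' u)) u = 0`; `M₀ M' = M' M₀`.
-/

set_option autoImplicit false
set_option linter.unusedSectionVars false

open LinearMap

namespace Pool.Agent.Helper81.EU

open Pool.Agent.Helper81.UT Pool.Agent.Helper2.EV

variable {K V : Type*} [Field K] [StarRing K] [AddCommGroup V] [Module K V] [CharP K 2] [Finite K]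
  [FiniteDimensional K V] {h : V → V → K} {j : ℕ} {N R M M' M₀ : Module.End K V}

theorem theta_iso (hh : Herm h) (c : Cfg h j N R M M' M₀) {u : V} (hu : u ∈ range N)
    (hu' : h (M u) u = 0) : h (M' (M₀ u)) u = 0 := by
  have hNu : N u = 0 := by
    obtain ⟨z, rfl⟩ := hu
    exact el_sq' c.hN z
  have huu : h u u = 0 := by
    obtain ⟨z, rfl⟩ := hu
    exact el_perp hh c.hN z z
  have hNzu : ∀ z, h (N z) u = 0 := by
    intro z
    rw [el_adj c.hN, hNu, hh.zero_right]
  have hT : rk hh u u * rk hh u u = 0 := rk_sq hh huu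
  have hP : (1 + rk hh u u) * M₀ * (1 + rk hh u u) ∈ El h j := conj_mem hh c.hM₀ hT (rk_sa hh u)
  have htt := one_add_sq hT
  have ht : ∀ z, (1 + rk hh u u) z = z + h z u • u := fun z => rfl
  have hNt : N * (1 + rk hh u u) = N := by
    ext z
    show N ((1 + rk hh u u) z) = N z
    rw [ht, map_add, map_smul, hNu, smul_zero, add_zero]
  have htN : (1 + rk hh u u) * N = N := by
    ext z
    show (1 + rk hh u u) (N z) = N z
    rw [ht, hNzu, zero_smul, add_zero]
  have hInv : Inv N ((1 + rk hh u u) * M₀ * (1 + rk hh u u)) := by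
    constructor
    · calc N * ((1 + rk hh u u) * M₀ * (1 + rk hh u u)) * N
          = (N * (1 + rk hh u u)) * M₀ * ((1 + rk hh u u) * N) := by noncomm_ring
        _ = N := by rw [hNt, htN]; exact c.iNM.1
    · calc (1 + rk hh u u) * M₀ * (1 + rk hh u u) * N * ((1 + rk hh u u) * M₀ * (1 + rk hh u u))
          = (1 + rk hh u u) * M₀ * ((1 + rk hh u u) * N) * (1 + rk hh u u) * M₀ * (1 + rk hh u u) := by
            noncomm_ring
        _ = (1 + rk hh u u) * M₀ * N * (1 + rk hh u u) * M₀ * (1 + rk hh u u) := by rw [htN]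
        _ = (1 + rk hh u u) * M₀ * (N * (1 + rk hh u u)) * M₀ * (1 + rk hh u u) := by noncomm_ring
        _ = (1 + rk hh u u) * (M₀ * N * M₀) * (1 + rk hh u u) := by rw [hNt]; noncomm_ring
        _ = (1 + rk hh u u) * M₀ * (1 + rk hh u u) := by rw [c.iNM.2]
  have hMP : ∀ z, (M * ((1 + rk hh u u) * M₀ * (1 + rk hh u u))) z =
      h (M₀ ((1 + rk hh u u) z)) u • M u := by
    intro z
    show M ((1 + rk hh u u) (M₀ ((1 + rk hh u u) z))) = _
    rw [ht (M₀ ((1 + rk hh u u) z)), map_add, map_smul]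
    have h1 : M (M₀ ((1 + rk hh u u) z)) = 0 := LinearMap.congr_fun c.MM₀.1 _
    rw [h1, zero_add]
  have hnil : IsNilpotent (M * ((1 + rk hh u u) * M₀ * (1 + rk hh u u))) := by
    refine ⟨2, ?_⟩
    rw [pow_two]
    ext z
    show (M * ((1 + rk hh u u) * M₀ * (1 + rk hh u u))) ((M * ((1 + rk hh u u) * M₀ * (1 + rk hh u u))) z) = 0
    rw [hMP z, map_smul, hMP (M u), ht (M u), hu', zero_smul, add_zero]
    have h1 : M₀ (M u) = 0 := LinearMap.congr_fun c.MM₀.2 _
    rw [h1, hh.zero_left, zero_smul, smul_zero]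
  have hnil' := c.nil _ hP hInv hnil
  by_cases hu0 : u = 0
  · rw [hu0, hh.zero_right]
  have hw0 : M' u ≠ 0 := by
    intro h1
    apply hu0
    rw [← c.RM' hu, h1, map_zero]
  have hcm : M₀ (M' u) = M' (M₀ u) := (LinearMap.congr_fun c.comm u).symm
  rw [← hcm]
  have hstep : (M' * ((1 + rk hh u u) * M₀ * (1 + rk hh u u))) (M' u) = h (M₀ (M' u)) u • M' u := by
    show M' ((1 + rk hh u u) (M₀ ((1 + rk hh u u) (M' u)))) = _
    rw [ht (M' u), c.form hh hu hu, hu', zero_smul, add_zero, ht (M₀ (M' u)), map_add, map_smul]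
    have h1 : M' (M₀ (M' u)) = 0 := by
      have h2 : M' (M₀ (M' u)) = M₀ (M' (M' u)) := LinearMap.congr_fun c.comm (M' u)
      rw [h2, el_sq' c.hM', map_zero]
    rw [h1, zero_add]
  have hpow : ∀ n : ℕ, ((M' * ((1 + rk hh u u) * M₀ * (1 + rk hh u u))) ^ n) (M' u) =
      (h (M₀ (M' u)) u) ^ n • M' u := by
    intro n
    induction n with
    | zero =>
      rw [pow_zero, pow_zero, one_smul]
      rfl
    | succ n ih =>
      rw [pow_succ]
      show ((M' * ((1 + rk hh u u) * M₀ * (1 + rk hh u u))) ^ n)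
        ((M' * ((1 + rk hh u u) * M₀ * (1 + rk hh u u))) (M' u)) = _
      rw [hstep, map_smul, ih, smul_smul, pow_succ']
  obtain ⟨n, hn⟩ := hnil'
  have h1 := hpow n
  rw [hn] at h1
  have h2 : (h (M₀ (M' u)) u) ^ n • M' u = 0 := h1.symm
  rcases smul_eq_zero.1 h2 with h3 | h3
  · exact eq_zero_of_pow_eq_zero h3
  · exact absurd h3 hw0

end Pool.Agent.Helper81.EU
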